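import Mathlib

namespace Pool.Agent.Work.MP_66fdf3_co

/-- `L` is a latin square on `G`: every row and every column is a bijection onto the symbols. -/
def IsLatin {G : Type*} (L : G → G → G) : Prop :=
  (∀ x, Function.Bijective (L x)) ∧ (∀ y, Function.Bijective fun x => L x y)

/-- The four cells `{r₁, r₂} × {c₁, c₂}` of `L` form a `2 × 2` latin subsquare
on the two symbols `a` and `b`. -/
def IsSubsquare {G : Type*} (L : G → G → G) (r₁ r₂ c₁ c₂ a b : G) : Prop :=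
  (L r₁ c₁ = a ∧ L r₁ c₂ = b ∧ L r₂ c₁ = b ∧ L r₂ c₂ = a) ∨
  (L r₁ c₁ = b ∧ L r₁ c₂ = a ∧ L r₂ c₁ = a ∧ L r₂ c₂ = b)

/-- Near-orthogonality of two squares on `G`: a common `2 × 2` latin subsquare position on the
same two symbols, and exactly `n ^ 2 - 2` distinct ordered pairs on superimposition. -/
def NearOrthogonal {G : Type*} (L L' : G → G → G) : Prop :=
  (∃ r₁ r₂ c₁ c₂ a b : G, r₁ ≠ r₂ ∧ c₁ ≠ c₂ ∧ a ≠ b ∧
      IsSubsquare L r₁ r₂ c₁ c₂ a b ∧ IsSubsquare L' r₁ r₂ c₁ c₂ a b) ∧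
    (Set.range fun p : G × G => (L p.1 p.2, L' p.1 p.2)).ncard + 2 = Nat.card G ^ 2

/-- The Cayley table of `G` has a near-orthogonal mate. -/
def HasNearOrthogonalMate (G : Type*) [Group G] : Prop :=
  ∃ L' : G → G → G, IsLatin L' ∧ NearOrthogonal (fun g h : G => g * h) L'

end Pool.Agent.Work.MP_66fdf3_co
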