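import Pool.Agent.Work.MP_66fdf3_co.Defs

-- merged part: Pool.Agent.Work.MP_66fdf3_co.RC
section
-- merged part: Pool.Agent.Work.MP_66fdf3_co.Core
section
namespace Pool.Agent.Work.MP_66fdf3_co

open Function

variable {G : Type*} [Group G]

/-- Holey transversal: rows outside `R`, columns outside `C`, symbols outside `S`. -/
structure HT (R C S : Set G) (θ : G → G) : Prop where
  col : ∀ x, x ∉ R → θ x ∉ C
  sym : ∀ x, x ∉ R → x * θ x ∉ S
  inj : ∀ x, x ∉ R → ∀ x', x' ∉ R → θ x = θ x' → x = x'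
  injs : ∀ x, x ∉ R → ∀ x', x' ∉ R → x * θ x = x' * θ x' → x = x'

/-- Normalised near-orthogonal data. -/
def NO (G : Type*) [Group G] : Prop :=
  ∃ (t k₁ k₂ : G) (col : G → G → G), t ≠ 1 ∧ t * t = 1 ∧ k₁ ≠ k₂ ∧
    (∀ x, Injective fun k => col k x) ∧
    (∀ k, k ≠ k₁ → k ≠ k₂ → HT ∅ ∅ ∅ (col k)) ∧
    HT {1, t} {1, t} {1, t} (col k₁) ∧ HT {1, t} {1, t} {1, t} (col k₂) ∧
    col k₁ 1 = 1 ∧ col k₁ t = t ∧ col k₂ 1 = t ∧ col k₂ t = 1

theorem HT.inj_of_vals {t : G} {θ : G → G} (h : HT {1, t} {1, t} {1, t} θ)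
    (h1 : θ 1 ∈ ({1, t} : Set G)) (h2 : θ t ∈ ({1, t} : Set G)) (h12 : θ 1 ≠ θ t) :
    Injective θ := by
  intro x x' e
  by_cases hx : x ∈ ({1, t} : Set G) <;> by_cases hx' : x' ∈ ({1, t} : Set G)
  · rcases hx with rfl | hx <;> rcases hx' with rfl | hx'
    · rfl
    · rw [Set.mem_singleton_iff] at hx'; subst hx'; exact absurd e h12
    · rw [Set.mem_singleton_iff] at hx; subst hx; exact absurd e.symm h12
    · rw [Set.mem_singleton_iff] at hx hx'; rw [hx, hx']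
  · have := h.col x' hx'
    rw [← e] at this
    rcases hx with rfl | hx
    · exact absurd h1 this
    · rw [Set.mem_singleton_iff] at hx; subst hx; exact absurd h2 this
  · have := h.col x hx
    rw [e] at this
    rcases hx' with rfl | hx'
    · exact absurd h1 this
    · rw [Set.mem_singleton_iff] at hx'; subst hx'; exact absurd h2 this
  · exact h.inj x hx x' hx' e

theorem NO.mate [Finite G] (h : NO G) : HasNearOrthogonalMate G := by
  classical
  obtain ⟨t, k₁, k₂, col, ht1, ht2, hk, hrow, hn, h1, h2, v11, v1t, v21, v2t⟩ := h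
  have hcol : ∀ k, Injective (col k) := by
    intro k
    by_cases e1 : k = k₁
    · subst e1
      exact h1.inj_of_vals (by simp [v11]) (by simp [v1t]) (by rw [v11, v1t]; exact ht1.symm)
    by_cases e2 : k = k₂
    · subst e2
      exact h2.inj_of_vals (by simp [v21]) (by simp [v2t]) (by rw [v21, v2t]; exact ht1)
    intro x x' e
    exact (hn k e1 e2).inj x (by simp) x' (by simp) e
  -- class function
  have hb : ∀ x, Bijective fun k => col k x := fun x => (Finite.injective_iff_bijective).1 (hrow x)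
  let κ : G → G → G := fun x y => (Equiv.ofBijective _ (hb x)).symm y
  have hκ : ∀ x y, col (κ x y) x = y := fun x y =>
    (Equiv.ofBijective _ (hb x)).apply_symm_apply y
  have hκ' : ∀ k x, κ x (col k x) = k := fun k x =>
    (Equiv.ofBijective _ (hb x)).symm_apply_apply k
  -- relabelling
  obtain ⟨e, e1, e2⟩ : ∃ e : Equiv.Perm G, e k₁ = 1 ∧ e k₂ = t := by
    refine ⟨Equiv.swap (Equiv.swap k₁ 1 k₂) t * Equiv.swap k₁ 1, ?_, ?_⟩
    · simp only [Equiv.Perm.mul_apply, Equiv.swap_apply_left]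
      apply Equiv.swap_apply_of_ne_of_ne _ ht1.symm
      intro h
      apply hk
      have := congrArg (Equiv.swap k₁ 1) h
      simpa using this
    · simp
  refine ⟨fun x y => e (κ x y), ⟨fun x => ?_, fun y => ?_⟩, ⟨1, t, 1, t, 1, t, ht1.symm, ht1.symm,
    ht1.symm, Or.inl ⟨by simp, by simp, by simp, ht2⟩, Or.inl ⟨?_, ?_, ?_, ?_⟩⟩, ?_⟩
  · exact e.bijective.comp (Equiv.ofBijective _ (hb x)).symm.bijective
  · refine e.bijective.comp ((Finite.injective_iff_bijective).1 ?_)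
    intro x x' h
    have h : κ x y = κ x' y := h
    apply hcol (κ x y)
    rw [hκ, h, hκ]
  · show e (κ 1 1) = 1
    have := hκ' k₁ 1; rw [v11] at this; rw [this, e1]
  · show e (κ 1 t) = t
    have := hκ' k₂ 1; rw [v21] at this; rw [this, e2]
  · show e (κ t 1) = t
    have := hκ' k₂ t; rw [v2t] at this; rw [this, e2]
  · show e (κ t t) = 1
    have := hκ' k₁ t; rw [v1t] at this; rw [this, e1]
  · -- counting
    set f : G × G → G × G := fun p => (p.1 * p.2, e (κ p.1 p.2)) with hf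
    let D : Set (G × G) := {(t, t), (t, 1)}
    have hinj : Set.InjOn f Dᶜ := by
      rintro ⟨x, y⟩ hp ⟨x', y'⟩ hp' h
      simp only [hf, Prod.mk.injEq, EmbeddingLike.apply_eq_iff_eq] at h
      obtain ⟨hs, hc⟩ := h
      have hy : y = col (κ x y) x := (hκ x y).symm
      have hy' : y' = col (κ x y) x' := by rw [hc, hκ]
      generalize κ x y = k at hy hy'
      subst hy hy'
      suffices x = x' by rw [this]
      have key : ∀ (θ : G → G), HT {1, t} {1, t} {1, t} θ → x ≠ t → x' ≠ t →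
          θ 1 ∈ ({1, t} : Set G) → x * θ x = x' * θ x' → x = x' := by
        intro θ hθ hx hx' hv hs
        by_cases a1 : x = 1 <;> by_cases a2 : x' = 1
        · rw [a1, a2]
        · have := hθ.sym x' (by simp [a2, hx'])
          rw [← hs, a1, one_mul] at this; exact absurd hv this
        · have := hθ.sym x (by simp [a1, hx])
          rw [hs, a2, one_mul] at this; exact absurd hv this
        · exact hθ.injs x (by simp [a1, hx]) x' (by simp [a2, hx']) hs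
      by_cases e1 : k = k₁
      · subst e1
        refine key _ h1 ?_ ?_ (by simp [v11]) hs
        · rintro rfl; exact hp (by simp [D, v1t])
        · rintro rfl; exact hp' (by simp [D, v1t])
      by_cases e2 : k = k₂
      · subst e2
        refine key _ h2 ?_ ?_ (by simp [v21]) hs
        · rintro rfl; exact hp (by simp [D, v2t])
        · rintro rfl; exact hp' (by simp [D, v2t])
      exact (hn k e1 e2).injs x (by simp) x' (by simp) hs
    have hr : Set.range f = f '' Dᶜ := by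
      apply Set.Subset.antisymm _ (Set.image_subset_range _ _)
      rintro _ ⟨p, rfl⟩
      by_cases hp : p ∈ D
      · rcases hp with rfl | hp
        · refine ⟨(1, 1), by simp [D, ht1.symm], ?_⟩
          have a := hκ' k₁ 1; have b := hκ' k₁ t
          rw [v11] at a; rw [v1t] at b
          simp [hf, a, b, ht2]
        · rw [Set.mem_singleton_iff] at hp; subst hp
          refine ⟨(1, t), by simp [D, ht1.symm], ?_⟩
          have a := hκ' k₂ 1; have b := hκ' k₂ t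
          rw [v21] at a; rw [v2t] at b
          simp [hf, a, b]
      · exact ⟨p, hp, rfl⟩
    have hD : D.ncard = 2 := Set.ncard_pair (by simp [ht1])
    show (Set.range f).ncard + 2 = _
    have := Set.ncard_add_ncard_compl D
    rw [hD, Nat.card_prod] at this
    rw [hr, hinj.ncard_image, sq]; omega

end Pool.Agent.Work.MP_66fdf3_co
end

-- merged part: Pool.Agent.Work.MP_66fdf3_co.Lift
section
namespace Pool.Agent.Work.MP_66fdf3_co

open Function

variable {G : Type*} [Group G]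

theorem HT.mono {R C S R' C' S' : Set G} {θ : G → G} (h : HT R C S θ) (hR : R ⊆ R')
    (hC : C' ⊆ C) (hS : S' ⊆ S) : HT R' C' S' θ :=
  ⟨fun x hx e => h.col x (fun a => hx (hR a)) (hC e), fun x hx e => h.sym x (fun a => hx (hR a)) (hS e),
    fun x hx x' hx' => h.inj x (fun a => hx (hR a)) x' (fun a => hx' (hR a)),
    fun x hx x' hx' => h.injs x (fun a => hx (hR a)) x' (fun a => hx' (hR a))⟩

theorem HT.congr {R C S : Set G} {θ θ' : G → G} (h : HT R C S θ) (e : ∀ x, x ∉ R → θ' x = θ x) :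
    HT R C S θ' :=
  ⟨fun x hx => by rw [e x hx]; exact h.col x hx, fun x hx => by rw [e x hx]; exact h.sym x hx,
    fun x hx x' hx' => by rw [e x hx, e x' hx']; exact h.inj x hx x' hx',
    fun x hx x' hx' => by rw [e x hx, e x' hx']; exact h.injs x hx x' hx'⟩

theorem HT.shift {R C S : Set G} {θ : G → G} (h : HT R C S θ) (g k : G) :
    HT {x | g⁻¹ * x ∈ R} {y | y * k⁻¹ ∈ C} {s | g⁻¹ * s * k⁻¹ ∈ S} (fun x => θ (g⁻¹ * x) * k) := by
  refine ⟨fun x hx => ?_, fun x hx => ?_, fun x hx x' hx' e => ?_, fun x hx x' hx' e => ?_⟩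
  · simpa using h.col _ hx
  · have := h.sym _ hx
    simpa [mul_assoc] using this
  · exact mul_left_cancel (h.inj _ hx _ hx' (mul_right_cancel e))
  · refine mul_left_cancel (h.injs _ hx _ hx' ?_)
    have e : x * θ (g⁻¹ * x) = x' * θ (g⁻¹ * x') := by
      apply mul_right_cancel (b := k); simpa [mul_assoc] using e
    rw [mul_assoc, e, mul_assoc]

theorem HT.glue {R C S R₁ C₁ S₁ R₂ C₂ S₂ : Set G} {θ₁ θ₂ : G → G} (p : G → Prop) [DecidablePred p]
    (h₁ : HT R₁ C₁ S₁ θ₁) (h₂ : HT R₂ C₂ S₂ θ₂)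
    (hR₁ : ∀ x, x ∉ R → p x → x ∉ R₁) (hR₂ : ∀ x, x ∉ R → ¬p x → x ∉ R₂)
    (hC₁ : C ⊆ C₁) (hC₂ : C ⊆ C₂) (hS₁ : S ⊆ S₁) (hS₂ : S ⊆ S₂)
    (hC : ∀ y, y ∈ C₁ ∨ y ∈ C₂) (hS : ∀ y, y ∈ S₁ ∨ y ∈ S₂) :
    HT R C S (fun x => if p x then θ₁ x else θ₂ x) := by
  refine ⟨fun x hx => ?_, fun x hx => ?_, fun x hx x' hx' e => ?_, fun x hx x' hx' e => ?_⟩
  · by_cases a : p x
    · simp only [a, if_true]; exact fun e => h₁.col x (hR₁ x hx a) (hC₁ e)
    · simp only [a, if_false]; exact fun e => h₂.col x (hR₂ x hx a) (hC₂ e)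
  · by_cases a : p x
    · simp only [a, if_true]; exact fun e => h₁.sym x (hR₁ x hx a) (hS₁ e)
    · simp only [a, if_false]; exact fun e => h₂.sym x (hR₂ x hx a) (hS₂ e)
  · by_cases a : p x <;> by_cases a' : p x' <;> simp only [a, a', if_true, if_false] at e
    · exact h₁.inj x (hR₁ x hx a) x' (hR₁ x' hx' a') e
    · rcases hC (θ₁ x) with b | b
      · exact absurd b (h₁.col x (hR₁ x hx a))
      · rw [e] at b; exact absurd b (h₂.col x' (hR₂ x' hx' a'))
    · rcases hC (θ₁ x') with b | b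
      · exact absurd b (h₁.col x' (hR₁ x' hx' a'))
      · rw [← e] at b; exact absurd b (h₂.col x (hR₂ x hx a))
    · exact h₂.inj x (hR₂ x hx a) x' (hR₂ x' hx' a') e
  · by_cases a : p x <;> by_cases a' : p x' <;> simp only [a, a', if_true, if_false] at e
    · exact h₁.injs x (hR₁ x hx a) x' (hR₁ x' hx' a') e
    · rcases hS (x * θ₁ x) with b | b
      · exact absurd b (h₁.sym x (hR₁ x hx a))
      · rw [e] at b; exact absurd b (h₂.sym x' (hR₂ x' hx' a'))
    · rcases hS (x' * θ₁ x') with b | b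
      · exact absurd b (h₁.sym x' (hR₁ x' hx' a'))
      · rw [← e] at b; exact absurd b (h₂.sym x (hR₂ x hx a))
    · exact h₂.injs x (hR₂ x hx a) x' (hR₂ x' hx' a') e

/-- Holey transversal inside the subgroup `A`. -/
def HTin (A : Subgroup G) (R C S : Set G) (θ : G → G) : Prop :=
  HT (R ∪ (A : Set G)ᶜ) (C ∪ (A : Set G)ᶜ) (S ∪ (A : Set G)ᶜ) θ

theorem HTin.top {R C S : Set G} {θ : G → G} : HTin ⊤ R C S θ ↔ HT R C S θ := by
  simp [HTin]

theorem HTin.mem {A : Subgroup G} {R C S : Set G} {θ : G → G} (h : HTin A R C S θ) {x : G}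
    (hx : x ∈ A) (hR : x ∉ R) : θ x ∈ A := by
  have := h.col x (by simp [hx, hR])
  simp only [Set.mem_union, Set.mem_compl_iff, SetLike.mem_coe, not_or, not_not] at this
  exact this.2

/-- Complete mapping of the subgroup `A`. -/
def CMin (A : Subgroup G) : Prop := ∃ φ, HTin A ∅ ∅ ∅ φ

/-- Holey transversal of `A` with hole `K`. -/
def RelIn (A K : Subgroup G) : Prop := ∃ θ, HTin A K K K θ

theorem RelIn.refl (A : Subgroup G) : RelIn A A :=
  ⟨id, by constructor <;> simp⟩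

theorem HTin.trans {A K : Subgroup G} (hKA : K ≤ A) {R C S : Set G} {θ φ : G → G}
    (hR : R ⊆ K) (hC : C ⊆ K) (hS : S ⊆ K)
    (h₁ : HTin A K K K θ) (h₂ : HTin K R C S φ) [DecidablePred (· ∈ K)] :
    HTin A R C S (fun x => if x ∈ K then φ x else θ x) := by
  refine HT.glue (· ∈ K) h₂ h₁ ?_ ?_ ?_ ?_ ?_ ?_ ?_ ?_
  · intro x hx hK; simp_all
  · intro x hx hK; simp_all
  · rintro x (a | a)
    · exact Or.inl a
    · exact Or.inr fun b => a (hKA b)
  · rintro x (a | a)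
    · exact Or.inl (hC a)
    · exact Or.inr a
  · rintro x (a | a)
    · exact Or.inl a
    · exact Or.inr fun b => a (hKA b)
  · rintro x (a | a)
    · exact Or.inl (hS a)
    · exact Or.inr a
  · intro y; by_cases a : y ∈ K <;> simp [a]
  · intro y; by_cases a : y ∈ K <;> simp [a]

theorem RelIn.trans {A K L : Subgroup G} (hKA : K ≤ A) (hLK : L ≤ K) (h₁ : RelIn A K)
    (h₂ : RelIn K L) : RelIn A L := by
  classical
  obtain ⟨θ, h₁⟩ := h₁
  obtain ⟨φ, h₂⟩ := h₂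
  exact ⟨_, HTin.trans hKA hLK hLK hLK h₁ h₂⟩

theorem RelIn.cm {A K : Subgroup G} (hKA : K ≤ A) (h₁ : RelIn A K) (h₂ : CMin K) : CMin A := by
  classical
  obtain ⟨θ, h₁⟩ := h₁
  obtain ⟨φ, h₂⟩ := h₂
  exact ⟨_, HTin.trans hKA (by simp) (by simp) (by simp) h₁ h₂⟩

/-- Row-wise latin family inside `A`. -/
def DecIn (A : Subgroup G) (col : G → G → G) : Prop :=
  (∀ k ∈ A, ∀ x ∈ A, col k x ∈ A) ∧ ∀ x ∈ A, ∀ k ∈ A, ∀ k' ∈ A, col k x = col k' x → k = k'

theorem dec_lift {A K : Subgroup G} (hKA : K ≤ A) (hθ : RelIn A K) (hφ : CMin K)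
    {colK : G → G → G} (hc : DecIn K colK) :
    ∃ col, DecIn A col ∧ (∀ g ∈ A, g ∉ K → HTin A ∅ ∅ ∅ (col g)) ∧
      (∀ k ∈ K, ∀ R C S : Set G, R ⊆ K → C ⊆ K → S ⊆ K → HTin K R C S (colK k) →
        HTin A R C S (col k)) ∧ ∀ k ∈ K, ∀ x ∈ K, col k x = colK k x := by
  classical
  obtain ⟨θ, hθ⟩ := hθ
  obtain ⟨φ, hφ⟩ := hφ
  refine ⟨fun g x => if g⁻¹ * x ∈ K then (if g ∈ K then colK g x else φ (g⁻¹ * x))
    else θ (g⁻¹ * x), ⟨?_, ?_⟩, ?_, ?_, ?_⟩
  · intro g hg x hx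
    have hgx : g⁻¹ * x ∈ A := A.mul_mem (A.inv_mem hg) hx
    by_cases a : g⁻¹ * x ∈ K
    · by_cases b : g ∈ K
      · simp only [a, b, if_true]
        exact hKA (hc.1 g b x (by simpa using K.mul_mem b a))
      · simp only [a, b, if_true, if_false]
        exact hKA (hφ.mem a (by simp))
    · simp only [a, if_false]; exact hθ.mem hgx a
  · intro x hx g hg g' hg' e
    have hgx : g⁻¹ * x ∈ A := A.mul_mem (A.inv_mem hg) hx
    have hgx' : g'⁻¹ * x ∈ A := A.mul_mem (A.inv_mem hg') hx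
    have inK : ∀ g, g⁻¹ * x ∈ K → (if g ∈ K then colK g x else φ (g⁻¹ * x)) ∈ K := by
      intro g a
      by_cases b : g ∈ K
      · simp only [b, if_true]; exact hc.1 g b x (by simpa using K.mul_mem b a)
      · simp only [b, if_false]; exact hφ.mem a (by simp)
    have nK : ∀ g, g⁻¹ * x ∈ A → g⁻¹ * x ∉ K → θ (g⁻¹ * x) ∉ K := by
      intro g a b e
      exact hθ.col _ (by simp [a, b]) (Or.inl e)
    by_cases a : g⁻¹ * x ∈ K <;> by_cases a' : g'⁻¹ * x ∈ K <;>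
      simp only [a, a', if_true, if_false] at e
    · have hgg : g ∈ K ↔ g' ∈ K := by
        have : g⁻¹ * g' ∈ K := by simpa using K.mul_mem a (K.inv_mem a')
        constructor
        · intro b; simpa using K.mul_mem b this
        · intro b; simpa using K.inv_mem (K.mul_mem this (K.inv_mem b))
      by_cases b : g ∈ K
      · have b' := hgg.1 b
        simp only [b, b', if_true] at e
        exact hc.2 x (by simpa using K.mul_mem b a) g b g' b' e
      · have b' : g' ∉ K := fun c => b (hgg.2 c)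
        simp only [b, b', if_false] at e
        have := hφ.inj _ (by simp [a]) _ (by simp [a']) e
        simpa using this
    · exact absurd (e ▸ inK g a) (nK g' hgx' a')
    · exact absurd (e ▸ inK g' a') (nK g hgx a)
    · have := hθ.inj _ (by simp [a, hgx]) _ (by simp [a', hgx']) e
      simpa using this
  · intro g hg b
    have := (HTin.trans hKA (by simp) (by simp) (by simp) hθ hφ).shift g 1
    refine (this.mono ?_ ?_ ?_).congr ?_
    · intro x hx; simp only [Set.empty_union, Set.mem_setOf_eq, Set.mem_compl_iff,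
        SetLike.mem_coe] at hx ⊢
      exact fun c => hx (A.mul_mem (A.inv_mem hg) c)
    · intro x hx; simpa using hx
    · intro x hx; simp only [Set.empty_union, Set.mem_setOf_eq, Set.mem_compl_iff,
        SetLike.mem_coe, inv_one, mul_one] at hx ⊢
      exact fun c => hx (by simpa using A.mul_mem hg c)
    · intro x _; simp [b]
  · intro k hk R C S hR hC hS h
    have h1 := hθ.shift k 1
    have e1 : ∀ x, k⁻¹ * x ∈ K ↔ x ∈ K := fun x => K.mul_mem_cancel_left (K.inv_mem hk)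
    have e2 : ∀ x, k⁻¹ * x ∈ A ↔ x ∈ A := fun x => A.mul_mem_cancel_left (A.inv_mem (hKA hk))
    have h2 : HTin A K K K (fun x => θ (k⁻¹ * x) * 1) := by
      refine h1.mono ?_ ?_ ?_ <;> intro x hx <;> simpa [e1, e2] using hx
    refine (HTin.trans hKA hR hC hS h2 h).congr ?_
    intro x _; simp [e1, hk]
  · intro k hk x hx
    have : k⁻¹ * x ∈ K := K.mul_mem (K.inv_mem hk) hx
    simp [this, hk]

/-- Near-orthogonal data inside a subgroup. -/
def NOin (A : Subgroup G) : Prop :=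
  ∃ (t k₁ k₂ : G) (col : G → G → G), t ∈ A ∧ k₁ ∈ A ∧ k₂ ∈ A ∧ t ≠ 1 ∧ t * t = 1 ∧ k₁ ≠ k₂ ∧
    DecIn A col ∧ (∀ k ∈ A, k ≠ k₁ → k ≠ k₂ → HTin A ∅ ∅ ∅ (col k)) ∧
    HTin A {1, t} {1, t} {1, t} (col k₁) ∧ HTin A {1, t} {1, t} {1, t} (col k₂) ∧
    col k₁ 1 = 1 ∧ col k₁ t = t ∧ col k₂ 1 = t ∧ col k₂ t = 1

theorem NOin.top (h : NOin (⊤ : Subgroup G)) : NO G := by
  obtain ⟨t, k₁, k₂, col, -, -, -, a, b, c, d, e, f, g, v⟩ := h
  exact ⟨t, k₁, k₂, col, a, b, c, fun x k k' h => d.2 x trivial k trivial k' trivial h,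
    fun k h h' => HTin.top.1 (e k trivial h h'), HTin.top.1 f, HTin.top.1 g, v⟩

theorem NOin.lift {A K : Subgroup G} (hKA : K ≤ A) (hθ : RelIn A K) (hφ : CMin K) (h : NOin K) :
    NOin A := by
  obtain ⟨t, k₁, k₂, colK, ht, h1, h2, a, b, c, d, e, f, g, v1, v2, v3, v4⟩ := h
  obtain ⟨col, p, q, r, s⟩ := dec_lift hKA hθ hφ d
  have hs : ({1, t} : Set G) ⊆ K := by
    rintro x (rfl | rfl)
    · exact K.one_mem
    · exact ht
  refine ⟨t, k₁, k₂, col, hKA ht, hKA h1, hKA h2, a, b, c, p, fun k hk n1 n2 => ?_,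
    r _ h1 _ _ _ hs hs hs f, r _ h2 _ _ _ hs hs hs g, ?_, ?_, ?_, ?_⟩
  · by_cases m : k ∈ K
    · exact r k m _ _ _ (by simp) (by simp) (by simp) (e k m n1 n2)
    · exact q k hk m
  · rw [s _ h1 _ K.one_mem, v1]
  · rw [s _ h1 _ ht, v2]
  · rw [s _ h2 _ K.one_mem, v3]
  · rw [s _ h2 _ ht, v4]

theorem NOin.cm [Finite G] {A : Subgroup G} (h : NOin A) (hc : 2 < Nat.card A) : CMin A := by
  obtain ⟨t, k₁, k₂, col, -, -, -, -, -, -, -, e, -⟩ := h
  by_contra hn
  have : (A : Set G) ⊆ {k₁, k₂} := by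
    intro k hk
    by_contra hh
    simp only [Set.mem_insert_iff, Set.mem_singleton_iff, not_or] at hh
    exact hn ⟨_, e k hk hh.1 hh.2⟩
  have h1 := Set.ncard_le_ncard this
  have h2 : ({k₁, k₂} : Set G).ncard ≤ 2 := Set.ncard_insert_le _ _ |>.trans (by simp)
  have h3 : (A : Set G).ncard = Nat.card A := rfl
  omega

section push
variable {K : Type*} [Group K] (f : K →* G) (hf : Injective f)

/-- Transport of a function along an injective homomorphism. -/
noncomputable def pushF (θ : K → K) : G → G := fun x => f (θ (invFun f x))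

include hf in
theorem pushF_apply (θ : K → K) (x : K) : pushF f θ (f x) = f (θ x) := by
  simp [pushF, leftInverse_invFun hf x]

include hf in
theorem HT.push {R C S : Set K} {θ : K → K} (h : HT R C S θ) :
    HTin f.range (f '' R) (f '' C) (f '' S) (pushF f θ) := by
  have key : ∀ (R : Set K) x, x ∉ f '' R ∪ (f.range : Set G)ᶜ ↔ ∃ a, a ∉ R ∧ f a = x := by
    intro R x
    constructor
    · intro hx
      simp only [Set.mem_union, not_or, Set.mem_compl_iff, not_not] at hx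
      obtain ⟨a, rfl⟩ := hx.2
      exact ⟨a, fun e => hx.1 ⟨a, e, rfl⟩, rfl⟩
    · rintro ⟨a, ha, rfl⟩ (⟨b, hb, e⟩ | e)
      · exact ha (hf e ▸ hb)
      · exact e ⟨a, rfl⟩
  refine ⟨fun x hx => ?_, fun x hx => ?_, fun x hx x' hx' e => ?_, fun x hx x' hx' e => ?_⟩
  · obtain ⟨a, ha, rfl⟩ := (key _ _).1 hx
    exact (key _ _).2 ⟨_, h.col a ha, (pushF_apply f hf θ a).symm⟩
  · obtain ⟨a, ha, rfl⟩ := (key _ _).1 hx
    exact (key _ _).2 ⟨_, h.sym a ha, by rw [pushF_apply f hf, map_mul]⟩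
  · obtain ⟨a, ha, rfl⟩ := (key _ _).1 hx
    obtain ⟨a', ha', rfl⟩ := (key _ _).1 hx'
    rw [pushF_apply f hf, pushF_apply f hf] at e
    rw [h.inj a ha a' ha' (hf e)]
  · obtain ⟨a, ha, rfl⟩ := (key _ _).1 hx
    obtain ⟨a', ha', rfl⟩ := (key _ _).1 hx'
    rw [pushF_apply f hf, pushF_apply f hf, ← map_mul, ← map_mul] at e
    rw [h.injs a ha a' ha' (hf e)]

include hf in
theorem NO.push (h : NO K) : NOin f.range := by
  obtain ⟨t, k₁, k₂, col, a, b, c, d, e, p, q, v1, v2, v3, v4⟩ := h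
  have hi : ∀ k, invFun f (f k) = k := leftInverse_invFun hf
  have im : f '' {1, t} = {1, f t} := by simp [Set.image_insert_eq]
  refine ⟨f t, f k₁, f k₂, fun k => pushF f (col (invFun f k)), ⟨_, rfl⟩, ⟨_, rfl⟩, ⟨_, rfl⟩,
    fun h => a (hf (by rw [h, map_one])), by rw [← map_mul, b, map_one], fun h => c (hf h),
    ⟨?_, ?_⟩, ?_, ?_, ?_, ?_, ?_, ?_, ?_⟩
  · intro k _ x _; exact ⟨_, rfl⟩
  · rintro _ ⟨x, rfl⟩ _ ⟨k, rfl⟩ _ ⟨k', rfl⟩ h
    simp only [hi, pushF_apply f hf] at h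
    rw [d x (hf h)]
  · rintro _ ⟨k, rfl⟩ h1 h2
    have := (e k (fun h => h1 (by rw [h])) (fun h => h2 (by rw [h]))).push f hf
    simpa [hi] using this
  · have := p.push f hf; rw [im] at this; simpa [hi] using this
  · have := q.push f hf; rw [im] at this; simpa [hi] using this
  · simp only [hi]; rw [← map_one f, pushF_apply f hf, v1]
  · simp only [hi]; rw [pushF_apply f hf, v2]
  · simp only [hi]; rw [← map_one f, pushF_apply f hf, v3]
  · simp only [hi]; rw [pushF_apply f hf, v4, map_one]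

end push

theorem NO.toIn {K : Subgroup G} (h : NO K) : NOin K := by
  have := h.push K.subtype K.subtype_injective
  rwa [Subgroup.range_subtype] at this

theorem relIn_of_sub {A K : Subgroup G} (hKA : K ≤ A) {θ : A → A}
    (h : HT (K.subgroupOf A) (K.subgroupOf A) (K.subgroupOf A) θ) : RelIn A K := by
  have := h.push A.subtype A.subtype_injective
  rw [Subgroup.range_subtype] at this
  have e : A.subtype '' (K.subgroupOf A : Set A) = K := by
    ext x; constructor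
    · rintro ⟨a, ha, rfl⟩; exact ha
    · intro hx; exact ⟨⟨x, hKA hx⟩, hx, rfl⟩
  rw [e] at this
  exact ⟨_, this⟩

theorem cmIn_of_sub {A : Subgroup G} {θ : A → A} (h : HT ∅ ∅ ∅ θ) : CMin A := by
  have := h.push A.subtype A.subtype_injective
  rw [Subgroup.range_subtype, Set.image_empty] at this
  exact ⟨_, this⟩

/-- The basic lifting lemma. -/
theorem NO.of_sub [Finite G] {K : Subgroup G} (hθ : RelIn ⊤ K) (hc : 2 < Nat.card K) (h : NO K) :
    NO G :=
  (h.toIn.lift le_top hθ (h.toIn.cm hc)).top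

end Pool.Agent.Work.MP_66fdf3_co
end

-- merged part: Pool.Agent.Work.MP_66fdf3_co.Lift2
section
namespace Pool.Agent.Work.MP_66fdf3_co

open Function

variable {G : Type*} [Group G]

/-- A common left and right transversal. -/
theorem exists_common [Finite G] (S : Subgroup G) : ∃ y : G → G, (∀ g, g⁻¹ * y g ∈ S) ∧
    (∀ g g', g⁻¹ * g' ∈ S → y g = y g') ∧ (∀ g g', y g * (y g')⁻¹ ∈ S → g⁻¹ * g' ∈ S) := by
  classical
  have := Fintype.ofFinite G
  let t : G ⧸ S → Finset (G ⧸ S) := fun L =>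
    (Finset.univ.filter fun y : G => (y : G ⧸ S) = L).image fun y => ((y⁻¹ : G) : G ⧸ S)
  have hall : ∀ s : Finset (G ⧸ S), s.card ≤ (s.biUnion t).card := by
    intro s
    have h1 := QuotientGroup.card_preimage_mk S (s : Set (G ⧸ S))
    have h2 := QuotientGroup.card_preimage_mk S (s.biUnion t : Set (G ⧸ S))
    have h3 : Nat.card (QuotientGroup.mk ⁻¹' (s : Set (G ⧸ S)) : Set G) ≤
        Nat.card (QuotientGroup.mk ⁻¹' (s.biUnion t : Set (G ⧸ S)) : Set G) := by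
      refine Nat.card_le_card_of_injective (fun y => ⟨y.1⁻¹, ?_⟩) ?_
      · have := y.2
        simp only [Set.mem_preimage, Finset.mem_coe, Finset.mem_biUnion] at this ⊢
        exact ⟨_, this, Finset.mem_image.2 ⟨y.1, by simp, rfl⟩⟩
      · intro y y' e
        exact Subtype.ext (inv_injective (congrArg Subtype.val e))
    rw [h1, h2] at h3
    have h4 := Nat.le_of_mul_le_mul_left h3 Nat.card_pos
    simpa only [Finset.coe_sort_coe, Nat.card_eq_fintype_card, Fintype.card_coe] using h4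
  obtain ⟨f, hf, hft⟩ := (Finset.all_card_le_biUnion_card_iff_exists_injective t).1 hall
  have : ∀ L : G ⧸ S, ∃ y : G, (y : G ⧸ S) = L ∧ ((y⁻¹ : G) : G ⧸ S) = f L := by
    intro L
    obtain ⟨y, hy, e⟩ := Finset.mem_image.1 (hft L)
    exact ⟨y, by simpa using hy, e⟩
  choose Y hY1 hY2 using this
  refine ⟨fun g => Y g, fun g => QuotientGroup.eq.1 (hY1 g).symm, fun g g' h => ?_,
    fun g g' h => ?_⟩
  · simp only [QuotientGroup.eq.2 h]
  · apply QuotientGroup.eq.1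
    apply hf
    rw [← hY2, ← hY2]
    exact QuotientGroup.eq.2 (by simpa using h)

/-- Hall-Paige systems. -/
theorem hp_system [Finite G] {S K : Subgroup G} (hSK : S ≤ K) (hφ : CMin S) {J : Type*}
    (X W : J → G) (hX : ∀ g, ∃ j, (X j)⁻¹ * g ∈ S)
    (hW : ∀ j j', (W j)⁻¹ * W j' ∈ S → j = j')
    (hZ : ∀ j j', (X j * W j)⁻¹ * (X j' * W j') ∈ S → j = j')
    (hK : ∀ j, X j ∉ K → W j ∉ K ∧ X j * W j ∉ K) : RelIn ⊤ K := by
  obtain ⟨φ, hφ⟩ := hφ
  obtain ⟨y, y1, y2, y3⟩ := exists_common S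
  choose j hj using hX
  let h : G → G := fun g => (X (j g))⁻¹ * g
  let m : G → G := fun g => h g * φ (h g)
  have hφS : ∀ g, φ (h g) ∈ S := fun g => hφ.mem (hj g) (by simp)
  have hm : ∀ g, m g ∈ S := fun g => S.mul_mem (hj g) (hφS g)
  have hg : ∀ g, g = X (j g) * h g := fun g => by simp [h]
  have hXK : ∀ g, g ∉ K → X (j g) ∉ K := fun g a b =>
    a (by rw [hg g]; exact K.mul_mem b (hSK (hj g)))
  have nS : ∀ g, h g ∉ (∅ ∪ (S : Set G)ᶜ) := fun g => by simpa using hj g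
  refine ⟨fun g => φ (h g) * y ((m g)⁻¹ * W (j g)), HTin.top.2 ⟨?_, ?_, ?_, ?_⟩⟩
  · intro g a b
    apply (hK _ (hXK g a)).1
    have c := hSK (y1 ((m g)⁻¹ * W (j g)))
    have b : y ((m g)⁻¹ * W (j g)) ∈ K := (K.mul_mem_cancel_left (hSK (hφS g))).1 b
    have d := K.inv_mem ((K.mul_mem_cancel_right b).1 c)
    rw [inv_inv] at d
    exact (K.mul_mem_cancel_left (K.inv_mem (hSK (hm g)))).1 d
  · intro g a b
    apply (hK _ (hXK g a)).2
    have c := hSK (y1 ((m g)⁻¹ * W (j g)))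
    have e : g * (φ (h g) * y ((m g)⁻¹ * W (j g))) =
        X (j g) * W (j g) * (((m g)⁻¹ * W (j g))⁻¹ * y ((m g)⁻¹ * W (j g))) := by
      simp [m, h, mul_assoc]
    have b : g * (φ (h g) * y ((m g)⁻¹ * W (j g))) ∈ K := b
    rw [e] at b
    exact (K.mul_mem_cancel_right c).1 b
  · intro g _ g' _ e
    have e1 : y ((m g)⁻¹ * W (j g)) = y ((m g')⁻¹ * W (j g')) := by
      apply y2; apply y3
      have : y ((m g)⁻¹ * W (j g)) * (y ((m g')⁻¹ * W (j g')))⁻¹ = (φ (h g))⁻¹ * φ (h g') := by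
        rw [mul_inv_eq_iff_eq_mul, mul_assoc, ← e]; simp
      rw [this]; exact S.mul_mem (S.inv_mem (hφS g)) (hφS g')
    rw [e1] at e
    have e2 : h g = h g' := hφ.inj _ (nS g) _ (nS g') (mul_right_cancel e)
    have e3 : m g = m g' := by simp only [m, e2]
    have e4 : j g = j g' := by
      apply hW
      have := y3 _ _ (by rw [e1]; simp [S.one_mem] :
        y ((m g)⁻¹ * W (j g)) * (y ((m g')⁻¹ * W (j g')))⁻¹ ∈ S)
      rw [e3] at this
      simpa [mul_assoc] using this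
    rw [hg g, hg g', e2, e4]
  · intro g _ g' _ e
    have e0 : ∀ g, g * (φ (h g) * y ((m g)⁻¹ * W (j g))) =
        X (j g) * W (j g) * (((m g)⁻¹ * W (j g))⁻¹ * y ((m g)⁻¹ * W (j g))) := by
      intro g; simp [m, h, mul_assoc]
    have e4 : j g = j g' := by
      apply hZ
      rw [e0, e0] at e
      have : (X (j g) * W (j g))⁻¹ * (X (j g') * W (j g')) =
          (((m g)⁻¹ * W (j g))⁻¹ * y ((m g)⁻¹ * W (j g))) *
          (((m g')⁻¹ * W (j g'))⁻¹ * y ((m g')⁻¹ * W (j g')))⁻¹ := by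
        rw [inv_mul_eq_iff_eq_mul, ← mul_assoc, e]; simp [mul_assoc]
      rw [this]; exact S.mul_mem (y1 _) (S.inv_mem (y1 _))
    have e5 : m g * y ((m g)⁻¹ * W (j g)) = m g' * y ((m g')⁻¹ * W (j g')) := by
      apply mul_left_cancel (a := X (j g))
      have a : ∀ g, X (j g) * (m g * y ((m g)⁻¹ * W (j g))) =
          g * (φ (h g) * y ((m g)⁻¹ * W (j g))) := by intro g; simp [m, h, mul_assoc]
      rw [a, e, ← a, e4]
    have e1 : y ((m g)⁻¹ * W (j g)) = y ((m g')⁻¹ * W (j g')) := by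
      apply y2; apply y3
      have : y ((m g)⁻¹ * W (j g)) * (y ((m g')⁻¹ * W (j g')))⁻¹ = (m g)⁻¹ * m g' := by
        rw [mul_inv_eq_iff_eq_mul, mul_assoc, ← e5]; simp
      rw [this]; exact S.mul_mem (S.inv_mem (hm g)) (hm g')
    rw [e1] at e5
    have e2 : h g = h g' := hφ.injs _ (nS g) _ (nS g') (mul_right_cancel e5)
    rw [hg g, hg g', e2, e4]

/-- Holey split 2-plex. -/
structure HP2 (R C S : Set G) (φ : ZMod 2 → G → G) (σ : ZMod 2 → G → ZMod 2) : Prop where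
  col : ∀ i x, x ∉ R → φ i x ∉ C
  sym : ∀ i x, x ∉ R → x * φ i x ∉ S
  inj : ∀ i x, x ∉ R → ∀ x', x' ∉ R → φ i x = φ i x' → x = x'
  injs : ∀ i x, x ∉ R → ∀ i' x', x' ∉ R → x * φ i x = x' * φ i' x' → σ i x = σ i' x' →
    i = i' ∧ x = x'

theorem HT.double {R C S : Set G} {θ : G → G} (h : HT R C S θ) :
    HP2 R C S (fun _ => θ) (fun i _ => i) :=
  ⟨fun _ => h.col, fun _ => h.sym, fun _ => h.inj,
    fun _ x hx _ x' hx' e e' => ⟨e', h.injs x hx x' hx' e⟩⟩

section lift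
variable {Q : Type*} [Group Q] (f : G →* Q) (hf : Surjective f)

include hf in
theorem HP2.lift {R C S : Set Q} {φ : ZMod 2 → Q → Q} {σ : ZMod 2 → Q → ZMod 2}
    (h : HP2 R C S φ σ) {ψ : ZMod 2 → G → G} {τ : ZMod 2 → G → ZMod 2}
    (hN : HP2 (f.ker : Set G)ᶜ (f.ker : Set G)ᶜ (f.ker : Set G)ᶜ ψ τ) :
    ∃ φ' σ', HP2 (f ⁻¹' R) (f ⁻¹' C) (f ⁻¹' S) φ' σ' := by
  obtain ⟨s, hs⟩ := hf.hasRightInverse
  have hs : ∀ q, f (s q) = q := hs
  let sb : ZMod 2 → G → Q := fun i x => f x * φ i (f x)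
  let a : ZMod 2 → G → G := fun i x => (s (sb i x))⁻¹ * x * (s (f x))⁻¹ * s (sb i x)
  let u : ZMod 2 → G → G := fun i x => (s (f x))⁻¹ * s (sb i x)
  have ha : ∀ i x, a i x ∉ (f.ker : Set G)ᶜ := by
    intro i x; simp [a, MonoidHom.mem_ker, hs]
  have hψ : ∀ j i x, f (ψ j (a i x)) = 1 := by
    intro j i x; simpa using hN.col j _ (ha i x)
  have hy : ∀ i x, f (u i x * ψ (σ i (f x)) (a i x)) = φ i (f x) := by
    intro i x; rw [map_mul, hψ]; simp [u, hs, sb]
  have hxy : ∀ i x, x * (u i x * ψ (σ i (f x)) (a i x)) =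
      s (sb i x) * (a i x * ψ (σ i (f x)) (a i x)) := by
    intro i x; simp [a, u, mul_assoc]
  have hax : ∀ i x x', f x = f x' → a i x = a i x' → x = x' := by
    intro i x x' e e'
    simp only [a, sb, e] at e'
    exact mul_left_cancel (mul_right_cancel (mul_right_cancel e'))
  refine ⟨fun i x => u i x * ψ (σ i (f x)) (a i x), fun i x => τ (σ i (f x)) (a i x),
    fun i x hx => ?_, fun i x hx => ?_, fun i x hx x' hx' e => ?_,
    fun i x hx i' x' hx' e e' => ?_⟩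
  · rw [Set.mem_preimage, hy]; exact h.col i _ hx
  · rw [Set.mem_preimage, map_mul, hy]; exact h.sym i _ hx
  · have e1 : f x = f x' := h.inj i _ hx _ hx' ((hy _ _).symm.trans ((congrArg f e).trans (hy _ _)))
    have e2 : u i x = u i x' := by simp only [u, sb, e1]
    rw [e2, e1] at e
    exact hax i x x' e1 (hN.inj _ _ (ha i x) _ (ha i x') (mul_left_cancel e))
  · have e1 : sb i x = sb i' x' := by
      have := congrArg f e
      rwa [map_mul f x, map_mul f x', hy, hy] at this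
    rw [hxy, hxy, e1] at e
    obtain ⟨e2, e3⟩ := hN.injs _ _ (ha i x) _ _ (ha i' x') (mul_left_cancel e) e'
    obtain ⟨e4, e5⟩ := h.injs _ _ hx _ _ hx' e1 e2
    subst e4
    exact ⟨rfl, hax i x x' e5 e3⟩

include hf in
theorem HT.lift {R C S : Set Q} {θ : Q → Q} (h : HT R C S θ) (hN : CMin f.ker) :
    ∃ θ', HT (f ⁻¹' R) (f ⁻¹' C) (f ⁻¹' S) θ' := by
  obtain ⟨ψ, hN⟩ := hN
  obtain ⟨s, hs⟩ := hf.hasRightInverse
  have hs : ∀ q, f (s q) = q := hs
  let a : G → G := fun x => (s (f x))⁻¹ * x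
  have ha : ∀ x, a x ∉ ∅ ∪ (f.ker : Set G)ᶜ := by
    intro x; simp [a, MonoidHom.mem_ker, hs]
  have hψ : ∀ x, f (ψ (a x)) = 1 := by
    intro x; simpa using hN.col _ (ha x)
  have hy : ∀ x, f (ψ (a x) * s (θ (f x))) = θ (f x) := by
    intro x; rw [map_mul, hψ, hs, one_mul]
  have hax : ∀ x x', f x = f x' → a x = a x' → x = x' := by
    intro x x' e e'
    simp only [a, e] at e'
    exact mul_left_cancel e'
  refine ⟨fun x => ψ (a x) * s (θ (f x)), fun x hx => ?_, fun x hx => ?_,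
    fun x hx x' hx' e => ?_, fun x hx x' hx' e => ?_⟩
  · rw [Set.mem_preimage, hy]; exact h.col _ hx
  · rw [Set.mem_preimage, map_mul, hy]; exact h.sym _ hx
  · have e1 : f x = f x' := h.inj _ hx _ hx' ((hy _).symm.trans ((congrArg f e).trans (hy _)))
    rw [e1] at e
    exact hax x x' e1 (hN.inj _ (ha x) _ (ha x') (mul_right_cancel e))
  · have e1 : f x = f x' := h.injs _ hx _ hx' (by
      have := congrArg f e
      rwa [map_mul f x, map_mul f x', hy, hy] at this)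
    refine hax x x' e1 (hN.injs _ (ha x) _ (ha x') ?_)
    rw [e1, ← mul_assoc, ← mul_assoc] at e
    have e := mul_right_cancel e
    simp only [a, e1, mul_assoc] at e ⊢
    rw [e]

end lift

theorem HP2.toSub {A : Subgroup G} {ψ : ZMod 2 → A → A} {τ : ZMod 2 → A → ZMod 2}
    (h : HP2 ∅ ∅ ∅ ψ τ) : ∃ ψ' τ', HP2 (A : Set G)ᶜ (A : Set G)ᶜ (A : Set G)ᶜ ψ' τ' := by
  classical
  refine ⟨fun i x => if hx : x ∈ A then ψ i ⟨x, hx⟩ else 1,
    fun i x => if hx : x ∈ A then τ i ⟨x, hx⟩ else 0, fun i x hx => ?_, fun i x hx => ?_,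
    fun i x hx x' hx' e => ?_, fun i x hx i' x' hx' e e' => ?_⟩
  all_goals simp only [Set.mem_compl_iff, not_not, SetLike.mem_coe] at *
  · simp [hx]
  · simp [hx, A.mul_mem]
  · simp only [hx, hx', dif_pos] at e
    exact congrArg Subtype.val (h.inj i _ (by simp) _ (by simp) (Subtype.ext e))
  · simp only [hx, hx', dif_pos] at e e'
    obtain ⟨a, b⟩ := h.injs i ⟨x, hx⟩ (by simp) i' ⟨x', hx'⟩ (by simp) (Subtype.ext e) e'
    exact ⟨a, congrArg Subtype.val b⟩

theorem exists_central_inv [Finite G] (hG : IsPGroup 2 G) [Nontrivial G] :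
    ∃ c : G, c ≠ 1 ∧ c * c = 1 ∧ ∀ g, g * c = c * g := by
  have := hG.center_nontrivial
  obtain ⟨n, hn, e⟩ := ((hG.to_subgroup (Subgroup.center G)).nontrivial_iff_card).1 this
  obtain ⟨c, hc⟩ := exists_prime_orderOf_dvd_card' (G := Subgroup.center G) 2
    (by rw [e]; exact dvd_pow_self 2 hn.ne')
  refine ⟨c, ?_, ?_, fun g => Subgroup.mem_center_iff.1 c.2 g⟩
  · intro h
    have : c = 1 := Subtype.ext h
    rw [this, orderOf_one] at hc; omega
  · have := pow_orderOf_eq_one c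
    rw [hc, sq] at this
    exact congrArg Subtype.val this

universe u in
theorem twoplex (n : ℕ) : ∀ (G : Type u) [Group G] [Finite G], Nat.card G = n → IsPGroup 2 G →
    ∃ ψ τ, HP2 (G := G) ∅ ∅ ∅ ψ τ := by
  induction n using Nat.strong_induction_on with
  | _ n ih =>
  intro G _ _ hn hG
  classical
  rcases subsingleton_or_nontrivial G with h | h
  · exact ⟨fun _ x => x, fun i _ => i, by simp, by simp, fun _ _ _ _ _ e => e,
      fun _ _ _ _ _ _ _ e => ⟨e, Subsingleton.elim _ _⟩⟩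
  obtain ⟨c, c1, c2, c3⟩ := exists_central_inv hG
  let N : Subgroup G :=
    { carrier := {x | x = 1 ∨ x = c}
      mul_mem' := by rintro a b (rfl | rfl) (rfl | h) <;> simp_all
      one_mem' := Or.inl rfl
      inv_mem' := by
        rintro a (rfl | rfl)
        · simp
        · exact Or.inr (inv_eq_of_mul_eq_one_right c2) }
  have hN : N.Normal := ⟨by
    rintro a (rfl | rfl) g
    · simp [N]
    · exact Or.inr (by rw [c3]; simp)⟩
  have hlt : Nat.card (G ⧸ N) < n := by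
    rw [← hn, Subgroup.card_eq_card_quotient_mul_card_subgroup N]
    have : 1 < Nat.card N := by
      rw [Finite.one_lt_card_iff_nontrivial]
      exact ⟨⟨⟨c, Or.inr rfl⟩, 1, fun e => c1 (congrArg Subtype.val e)⟩⟩
    exact lt_mul_of_one_lt_right Nat.card_pos this
  obtain ⟨φ, σ, h⟩ := ih _ hlt (G ⧸ N) rfl (hG.to_quotient N)
  have h2 : ∀ i : ZMod 2, i = 0 ∨ i = 1 := by decide
  have := h.lift (QuotientGroup.mk' N) (QuotientGroup.mk'_surjective N)
    (ψ := fun i x => if i = 0 then x else x * c) (τ := fun _ x => if x = 1 then 0 else 1) (by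
      rw [QuotientGroup.ker_mk']
      have mem : ∀ x, x ∉ (N : Set G)ᶜ ↔ x = 1 ∨ x = c := fun x => by
        rw [Set.mem_compl_iff, not_not]; rfl
      refine ⟨fun i x hx => ?_, fun i x hx => ?_, fun i x hx x' hx' e => ?_,
        fun i x hx i' x' hx' e e' => ?_⟩
      · rw [mem] at hx ⊢; rcases h2 i with rfl | rfl <;> rcases hx with rfl | rfl <;> simp [c2]
      · rw [mem] at hx ⊢; rcases h2 i with rfl | rfl <;> rcases hx with rfl | rfl <;> simp [c2]
      · rcases h2 i with rfl | rfl <;> simpa using e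
      · rw [mem] at hx hx'
        have c1' : (1 : G) ≠ c := c1.symm
        rcases h2 i with rfl | rfl <;> rcases h2 i' with rfl | rfl <;>
          rcases hx with rfl | rfl <;> rcases hx' with rfl | hx' <;> simp_all)
  simpa using this

/-- A normal four-group with a central involution. -/
structure NV4 (z v : G) : Prop where
  z1 : z ≠ 1
  z2 : z * z = 1
  zc : ∀ g, g * z = z * g
  v2 : v * v = 1
  v1 : v ≠ 1
  vz : v ≠ z
  conj : ∀ g, g * v * g⁻¹ = v ∨ g * v * g⁻¹ = v * z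

/-- The parametrisation of the four-group. -/
def e4 (z v : G) (p : ZMod 2 × ZMod 2) : G := z ^ p.1.val * v ^ p.2.val

theorem NV4.e4_add {z v : G} (h : NV4 z v) (p q : ZMod 2 × ZMod 2) :
    e4 z v (p + q) = e4 z v p * e4 z v q := by
  have h2 : ∀ i : ZMod 2, i = 0 ∨ i = 1 := by decide
  have a : (1 + 1 : ZMod 2) = 0 := rfl
  have b : (1 : ZMod 2).val = 1 := rfl
  have c1 : ∀ x, z * (z * x) = x := fun x => by rw [← mul_assoc, h.z2, one_mul]
  have c2 : ∀ x, v * (z * x) = z * (v * x) := fun x => by rw [← mul_assoc, h.zc, mul_assoc]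
  obtain ⟨p1, p2⟩ := p
  obtain ⟨q1, q2⟩ := q
  rcases h2 p1 with rfl | rfl <;> rcases h2 p2 with rfl | rfl <;> rcases h2 q1 with rfl | rfl <;>
    rcases h2 q2 with rfl | rfl <;>
    simp [e4, a, b, h.z2, h.v2, h.zc v, mul_assoc, c1, c2]

theorem NV4.e4_inj {z v : G} (h : NV4 z v) : Injective (e4 z v) := by
  have h2 : ∀ i : ZMod 2, i = 0 ∨ i = 1 := by decide
  have b : (1 : ZMod 2).val = 1 := rfl
  have key : ∀ p, e4 z v p = 1 → p = 0 := by
    rintro ⟨p1, p2⟩ e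
    rcases h2 p1 with rfl | rfl <;> rcases h2 p2 with rfl | rfl
    · rfl
    · simp [e4, b, h.v1] at e
    · simp [e4, b, h.z1] at e
    · simp only [e4, b, pow_one] at e
      exact absurd (mul_left_cancel (e.trans h.z2.symm)) h.vz
  intro p q e
  have := h.e4_add (p - q) q
  rw [sub_add_cancel, e] at this
  exact sub_eq_zero.1 (key _ (by simpa using this.symm))

theorem NV4.e4_conj {z v : G} (h : NV4 z v) (g : G) : ∃ ε : ZMod 2, ∀ p : ZMod 2 × ZMod 2,
    g * e4 z v p = e4 z v (p.1 + ε * p.2, p.2) * g := by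
  have h2 : ∀ i : ZMod 2, i = 0 ∨ i = 1 := by decide
  have a : (1 + 1 : ZMod 2) = 0 := rfl
  have b : (1 : ZMod 2).val = 1 := rfl
  rcases h.conj g with e | e
  · refine ⟨0, ?_⟩
    have e : g * v = v * g := mul_inv_eq_iff_eq_mul.1 e
    rintro ⟨p1, p2⟩
    rcases h2 p1 with rfl | rfl <;> rcases h2 p2 with rfl | rfl <;>
      simp [e4, b, h.zc g, e, ← mul_assoc]
    rw [mul_assoc, e, mul_assoc]
  · refine ⟨1, ?_⟩
    have e : g * v = z * v * g := by rw [← h.zc v, ← e]; simp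
    rintro ⟨p1, p2⟩
    rcases h2 p1 with rfl | rfl <;> rcases h2 p2 with rfl | rfl <;>
      simp [e4, a, b, h.zc g, e, ← mul_assoc]
    rw [mul_assoc, e, ← mul_assoc, ← mul_assoc, h.z2, one_mul]

/-- The four-group as a subgroup. -/
def NV4.V {z v : G} (h : NV4 z v) : Subgroup G where
  carrier := Set.range (e4 z v)
  mul_mem' := by rintro _ _ ⟨p, rfl⟩ ⟨q, rfl⟩; exact ⟨p + q, h.e4_add p q⟩
  one_mem' := ⟨0, by simp [e4]⟩
  inv_mem' := by
    rintro _ ⟨p, rfl⟩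
    refine ⟨-p, (inv_eq_of_mul_eq_one_right ?_).symm⟩
    rw [← h.e4_add]; simp [e4]

theorem NV4.mem_V {z v : G} (h : NV4 z v) (x : G) :
    x ∈ h.V ↔ x = 1 ∨ x = z ∨ x = v ∨ x = v * z := by
  have h2 : ∀ i : ZMod 2, i = 0 ∨ i = 1 := by decide
  have b : (1 : ZMod 2).val = 1 := rfl
  constructor
  · rintro ⟨⟨p1, p2⟩, rfl⟩
    rcases h2 p1 with rfl | rfl <;> rcases h2 p2 with rfl | rfl <;> simp [e4, b, h.zc v]
  · rintro (rfl | rfl | rfl | rfl)
    · exact ⟨(0, 0), by simp [e4]⟩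
    · exact ⟨(1, 0), by simp [e4, b]⟩
    · exact ⟨(0, 1), by simp [e4, b]⟩
    · exact ⟨(1, 1), by simp [e4, b, h.zc v]⟩

instance NV4.normal {z v : G} (h : NV4 z v) : h.V.Normal := ⟨by
  rintro _ ⟨p, rfl⟩ g
  obtain ⟨ε, e⟩ := h.e4_conj g
  exact ⟨(p.1 + ε * p.2, p.2), by rw [e]; simp⟩⟩

theorem NV4.lift {z v : G} (h : NV4 z v) {Q : Type*} [Group Q] (f : G →* Q) (hf : Surjective f)
    (hk : f.ker = h.V) {R C S : Set Q} {φ : ZMod 2 → Q → Q} {σ : ZMod 2 → Q → ZMod 2}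
    (hP : HP2 R C S φ σ) : ∃ θ, HT (f ⁻¹' R) (f ⁻¹' C) (f ⁻¹' S) θ := by
  obtain ⟨s, hs⟩ := hf.hasRightInverse
  have hs : ∀ q, f (s q) = q := hs
  have hker : ∀ x, f x = 1 → ∃ p, e4 z v p = x := fun x hx => by
    have : x ∈ h.V := hk ▸ hx
    exact this
  have hfe : ∀ p, f (e4 z v p) = 1 := fun p => by
    have : e4 z v p ∈ f.ker := hk ▸ ⟨p, rfl⟩
    exact this
  have ha : ∀ x, ∃ p, x = s (f x) * e4 z v p := fun x => by
    obtain ⟨p, e⟩ := hker ((s (f x))⁻¹ * x) (by simp [hs])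
    exact ⟨p, by rw [e]; simp⟩
  choose a ha using ha
  have hw : ∀ q r, ∃ p, s q * s r = e4 z v p * s (q * r) := fun q r => by
    obtain ⟨p, e⟩ := hker (s q * s r * (s (q * r))⁻¹) (by simp [hs])
    exact ⟨p, by rw [e]; simp⟩
  choose w hw using hw
  choose ε hε using h.e4_conj
  let y : G → Q := fun x => φ (a x).1 (f x)
  let b2 : G → ZMod 2 := fun x => σ (a x).1 (f x) + (a x).2 + (w (f x) (y x)).2
  let b : G → ZMod 2 × ZMod 2 := fun x => ((a x).1 + b2 x, b2 x)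
  have hy : ∀ x, f (e4 z v (b x) * s (y x)) = y x := fun x => by rw [map_mul, hfe, hs, one_mul]
  have hxy : ∀ x, x * (e4 z v (b x) * s (y x)) =
      e4 z v (((a x + b x).1 + ε (s (f x)) * (a x + b x).2, (a x + b x).2) + w (f x) (y x)) *
        s (f x * y x) := by
    intro x
    rw [h.e4_add, mul_assoc, ← hw, ← mul_assoc (e4 z v _), ← hε, h.e4_add]
    nth_rewrite 1 [ha x]
    simp only [mul_assoc]
  refine ⟨fun x => e4 z v (b x) * s (y x), fun x hx => ?_, fun x hx => ?_,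
    fun x hx x' hx' e => ?_, fun x hx x' hx' e => ?_⟩
  · rw [Set.mem_preimage, hy]; exact hP.col _ _ hx
  · rw [Set.mem_preimage, map_mul, hy]; exact hP.sym _ _ hx
  · have e1 : y x = y x' := (hy _).symm.trans ((congrArg f e).trans (hy _))
    rw [e1] at e
    have e2 := h.e4_inj (mul_right_cancel e)
    have e3 : b2 x = b2 x' := congrArg Prod.snd e2
    have e4' : (a x).1 = (a x').1 := by
      have := congrArg Prod.fst e2
      simp only [b, e3] at this
      exact add_right_cancel this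
    have e5 : f x = f x' := hP.inj (a x).1 _ hx _ hx' (by simpa only [y, e4'] using e1)
    have e6 : (a x).2 = (a x').2 := by
      simp only [b2, e1, e4', e5] at e3
      exact add_left_cancel (add_right_cancel e3)
    rw [ha x, ha x', e5, Prod.ext e4' e6]
  · have e1 : f x * y x = f x' * y x' := by
      have := congrArg f e
      rwa [map_mul f x, map_mul f x', hy, hy] at this
    rw [hxy, hxy, e1] at e
    have e2 := h.e4_inj (mul_right_cancel e)
    have h0 : ∀ i j k : ZMod 2, i + (j + i + k) + k = j := by decide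
    have e3 : σ (a x).1 (f x) = σ (a x').1 (f x') := by
      have := congrArg Prod.snd e2
      simpa only [Prod.snd_add, b, b2, h0] using this
    obtain ⟨e4', e5⟩ := hP.injs _ _ hx _ _ hx' e1 e3
    have e6 : y x = y x' := by simp only [y, e4', e5]
    rw [e5, e6] at e2
    have e7 := add_right_cancel e2
    have e8 : (a x + b x).2 = (a x' + b x').2 := (Prod.mk.inj e7).2
    have e9 : (a x + b x).1 = (a x' + b x').1 := by
      have := (Prod.mk.inj e7).1
      simp only [e8] at this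
      exact add_right_cancel this
    simp only [Prod.fst_add, Prod.snd_add, b, e4'] at e8 e9
    have e10 : b2 x = b2 x' := add_left_cancel (add_left_cancel e9)
    rw [e10] at e8
    rw [ha x, ha x', e5, Prod.ext e4' (add_right_cancel e8)]

/-- Lifting a holey 2-plex through a 2-group containing a normal four-group. -/
theorem NV4.lift' [Finite G] {z v : G} (h : NV4 z v) {Q : Type*} [Group Q] (f : G →* Q)
    (hf : Surjective f) (hk : h.V ≤ f.ker) (h2 : IsPGroup 2 f.ker) {R C S : Set Q}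
    {φ : ZMod 2 → Q → Q} {σ : ZMod 2 → Q → ZMod 2} (hP : HP2 R C S φ σ) :
    ∃ θ, HT (f ⁻¹' R) (f ⁻¹' C) (f ⁻¹' S) θ := by
  let f' : G ⧸ h.V →* Q := QuotientGroup.lift h.V f hk
  have hf' : Surjective f' := fun q => by
    obtain ⟨x, rfl⟩ := hf q
    exact ⟨x, rfl⟩
  have h2' : IsPGroup 2 f'.ker := by
    rw [QuotientGroup.ker_lift]
    exact h2.map _
  obtain ⟨ψ, τ, hN⟩ := twoplex _ f'.ker rfl h2'
  obtain ⟨ψ, τ, hN⟩ := hN.toSub
  obtain ⟨φ', σ', h'⟩ := hP.lift f' hf' hN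
  exact h.lift (QuotientGroup.mk' h.V) (QuotientGroup.mk'_surjective _)
    (QuotientGroup.ker_mk' _) h'

theorem NV4.cm [Finite G] {z v : G} (h : NV4 z v) (hG : IsPGroup 2 G) :
    ∃ θ : G → G, HT ∅ ∅ ∅ θ := by
  obtain ⟨ψ, τ, hN⟩ := twoplex _ (G ⧸ h.V) rfl (hG.to_quotient _)
  simpa using h.lift (QuotientGroup.mk' h.V) (QuotientGroup.mk'_surjective _)
    (QuotientGroup.ker_mk' _) hN

end Pool.Agent.Work.MP_66fdf3_co
end

-- merged part: Pool.Agent.Work.MP_66fdf3_co.RC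
section
namespace Pool.Agent.Work.MP_66fdf3_co

open Function

variable {G : Type*} [Group G]

/-- A closed configuration of cosets of a normal subgroup. -/
structure Config (N : Subgroup G) {P : Type*} (r c : P → G) (nx : P → P) (p₀ : P) : Prop where
  nxi : Injective nx
  nxne : ∀ p, nx p ≠ p
  r0 : r p₀ = 1
  c0 : c p₀ = 1
  hr : ∀ p q, (r p)⁻¹ * r q ∈ N → p = q
  hc : ∀ p q, (c p)⁻¹ * c q ∈ N → p = q
  hs1 : ∀ p q, (r p * c p)⁻¹ * (r q * c q) ∈ N → p = q
  hs2 : ∀ p q, (r p * c (nx p))⁻¹ * (r q * c (nx q)) ∈ N → p = q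
  hs3 : ∀ p, ∃ q, (r q * c q)⁻¹ * (r p * c (nx p)) ∈ N

/-- Union of the cosets of the elements `r p`. -/
def cos (N : Subgroup G) {P : Type*} (r : P → G) : Set G := {x | ∃ p, (r p)⁻¹ * x ∈ N}

/-- Local holey transversal condition in coordinates. -/
structure Loc (N : Subgroup G) {P : Type*} (r : P → G) (H : Set G) (Y : P → G → G) : Prop where
  col : ∀ p, ∀ a ∈ N, r p * a ∉ H → Y p a ∉ H
  sym : ∀ p, ∀ a ∈ N, r p * a ∉ H → r p * a * Y p a ∉ H
  inj : ∀ p, ∀ a ∈ N, r p * a ∉ H → ∀ p', ∀ a' ∈ N, r p' * a' ∉ H → Y p a = Y p' a' →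
    p = p' ∧ a = a'
  injs : ∀ p, ∀ a ∈ N, r p * a ∉ H → ∀ p', ∀ a' ∈ N, r p' * a' ∉ H →
    r p * a * Y p a = r p' * a' * Y p' a' → p = p' ∧ a = a'

theorem region (N : Subgroup G) [hN : N.Normal] {P : Type*} {r c : P → G} {nx : P → P} {p₀ : P}
    (K : Config N r c nx p₀) {θ : G → G}
    (hθ : HT (cos N r) (cos N c) (cos N fun p => r p * c p) θ) (hφ : CMin N)
    (Tp : G → Prop) (pt : P → G → G → G) (sj : G → P → G → Bool) (sb : G → P → G → G)
    (hpt : ∀ p, ∀ κ ∈ N, HTin N ∅ ∅ ∅ (pt p κ))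
    (hsb : ∀ κ ∈ N, ∀ p, ∀ a ∈ N, sb κ p a ∈ N)
    (r1 : ∀ p, ∀ a ∈ N, ∀ κ ∈ N, ∀ κ' ∈ N, sj κ p a = sj κ' p a → sb κ p a = sb κ' p a → κ = κ')
    (r2 : ∀ p, ∀ a ∈ N, ∀ κ ∈ N, ∀ κ' ∈ N, (Tp κ ↔ Tp κ') → pt p κ a = pt p κ' a → κ = κ')
    (r3 : ∀ p, ∀ a ∈ N, ∀ κ ∈ N, ∀ κ' ∈ N, (sj κ p a = true ↔ ¬Tp κ') → sb κ p a ≠ pt p κ' a)
    (Y : G → P → G → G) (hY : ∀ κ p a, Y κ p a = sb κ p a * c (if sj κ p a then nx p else p))
    (t k₁ k₂ : G) (ht : t ∈ N) (hk₁ : k₁ ∈ N) (hk₂ : k₂ ∈ N) (t1 : t ≠ 1) (t2 : t * t = 1)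
    (hk : k₁ ≠ k₂) (l0 : ∀ κ ∈ N, κ ≠ k₁ → κ ≠ k₂ → Loc N r ∅ (Y κ))
    (l1 : Loc N r {1, t} (Y k₁)) (l2 : Loc N r {1, t} (Y k₂))
    (v1 : Y k₁ p₀ 1 = 1) (v2 : Y k₁ p₀ t = t) (v3 : Y k₂ p₀ 1 = t) (v4 : Y k₂ p₀ t = 1) :
    NO G := by
  classical
  obtain ⟨φ, hφ⟩ := hφ
  let π : G →* G ⧸ N := QuotientGroup.mk' N
  have hπ : ∀ x y : G, x⁻¹ * y ∈ N ↔ π x = π y := fun x y => QuotientGroup.eq.symm
  have hπ1 : ∀ x : G, x ∈ N ↔ π x = 1 := fun x => (QuotientGroup.eq_one_iff x).symm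
  -- the section
  obtain ⟨s, hs, hsr⟩ : ∃ s : G ⧸ N → G, (∀ q, π (s q) = q) ∧ ∀ p, s (π (r p)) = r p := by
    refine ⟨fun q => if h : ∃ p, π (r p) = q then r h.choose else q.out, fun q => ?_, fun p => ?_⟩
    · by_cases h : ∃ p, π (r p) = q
      · simp only [h, dif_pos]; exact h.choose_spec
      · simp only [h, dif_neg, not_false_iff]; exact q.out_eq
    · have h : ∃ p', π (r p') = π (r p) := ⟨p, rfl⟩
      simp only [h, dif_pos]
      rw [K.hr _ _ ((hπ _ _).2 h.choose_spec)]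
  let a : G → G := fun x => (s (π x))⁻¹ * x
  have haN : ∀ x, a x ∈ N := fun x => (hπ _ _).2 (hs _)
  have hax : ∀ x, x = s (π x) * a x := fun x => by simp [a]
  have hs1 : s 1 = 1 := by have := hsr p₀; rwa [K.r0, map_one] at this
  have haN' : ∀ g ∈ N, a g = g := fun g hg => by simp [a, (hπ1 g).1 hg, hs1]
  have hR : ∀ x, x ∈ cos N r ↔ ∃ p, π (r p) = π x := fun x => exists_congr fun p => hπ _ _
  let ix : G → P := fun x => if h : ∃ p, π (r p) = π x then h.choose else p₀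
  have hix : ∀ x, x ∈ cos N r → π (r (ix x)) = π x := fun x hx => by
    have h := (hR x).1 hx
    simp only [ix, h, dif_pos]; exact h.choose_spec
  have hru : ∀ p q, π (r p) = π (r q) → p = q := fun p q h => K.hr _ _ ((hπ _ _).2 h)
  have hcu : ∀ p q, π (c p) = π (c q) → p = q := fun p q h => K.hc _ _ ((hπ _ _).2 h)
  let Φ : G ⧸ N → P → G → G → G := fun q j κ b =>
    if h : ∃ p, π (r p) = q ∧ (j = p ∨ j = nx p) then pt h.choose κ b else φ (κ⁻¹ * b)
  have hΦ : ∀ q j, ∀ κ ∈ N, HTin N ∅ ∅ ∅ (Φ q j κ) := by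
    intro q j κ hκ
    by_cases h : ∃ p, π (r p) = q ∧ (j = p ∨ j = nx p)
    · have : Φ q j κ = pt h.choose κ := by funext b; simp only [Φ, h, dif_pos]
      rw [this]; exact hpt _ _ hκ
    · have : Φ q j κ = fun b => φ (κ⁻¹ * b) * 1 := by
        funext b; simp only [Φ, h, dif_neg, not_false_iff, mul_one]
      rw [this]
      have e : ∀ x, κ⁻¹ * x ∈ N ↔ x ∈ N := fun x => N.mul_mem_cancel_left (N.inv_mem hκ)
      refine (hφ.shift κ 1).mono ?_ ?_ ?_ <;> intro x hx <;> simpa [e] using hx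
  have hΦ1 : ∀ p j, (j = p ∨ j = nx p) → ∀ κ b, Φ (π (r p)) j κ b = pt p κ b := by
    intro p j hj κ b
    have h : ∃ p', π (r p') = π (r p) ∧ (j = p' ∨ j = nx p') := ⟨p, rfl, hj⟩
    simp only [Φ, h, dif_pos]
    rw [hru _ _ h.choose_spec.1]
  have hΦ0 : ∀ q j, (¬∃ p, π (r p) = q ∧ (j = p ∨ j = nx p)) → ∀ κ b, Φ q j κ b = φ (κ⁻¹ * b) := by
    intro q j h κ b
    simp only [Φ, h, dif_neg, not_false_iff]
  let J : G → G → P := fun g x =>
    if g ∈ N then (if sj g (ix (g⁻¹ * x)) (a x) then nx (ix (g⁻¹ * x)) else ix (g⁻¹ * x))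
    else (if Tp (a g) then nx (ix (g⁻¹ * x)) else ix (g⁻¹ * x))
  let B : G → G → G := fun g x =>
    if g ∈ N then sb g (ix (g⁻¹ * x)) (a x) else Φ (π x) (J g x) (a g) (a x)
  have hB : ∀ g x, B g x ∈ N := by
    intro g x
    by_cases h : g ∈ N
    · simp only [B, h, if_true]; exact hsb _ h _ _ (haN x)
    · simp only [B, h, if_false]; exact (hΦ _ _ _ (haN g)).mem (haN x) (by simp)
  have hJ : ∀ g x, J g x = ix (g⁻¹ * x) ∨ J g x = nx (ix (g⁻¹ * x)) := by
    intro g x; simp only [J]; split_ifs <;> simp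
  have hπY : ∀ g x, π (B g x * c (J g x)) = π (c (J g x)) := fun g x => by
    rw [map_mul, (hπ1 _).1 (hB g x), one_mul]
  have hYC : ∀ g x, B g x * c (J g x) ∈ cos N c := fun g x => ⟨_, (hπ _ _).2 (hπY g x).symm⟩
  have hπS : ∀ g x, g⁻¹ * x ∈ cos N r → π (g⁻¹ * (x * (B g x * c (J g x)))) =
      π (r (ix (g⁻¹ * x)) * c (J g x)) := by
    intro g x hx
    rw [← mul_assoc, map_mul π (g⁻¹ * x), hπY, ← hix _ hx, ← map_mul]
  have hYS : ∀ g x, g⁻¹ * x ∈ cos N r →
      g⁻¹ * (x * (B g x * c (J g x))) ∈ cos N fun p => r p * c p := by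
    intro g x hx
    rcases hJ g x with h | h
    · exact ⟨_, (hπ _ _).2 (by rw [hπS g x hx, h])⟩
    · obtain ⟨q, hq⟩ := K.hs3 (ix (g⁻¹ * x))
      exact ⟨q, (hπ _ _).2 (by rw [hπS g x hx, h]; exact (hπ _ _).1 hq)⟩
  let col : G → G → G := fun g x =>
    if g⁻¹ * x ∈ cos N r then B g x * c (J g x) else θ (g⁻¹ * x) * 1
  -- rows of classes in N
  have hrowN : ∀ g ∈ N, ∀ x, g⁻¹ * x ∈ cos N r → x = r (ix (g⁻¹ * x)) * a x ∧
      B g x * c (J g x) = Y g (ix (g⁻¹ * x)) (a x) := by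
    intro g hg x hx
    constructor
    · have := hix _ hx
      rw [map_mul, map_inv, (hπ1 g).1 hg, inv_one, one_mul] at this
      rw [← hsr, this]; exact hax x
    · simp only [B, J, hg, if_true, hY]
  have glue : ∀ g (H : Set G), H ⊆ N → (H.Nonempty → g ∈ N) →
      HT (H ∪ {x | g⁻¹ * x ∉ cos N r}) (H ∪ (cos N c)ᶜ)
        (H ∪ {s | g⁻¹ * s ∉ cos N fun p => r p * c p}) (fun x => B g x * c (J g x)) →
      HT H H H (col g) := by
    intro g H hH hg h
    refine HT.glue (fun x => g⁻¹ * x ∈ cos N r) h (hθ.shift g 1) ?_ ?_ ?_ ?_ ?_ ?_ ?_ ?_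
    · intro x hx hp; simp [hx, hp]
    · intro x _ hp; exact hp
    · exact Set.subset_union_left
    · intro x hx; exact ⟨p₀, by simpa [K.c0] using hH hx⟩
    · exact Set.subset_union_left
    · intro x hx
      exact ⟨p₀, by simpa [K.c0, K.r0] using N.mul_mem (N.inv_mem (hg ⟨x, hx⟩)) (hH hx)⟩
    · intro y; by_cases h : y ∈ cos N c <;> simp [h]
    · intro y; by_cases h : g⁻¹ * y ∈ cos N fun p => r p * c p <;> simp [h]
  have locN : ∀ g ∈ N, ∀ H : Set G, H ⊆ N → Loc N r H (Y g) → HT H H H (col g) := by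
    intro g hg H hH l
    refine glue g H hH (fun _ => hg) ⟨fun x hx => ?_, fun x hx => ?_, fun x hx x' hx' e => ?_,
      fun x hx x' hx' e => ?_⟩
    all_goals simp only [Set.mem_union, Set.mem_ofPred_eq, not_or, not_not,
      Set.mem_compl_iff] at *
    · obtain ⟨e1, e2⟩ := hrowN g hg x hx.2
      exact ⟨by rw [e2]; exact l.col _ _ (haN x) (e1 ▸ hx.1), hYC g x⟩
    · obtain ⟨e1, e2⟩ := hrowN g hg x hx.2
      refine ⟨?_, hYS g x hx.2⟩
      have := l.sym _ _ (haN x) (e1 ▸ hx.1)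
      rwa [← e1, ← e2] at this
    · obtain ⟨e1, e2⟩ := hrowN g hg x hx.2
      obtain ⟨e1', e2'⟩ := hrowN g hg x' hx'.2
      rw [e2, e2'] at e
      obtain ⟨u, v⟩ := l.inj _ _ (haN x) (e1 ▸ hx.1) _ _ (haN x') (e1' ▸ hx'.1) e
      rw [e1, e1', u, v]
    · obtain ⟨e1, e2⟩ := hrowN g hg x hx.2
      obtain ⟨e1', e2'⟩ := hrowN g hg x' hx'.2
      obtain ⟨u, v⟩ := l.injs _ _ (haN x) (e1 ▸ hx.1) _ _ (haN x') (e1' ▸ hx'.1)
        (by rw [← e1, ← e1', ← e2, ← e2', e])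
      rw [e1, e1', u, v]
  have hH : ({1, t} : Set G) ⊆ N := by
    rintro x (rfl | rfl)
    · exact N.one_mem
    · exact ht
  have val : ∀ g ∈ N, ∀ b ∈ N, col g b = Y g p₀ b := by
    intro g hg b hb
    have h1 : π (r p₀) = π (g⁻¹ * b) := by
      rw [K.r0, map_one, (hπ1 _).1 (N.mul_mem (N.inv_mem hg) hb)]
    have h2 : g⁻¹ * b ∈ cos N r := (hR _).2 ⟨p₀, h1⟩
    have h3 : ix (g⁻¹ * b) = p₀ := hru _ _ ((hix _ h2).trans h1.symm)
    simp only [col, h2, if_true]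
    rw [(hrowN g hg b h2).2, h3, haN' b hb]
  refine ⟨t, k₁, k₂, col, t1, t2, hk, fun x g g' e => ?_, fun g h1 h2 => ?_,
    locN _ hk₁ _ hH l1, locN _ hk₂ _ hH l2, by rw [val _ hk₁ _ N.one_mem, v1],
    by rw [val _ hk₁ _ ht, v2], by rw [val _ hk₂ _ N.one_mem, v3], by rw [val _ hk₂ _ ht, v4]⟩
  · -- row-wise injectivity
    by_cases m : g⁻¹ * x ∈ cos N r <;> by_cases m' : g'⁻¹ * x ∈ cos N r <;>
      simp only [col, m, m', if_true, if_false, mul_one] at e
    · have eJ : J g x = J g' x := hcu _ _ (by rw [← hπY, ← hπY g', e])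
      rw [eJ] at e
      have eB : B g x = B g' x := mul_right_cancel e
      -- mixed case
      have mixed : ∀ g g', g⁻¹ * x ∈ cos N r → g'⁻¹ * x ∈ cos N r → J g x = J g' x →
          B g x = B g' x → g ∈ N → g' ∉ N → False := by
        intro g g' m m' eJ eB b b'
        have hx : π (r (ix (g⁻¹ * x))) = π x := by
          have := hix _ m
          rwa [map_mul, map_inv, (hπ1 g).1 b, inv_one, one_mul] at this
        have hne : ix (g'⁻¹ * x) ≠ ix (g⁻¹ * x) := by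
          intro h
          apply b'
          have := hix _ m'
          rw [h, hx, map_mul, map_inv] at this
          rw [hπ1]; simpa using this
        simp only [B, b, b', if_true, if_false] at eB
        rw [← hx, hΦ1 _ _ (eJ ▸ hJ g x)] at eB
        refine r3 _ _ (haN x) _ b _ (haN g') ?_ eB
        simp only [J, b, b', if_true, if_false] at eJ
        by_cases u : sj g (ix (g⁻¹ * x)) (a x) = true <;> by_cases v : Tp (a g') <;>
          simp only [u, v, if_true, if_false, Bool.false_eq_true] at eJ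
        · exact absurd (K.nxi eJ).symm hne
        · simp [u, v]
        · simp [u, v]
        · exact absurd eJ.symm hne
      by_cases b : g ∈ N <;> by_cases b' : g' ∈ N
      · have hp : ix (g⁻¹ * x) = ix (g'⁻¹ * x) := by
          apply hru
          rw [hix _ m, hix _ m', map_mul, map_mul, map_inv, map_inv, (hπ1 g).1 b, (hπ1 g').1 b']
        simp only [B, J, b, b', if_true, hp] at eB eJ
        refine r1 _ _ (haN x) _ b _ b' ?_ eB
        have := K.nxne (ix (g'⁻¹ * x))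
        cases u : sj g (ix (g'⁻¹ * x)) (a x) <;> cases v : sj g' (ix (g'⁻¹ * x)) (a x) <;>
          simp only [u, v, if_true, if_false, Bool.false_eq_true] at eJ
        · rfl
        · exact absurd eJ.symm this
        · exact absurd eJ this
        · rfl
      · exact (mixed g g' m m' eJ eB b b').elim
      · exact (mixed g' g m' m eJ.symm eB.symm b' b).elim
      · simp only [B, b, b', if_false, eJ] at eB
        have eκ : a g = a g' := by
          by_cases h : ∃ p, π (r p) = π x ∧ (J g' x = p ∨ J g' x = nx p)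
          · obtain ⟨q, hq, hj⟩ := h
            rw [← hq, hΦ1 _ _ hj, hΦ1 _ _ hj] at eB
            refine r2 _ _ (haN x) _ (haN g) _ (haN g') ?_ eB
            have typ : ∀ g, g⁻¹ * x ∈ cos N r → g ∉ N → (J g x = q ∨ J g x = nx q) →
                (Tp (a g) ↔ J g x = q) := by
              intro g m b hj
              have hne : ix (g⁻¹ * x) ≠ q := by
                intro h
                apply b
                have := hix _ m
                rw [h, hq, map_mul, map_inv] at this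
                rw [hπ1]; simpa using this
              by_cases v : Tp (a g) <;> simp only [J, b, v, if_true, if_false] at hj ⊢
              · rcases hj with hj | hj
                · simp [hj]
                · exact absurd (K.nxi hj) hne
              · simp [hne]
            rw [typ g m b (eJ ▸ hj), typ g' m' b' hj, eJ]
          · rw [hΦ0 _ _ h, hΦ0 _ _ h] at eB
            have := hφ.inj _ (by simpa using N.mul_mem (N.inv_mem (haN g)) (haN x)) _
              (by simpa using N.mul_mem (N.inv_mem (haN g')) (haN x)) eB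
            simpa using this
        have hp : ix (g⁻¹ * x) = ix (g'⁻¹ * x) := by
          simp only [J, b, b', if_false, eκ] at eJ
          by_cases v : Tp (a g') <;> simp only [v, if_true, if_false] at eJ
          · exact K.nxi eJ
          · exact eJ
        have hg : π g = π g' := by
          have := (hix _ m).symm.trans (hp ▸ hix _ m')
          simpa using this
        rw [hax g, hax g', hg, eκ]
    · exact absurd (e ▸ hYC g x) (hθ.col _ m')
    · exact absurd (e ▸ hYC g' x) (hθ.col _ m)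
    · simpa using hθ.inj _ m _ m' e
  · by_cases b : g ∈ N
    · exact locN g b ∅ (by simp) (l0 g b h1 h2)
    have fin : ∀ x x', g⁻¹ * x ∈ cos N r → g⁻¹ * x' ∈ cos N r →
        ix (g⁻¹ * x) = ix (g⁻¹ * x') → π x = π x' ∧ J g x = J g x' := by
      intro x x' m m' hp
      constructor
      · have := (hix _ m).symm.trans (hp ▸ hix _ m')
        simpa using this
      · simp only [J, b, if_false, hp]
    refine glue g ∅ (by simp) (by simp) ⟨fun x hx => ?_, fun x hx => ?_, fun x hx x' hx' e => ?_,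
      fun x hx x' hx' e => ?_⟩
    all_goals simp only [Set.empty_union, Set.mem_ofPred_eq, not_not, Set.mem_compl_iff] at *
    · exact hYC g x
    · exact hYS g x hx
    · have eJ : J g x = J g x' := hcu _ _ (by rw [← hπY, ← hπY g x', e])
      have hp : ix (g⁻¹ * x) = ix (g⁻¹ * x') := by
        simp only [J, b, if_false] at eJ
        by_cases v : Tp (a g) <;> simp only [v, if_true, if_false] at eJ
        · exact K.nxi eJ
        · exact eJ
      obtain ⟨e1, -⟩ := fin x x' hx hx' hp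
      rw [eJ] at e
      have eB := mul_right_cancel e
      simp only [B, b, if_false, e1, eJ] at eB
      have := (hΦ _ _ _ (haN g)).inj _ (by simpa using haN x) _ (by simpa using haN x') eB
      rw [hax x, hax x', e1, this]
    · have hp : ix (g⁻¹ * x) = ix (g⁻¹ * x') := by
        have := (hπS g x hx).symm.trans (e ▸ hπS g x' hx')
        simp only [J, b, if_false] at this
        by_cases v : Tp (a g) <;> simp only [v, if_true, if_false] at this
        · exact K.hs2 _ _ ((hπ _ _).2 this)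
        · exact K.hs1 _ _ ((hπ _ _).2 this)
      obtain ⟨e1, eJ⟩ := fin x x' hx hx' hp
      rw [eJ, ← mul_assoc, ← mul_assoc] at e
      have e := mul_right_cancel e
      have e' : a x * B g x = a x' * B g x' := by
        simp only [a, e1, mul_assoc, e]
      simp only [B, b, if_false, e1, eJ] at e'
      have := (hΦ _ _ _ (haN g)).injs _ (by simpa using haN x) _ (by simpa using haN x') e'
      rw [hax x, hax x', e1, this]

end Pool.Agent.Work.MP_66fdf3_co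
end
end

-- merged part: Pool.Agent.Work.MP_66fdf3_co.HexC
section
-- merged part: Pool.Agent.Work.MP_66fdf3_co.UnitCfg
section
namespace Pool.Agent.Work.MP_66fdf3_co

open Function

variable {G : Type*} [Group G]

theorem fill {N A : Subgroup G} [hN : N.Normal] [hA : A.Normal] (hNA : N ≤ A) {P : Type*}
    {r c : P → G} (hc : ∀ p q, (c p)⁻¹ * c q ∈ A → p = q)
    (hs : ∀ p q, (r p * c p)⁻¹ * (r q * c q) ∈ A → p = q) {θ : G → G}
    (hθ : HT (cos A r) (cos A c) (cos A fun p => r p * c p) θ) (hrel : RelIn A N) :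
    ∃ θ', HT (cos N r) (cos N c) (cos N fun p => r p * c p) θ' := by
  classical
  obtain ⟨ψ, hψ⟩ := hrel
  have hsub : ∀ r : P → G, cos N r ⊆ cos A r := fun r x ⟨p, h⟩ => ⟨p, hNA h⟩
  let f : G → G := fun x => if h : x ∈ cos A r then ψ ((r h.choose)⁻¹ * x) * c h.choose else 1
  have hf : ∀ x, x ∉ cos N r ∪ (cos A r)ᶜ → ∃ p a, a ∈ A ∧ a ∉ N ∧ x = r p * a ∧
      f x = ψ a * c p := by
    intro x hx
    simp only [Set.mem_union, Set.mem_compl_iff, not_or, not_not] at hx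
    exact ⟨hx.2.choose, _, hx.2.choose_spec, fun h => hx.1 ⟨_, h⟩, by simp,
      by simp only [f, hx.2, dif_pos]⟩
  have m1 : ∀ a ∈ A, a ∉ N → a ∉ (N : Set G) ∪ (A : Set G)ᶜ := fun a h h' => by simp [h, h']
  have m2 : ∀ a ∈ A, a ∉ N → ψ a ∈ A ∧ ψ a ∉ N := fun a h h' =>
    ⟨hψ.mem h h', fun e => hψ.col a (m1 a h h') (Or.inl e)⟩
  have m3 : ∀ a ∈ A, a ∉ N → a * ψ a ∉ N := fun a h h' e => hψ.sym a (m1 a h h') (Or.inl e)
  have cj : ∀ (B : Subgroup G) [B.Normal] (g b : G), g⁻¹ * (b * g) ∈ B ↔ b ∈ B := by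
    intro B hB g b
    rw [hB.mem_comm_iff]; simp
  have pc : ∀ p q b b', b ∈ A → b' ∈ A → (c q)⁻¹ * (b * c p) ∈ A → q = p := by
    intro p q b b' hb _ h
    apply hc
    have : (c q)⁻¹ * c p = ((c q)⁻¹ * (b * c p)) * ((c p)⁻¹ * (b * c p))⁻¹ := by group
    rw [this]; exact A.mul_mem h (A.inv_mem ((cj A _ _).2 hb))
  have ps : ∀ p q b, b ∈ A → (r q * c q)⁻¹ * (r p * (b * c p)) ∈ A → q = p := by
    intro p q b hb h
    apply hs
    have : (r q * c q)⁻¹ * (r p * c p) =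
      ((r q * c q)⁻¹ * (r p * (b * c p))) * ((c p)⁻¹ * (b * c p))⁻¹ := by group
    rw [this]; exact A.mul_mem h (A.inv_mem ((cj A _ _).2 hb))
  have loc : HT (cos N r ∪ (cos A r)ᶜ) (cos N c ∪ (cos A c)ᶜ)
      (cos N (fun p => r p * c p) ∪ (cos A fun p => r p * c p)ᶜ) f := by
    refine ⟨fun x hx => ?_, fun x hx => ?_, fun x hx x' hx' e => ?_, fun x hx x' hx' e => ?_⟩
    · obtain ⟨p, a, h1, h2, rfl, e⟩ := hf x hx
      rw [e]
      rintro (⟨q, h⟩ | h)
      · obtain rfl := pc p q _ _ (m2 a h1 h2).1 h1 (hNA h)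
        exact (m2 a h1 h2).2 ((cj N _ _).1 h)
      · exact h ⟨p, (cj A _ _).2 (m2 a h1 h2).1⟩
    · obtain ⟨p, a, h1, h2, rfl, e⟩ := hf x hx
      have hb := A.mul_mem h1 (m2 a h1 h2).1
      have e' : r p * a * (ψ a * c p) = r p * (a * ψ a * c p) := by group
      rw [e, e']
      rintro (⟨q, h⟩ | h)
      · obtain rfl := ps p q _ hb (hNA h)
        refine m3 a h1 h2 ((cj N (c q) _).1 ?_)
        simpa [mul_assoc] using h
      · refine h ⟨p, ?_⟩
        have := (cj A (c p) _).2 hb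
        simpa [mul_assoc] using this
    · obtain ⟨p, a, h1, h2, rfl, e1⟩ := hf x hx
      obtain ⟨p', a', h1', h2', rfl, e1'⟩ := hf x' hx'
      rw [e1, e1'] at e
      obtain rfl : p' = p := pc p p' _ _ (m2 a h1 h2).1 h1
        (by rw [e]; exact (cj A _ _).2 (m2 a' h1' h2').1)
      rw [hψ.inj _ (m1 a h1 h2) _ (m1 a' h1' h2') (mul_right_cancel e)]
    · obtain ⟨p, a, h1, h2, rfl, e1⟩ := hf x hx
      obtain ⟨p', a', h1', h2', rfl, e1'⟩ := hf x' hx'
      rw [e1, e1'] at e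
      have hb := A.mul_mem h1 (m2 a h1 h2).1
      have hb' := A.mul_mem h1' (m2 a' h1' h2').1
      have e2 : r p * (a * ψ a * c p) = r p' * (a' * ψ a' * c p') := by
        simpa only [mul_assoc] using e
      obtain rfl : p' = p := ps p p' _ hb (by
        rw [e2]
        have := (cj A (c p') _).2 hb'
        simpa [mul_assoc] using this)
      rw [hψ.injs _ (m1 a h1 h2) _ (m1 a' h1' h2') (mul_right_cancel (mul_left_cancel e2))]
  refine ⟨_, HT.glue (· ∈ cos A r) loc hθ ?_ ?_ Set.subset_union_left (hsub _)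
    Set.subset_union_left (hsub _) ?_ ?_⟩
  · intro x hx hp; simp [hx, hp]
  · intro x _ hp; exact hp
  · intro y; by_cases h : y ∈ cos A c <;> simp [h]
  · intro y; by_cases h : y ∈ cos A fun p => r p * c p <;> simp [h]

/-- The special block. -/
def SBin (N : Subgroup G) (t δ : G) : Prop :=
  ∃ (A B k₁ k₂ : G) (col : G → G → G), A ∈ N ∧ B ∈ N ∧ k₁ ∈ N ∧ k₂ ∈ N ∧ k₁ ≠ k₂ ∧ DecIn N col ∧
    (∀ k ∈ N, k ≠ k₁ → k ≠ k₂ → HTin N ∅ ∅ ∅ (col k)) ∧
    HTin N {1, t, A} {1, t, B} {1, t, A * B * t} (col k₁) ∧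
    HTin N {1, t, A * δ} {1, t, t * B} {1, t, A * δ * (t * B) * t} (col k₂) ∧
    col k₁ 1 = 1 ∧ col k₁ t = t ∧ col k₂ 1 = t ∧ col k₂ t = 1 ∧ col k₁ A = t * B ∧
    col k₂ (A * δ) = B ∧ A ∉ ({1, t} : Set G) ∧ B ∉ ({1, t} : Set G) ∧
    A * B * t ∉ ({1, t} : Set G) ∧ A * δ ∉ ({1, t} : Set G) ∧ t * B ∉ ({1, t} : Set G) ∧
    A * δ * (t * B) * t ∉ ({1, t} : Set G)

theorem SBin.lift {A K : Subgroup G} (hKA : K ≤ A) (hθ : RelIn A K) (hφ : CMin K) {t δ : G}
    (ht : t ∈ K) (hδ : δ ∈ K) (h : SBin K t δ) : SBin A t δ := by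
  obtain ⟨a, b, k₁, k₂, colK, ha, hb, h1, h2, c, d, e, f, g, v1, v2, v3, v4, v5, v6, w⟩ := h
  obtain ⟨col, p, q, r, s⟩ := dec_lift hKA hθ hφ d
  have hs : ∀ x ∈ K, ({1, t, x} : Set G) ⊆ K := by
    rintro y hy x (rfl | rfl | rfl)
    · exact K.one_mem
    · exact ht
    · exact hy
  have had := K.mul_mem ha hδ
  have htb := K.mul_mem ht hb
  refine ⟨a, b, k₁, k₂, col, hKA ha, hKA hb, hKA h1, hKA h2, c, p, fun k hk n1 n2 => ?_,
    r _ h1 _ _ _ (hs _ ha) (hs _ hb) (hs _ (K.mul_mem (K.mul_mem ha hb) ht)) f,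
    r _ h2 _ _ _ (hs _ had) (hs _ htb) (hs _ (K.mul_mem (K.mul_mem had htb) ht)) g,
    ?_, ?_, ?_, ?_, ?_, ?_, w⟩
  · by_cases m : k ∈ K
    · exact r k m _ _ _ (by simp) (by simp) (by simp) (e k m n1 n2)
    · exact q k hk m
  · rw [s _ h1 _ K.one_mem, v1]
  · rw [s _ h1 _ ht, v2]
  · rw [s _ h2 _ K.one_mem, v3]
  · rw [s _ h2 _ ht, v4]
  · rw [s _ h1 _ ha, v5]
  · rw [s _ h2 _ had, v6]

theorem SBin.cm [Finite G] {A : Subgroup G} {t δ : G} (h : SBin A t δ) (hc : 2 < Nat.card A) :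
    CMin A := by
  obtain ⟨a, b, k₁, k₂, col, -, -, -, -, -, -, e, -⟩ := h
  by_contra hn
  have : (A : Set G) ⊆ {k₁, k₂} := by
    intro k hk
    by_contra hh
    simp only [Set.mem_insert_iff, Set.mem_singleton_iff, not_or] at hh
    exact hn ⟨_, e k hk hh.1 hh.2⟩
  have h1 := Set.ncard_le_ncard this
  have h2 : ({k₁, k₂} : Set G).ncard ≤ 2 := Set.ncard_insert_le _ _ |>.trans (by simp)
  have h3 : (A : Set G).ncard = Nat.card A := rfl
  omega

theorem trade_inj {I X Z : Type*} (U : I → X) (hU : Injective U) (σ : I → I) (hσ : Injective σ)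
    {D : Set X} (hD : ∀ i, U i ∈ D) {f f' : X → Z} (hf : Set.InjOn f D)
    (h1 : ∀ i, f' (U i) = f (U (σ i))) (h2 : ∀ x, x ∉ Set.range U → f' x = f x) :
    Set.InjOn f' D ∧ ∀ x ∈ D, ∃ x' ∈ D, f' x = f x' := by
  constructor
  · intro x hx x' hx' e
    by_cases a : x ∈ Set.range U <;> by_cases a' : x' ∈ Set.range U
    · obtain ⟨i, rfl⟩ := a
      obtain ⟨i', rfl⟩ := a'
      rw [h1, h1] at e
      rw [hσ (hU (hf (hD _) (hD _) e))]
    · obtain ⟨i, rfl⟩ := a
      rw [h1, h2 _ a'] at e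
      exact absurd ⟨_, hf (hD _) hx' e⟩ a'
    · obtain ⟨i, rfl⟩ := a'
      rw [h1, h2 _ a] at e
      exact absurd ⟨_, hf (hD _) hx e.symm⟩ a
    · rw [h2 _ a, h2 _ a'] at e
      exact hf hx hx' e
  · intro x hx
    by_cases a : x ∈ Set.range U
    · obtain ⟨i, rfl⟩ := a
      exact ⟨_, hD _, h1 i⟩
    · exact ⟨x, hx, h2 _ a⟩

theorem Loc.of_trade {N : Subgroup G} {P I : Type*} {r : P → G} {H : Set G} {Y : P → G → G}
    (U : I → P × G) (hU : Injective U) (σ σ' : I → I) (hσ : Injective σ) (hσ' : Injective σ')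
    (hD : ∀ i, (U i).2 ∈ N ∧ r (U i).1 * (U i).2 ∉ H) (f s : P × G → G)
    (hf : Set.InjOn f {x | x.2 ∈ N ∧ r x.1 * x.2 ∉ H})
    (hs : Set.InjOn s {x | x.2 ∈ N ∧ r x.1 * x.2 ∉ H})
    (hf' : ∀ x : P × G, x.2 ∈ N → r x.1 * x.2 ∉ H → f x ∉ H ∧ s x ∉ H)
    (h1 : ∀ i, Y (U i).1 (U i).2 = f (U (σ i)))
    (h1' : ∀ i, r (U i).1 * (U i).2 * Y (U i).1 (U i).2 = s (U (σ' i)))
    (h2 : ∀ x, x ∉ Set.range U → Y x.1 x.2 = f x ∧ r x.1 * x.2 * Y x.1 x.2 = s x) :
    Loc N r H Y := by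
  obtain ⟨a1, a2⟩ := trade_inj U hU σ hσ hD (f' := fun x => Y x.1 x.2) hf h1
    (fun x h => (h2 x h).1)
  obtain ⟨b1, b2⟩ := trade_inj U hU σ' hσ' hD (f' := fun x => r x.1 * x.2 * Y x.1 x.2) hs h1'
    (fun x h => (h2 x h).2)
  refine ⟨fun p a h h' => ?_, fun p a h h' => ?_, fun p a h h' p' a' k k' e => ?_,
    fun p a h h' p' a' k k' e => ?_⟩
  · obtain ⟨x', hx', e⟩ := a2 (p, a) ⟨h, h'⟩
    exact e ▸ (hf' x' hx'.1 hx'.2).1
  · obtain ⟨x', hx', e⟩ := b2 (p, a) ⟨h, h'⟩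
    exact e ▸ (hf' x' hx'.1 hx'.2).2
  · exact Prod.mk.inj (a1 (x₁ := (p, a)) ⟨h, h'⟩ (x₂ := (p', a')) ⟨k, k'⟩ e)
  · exact Prod.mk.inj (b1 (x₁ := (p, a)) ⟨h, h'⟩ (x₂ := (p', a')) ⟨k, k'⟩ e)

theorem col_idx {N : Subgroup G} [hN : N.Normal] {x y b b' : G} (hb : b ∈ N) (hb' : b' ∈ N)
    (e : b * x = b' * y) : x⁻¹ * y ∈ N := by
  have : x⁻¹ * y = x⁻¹ * (b'⁻¹ * b) * x⁻¹⁻¹ := by
    rw [inv_inv, mul_assoc, mul_assoc, e]; simp
  rw [this]; exact hN.conj_mem _ (N.mul_mem (N.inv_mem hb') hb) _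

theorem sym_idx {N : Subgroup G} [hN : N.Normal] {x y u v b b' : G} (hb : b ∈ N) (hb' : b' ∈ N)
    (e : u * b * x = v * b' * y) : (u * x)⁻¹ * (v * y) ∈ N := by
  refine col_idx (hN.conj_mem _ hb u) (hN.conj_mem _ hb' v) ?_
  simpa [mul_assoc] using e

theorem Loc.blocks {N : Subgroup G} [hN : N.Normal] {P : Type*} {r c : P → G} (O : P → G → G)
    (hO : ∀ p, HTin N ∅ ∅ ∅ (O p)) (hc : ∀ p q, (c p)⁻¹ * c q ∈ N → p = q)
    (hs : ∀ p q, (r p * c p)⁻¹ * (r q * c q) ∈ N → p = q) :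
    Loc N r ∅ (fun p a => O p a * c p) := by
  refine ⟨by simp, by simp, fun p a h _ p' a' k _ e => ?_, fun p a h _ p' a' k _ e => ?_⟩
  · obtain rfl := hc _ _ (col_idx ((hO p).mem h (by simp)) ((hO p').mem k (by simp)) e)
    exact ⟨rfl, (hO p).inj _ (by simpa using h) _ (by simpa using k) (mul_right_cancel e)⟩
  · have e' : r p * (a * O p a) * c p = r p' * (a' * O p' a') * c p' := by
      simpa only [mul_assoc] using e
    obtain rfl := hs _ _ (sym_idx (N.mul_mem h ((hO p).mem h (by simp)))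
      (N.mul_mem k ((hO p').mem k (by simp))) e')
    exact ⟨rfl, (hO p).injs _ (by simpa using h) _ (by simpa using k)
      (mul_left_cancel (mul_right_cancel e'))⟩

theorem locX {N : Subgroup G} [hN : N.Normal] {P : Type*} {r c : P → G} {nx : P → P} {p₀ : P}
    (K : Config N r c nx p₀) (ν : P → P) (hν : Injective ν) {t : G} (ht : t ∈ N)
    (O : P → G → G) (a b : P → G) (ha : ∀ p, a p ∈ N) (hb : ∀ p, b p ∈ N)
    (hO : ∀ p, p ≠ p₀ → HTin N ∅ ∅ ∅ (O p) ∧ O p (a p) = b p)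
    (hO0 : HTin N {1, t, a p₀} {1, t, b p₀} {1, t, a p₀ * b p₀ * t} (O p₀))
    (n1 : a p₀ ∉ ({1, t} : Set G)) (n2 : b p₀ ∉ ({1, t} : Set G))
    (n3 : a p₀ * b p₀ * t ∉ ({1, t} : Set G))
    (rel : ∀ p, ν p ≠ p₀ → r p * a p * (b (nx p) * c (nx p)) =
      r (ν p) * a (ν p) * (b (ν p) * c (ν p)))
    (rel0 : ∀ p, ν p = p₀ → r p * a p * (b (nx p) * c (nx p)) = a p₀ * b p₀ * t)
    (Y : P → G → G) (Y1 : ∀ p, Y p (a p) = b (nx p) * c (nx p))
    (Y2 : ∀ p x, x ≠ a p → Y p x = O p x * c p) : Loc N r {1, t} Y := by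
  classical
  have hH : ∀ x ∈ ({1, t} : Set G), x ∈ N := by
    rintro x (rfl | rfl)
    · exact N.one_mem
    · exact ht
  let W : P × G → G := fun x => if x.2 = a x.1 then b x.1 else O x.1 x.2
  let Z : P × G → G := fun x => if x = (p₀, a p₀) then a p₀ * b p₀ * t else x.2 * W x
  have W0 : ∀ p, p ≠ p₀ → ∀ x, W (p, x) = O p x := by
    intro p hp x
    by_cases h : x = a p
    · simp only [W, h, if_true, (hO p hp).2]
    · simp only [W, h, if_false]
  have m0 : ∀ x, x ∈ N → r p₀ * x ∉ ({1, t} : Set G) → x ≠ a p₀ →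
      x ∉ ({1, t, a p₀} : Set G) ∪ (N : Set G)ᶜ := by
    intro x h1 h2 h3
    rw [K.r0, one_mul] at h2
    simp only [Set.mem_insert_iff, Set.mem_singleton_iff, not_or] at h2
    simp [h1, h2, h3]
  have hW : ∀ x : P × G, x.2 ∈ N → r x.1 * x.2 ∉ ({1, t} : Set G) → W x ∈ N := by
    rintro ⟨p, x⟩ h1 h2
    by_cases hp : p = p₀
    · subst hp
      by_cases h : x = a p
      · simp only [W, h, if_true, hb]
      · simp only [W, h, if_false]
        exact hO0.mem h1 fun e => m0 x h1 h2 h (Or.inl e)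
    · rw [W0 p hp]; exact (hO p hp).1.mem h1 (by simp)
  have hZ : ∀ x : P × G, x.2 ∈ N → r x.1 * x.2 ∉ ({1, t} : Set G) → Z x ∈ N := by
    intro x h1 h2
    by_cases h : x = (p₀, a p₀)
    · simp only [Z, h, if_true]; exact N.mul_mem (N.mul_mem (ha _) (hb _)) ht
    · simp only [Z, h, if_false]; exact N.mul_mem h1 (hW x h1 h2)
  refine Loc.of_trade (fun p => (p, a p)) (fun p q e => (Prod.mk.inj e).1) nx ν K.nxi hν ?_
    (fun x => W x * c x.1) (fun x => r x.1 * Z x * c x.1) ?_ ?_ ?_ ?_ ?_ ?_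
  · intro p
    refine ⟨ha p, fun e => ?_⟩
    have : p = p₀ := K.hr _ _ (by
      rw [K.r0, mul_one]
      exact N.inv_mem ((N.mul_mem_cancel_right (ha p)).1 (hH _ e)))
    subst this
    rw [K.r0, one_mul] at e; exact n1 e
  · rintro ⟨p, x⟩ ⟨h1, h2⟩ ⟨p', x'⟩ ⟨h1', h2'⟩ e
    obtain rfl : p = p' := K.hc _ _ (col_idx (hW _ h1 h2) (hW _ h1' h2') e)
    have e := mul_right_cancel e
    by_cases hp : p = p₀
    · subst hp
      by_cases h : x = a p <;> by_cases h' : x' = a p <;> simp only [W, h, h', if_true, if_false] at e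
      · rw [h, h']
      · exact absurd (Or.inl (by simp [← e])) (hO0.col _ (m0 x' h1' h2' h'))
      · exact absurd (Or.inl (by simp [e])) (hO0.col _ (m0 x h1 h2 h))
      · rw [hO0.inj _ (m0 x h1 h2 h) _ (m0 x' h1' h2' h') e]
    · rw [W0 p hp, W0 p hp] at e
      rw [(hO p hp).1.inj x (by simpa using h1) x' (by simpa using h1') e]
  · rintro ⟨p, x⟩ ⟨h1, h2⟩ ⟨p', x'⟩ ⟨h1', h2'⟩ e
    obtain rfl : p = p' := K.hs1 _ _ (sym_idx (hZ _ h1 h2) (hZ _ h1' h2') e)
    have e := mul_left_cancel (mul_right_cancel e)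
    by_cases hp : p = p₀
    · subst hp
      by_cases h : x = a p <;> by_cases h' : x' = a p <;>
        simp only [Z, W, h, h', if_true, if_false, Prod.mk.injEq, true_and] at e
      · rw [h, h']
      · exact absurd (Or.inl (by simp [← e])) (hO0.sym _ (m0 x' h1' h2' h'))
      · exact absurd (Or.inl (by simp [e])) (hO0.sym _ (m0 x h1 h2 h))
      · rw [hO0.injs _ (m0 x h1 h2 h) _ (m0 x' h1' h2' h') e]
    · simp only [Z, Prod.mk.injEq, hp, false_and, if_false, W0 p hp] at e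
      rw [(hO p hp).1.injs x (by simpa using h1) x' (by simpa using h1') e]
  · rintro ⟨p, x⟩ h1 h2
    constructor
    · intro e
      obtain rfl : p = p₀ := K.hc _ _ (by
        rw [K.c0, mul_one]
        exact N.inv_mem ((N.mul_mem_cancel_left (hW _ h1 h2)).1 (hH _ e)))
      simp only [K.c0, mul_one] at e
      by_cases h : x = a p <;> simp only [W, h, if_true, if_false] at e
      · exact n2 e
      · refine hO0.col _ (m0 x h1 h2 h) (Or.inl ?_)
        rcases e with e | e <;> (clear * - e; simp_all)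
    · intro e
      obtain rfl : p = p₀ := K.hs1 _ _ (sym_idx (hZ _ h1 h2) (hH _ e)
        (by rw [K.r0, K.c0, one_mul, mul_one]))
      simp only [K.c0, K.r0, mul_one, one_mul] at e
      by_cases h : x = a p <;> simp only [Z, W, h, if_true, if_false, Prod.mk.injEq, true_and] at e
      · exact n3 e
      · refine hO0.sym _ (m0 x h1 h2 h) (Or.inl ?_)
        rcases e with e | e <;> (clear * - e n3; simp_all)
  · intro p; simp only [Y1, W, if_true]
  · intro p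
    simp only [Y1]
    by_cases h : ν p = p₀
    · rw [rel0 p h, h]; simp only [Z, if_true, K.r0, K.c0, one_mul, mul_one]
    · rw [rel p h]; simp only [Z, W, Prod.mk.injEq, h, false_and, if_false, if_true, mul_assoc]
  · rintro ⟨p, x⟩ h
    have hx : x ≠ a p := fun e => h ⟨p, by simp [e]⟩
    have hx' : (p, x) ≠ (p₀, a p₀) := by
      intro e; obtain ⟨rfl, e⟩ := Prod.mk.inj e; exact hx e
    simp only [Y2 p x hx, W, Z, hx, hx', if_false, mul_assoc, and_self]

/-- Existence of a complete mapping with a prescribed pair. -/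
def PP (N : Subgroup G) (d e : G) : Prop := ∃ φ, HTin N ∅ ∅ ∅ φ ∧ φ 1 = 1 ∧ φ d = e

theorem HTin.shiftN {N : Subgroup G} {φ : G → G} (h : HTin N ∅ ∅ ∅ φ) {g k : G} (hg : g ∈ N)
    (hk : k ∈ N) : HTin N ∅ ∅ ∅ (fun x => φ (g⁻¹ * x) * k) := by
  have e : ∀ x, g⁻¹ * x ∈ N ↔ x ∈ N := fun x => N.mul_mem_cancel_left (N.inv_mem hg)
  have e' : ∀ x, x * k⁻¹ ∈ N ↔ x ∈ N := fun x => N.mul_mem_cancel_right (N.inv_mem hk)
  refine (h.shift g k).mono ?_ ?_ ?_ <;> intro x hx <;> simpa [e, e'] using hx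

theorem unit_cfg [Finite G] (N : Subgroup G) [hN : N.Normal] {P : Type*} [Finite P] {r c : P → G}
    {nx : P → P} {p₀ : P} (K : Config N r c nx p₀) {θ : G → G}
    (hθ : HT (cos N r) (cos N c) (cos N fun p => r p * c p) θ)
    (comm : ∀ x ∈ N, ∀ y ∈ N, x * y = y * x) (hcard : 2 < Nat.card N)
    {t : G} (t1 : t ≠ 1) (t2 : t * t = 1) (ν : P → P) (hν : Injective ν)
    (a b δ ε : P → G) (ha : ∀ p, a p ∈ N) (hb : ∀ p, b p ∈ N) (hδ : ∀ p, δ p ∈ N)
    (hε : ∀ p, ε p ∈ N) (δ1 : ∀ p, δ p ≠ 1) (ε0 : ε p₀ = t) (hSB : SBin N t (δ p₀))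
    (rel : ∀ p, ν p ≠ p₀ → r p * a p * (b (nx p) * c (nx p)) =
      r (ν p) * a (ν p) * (b (ν p) * c (ν p)))
    (rel0 : ∀ p, ν p = p₀ → r p * a p * (b (nx p) * c (nx p)) = a p₀ * b p₀ * t)
    (rel' : ∀ p, ν p ≠ p₀ → r p * (a p * δ p) * (ε (nx p) * b (nx p) * c (nx p)) =
      r (ν p) * (a (ν p) * δ (ν p)) * (ε (ν p) * b (ν p) * c (ν p)))
    (rel0' : ∀ p, ν p = p₀ → r p * (a p * δ p) * (ε (nx p) * b (nx p) * c (nx p)) =
      a p₀ * δ p₀ * (t * b p₀) * t)
    (pp : ∀ p, PP N (δ p) (ε (nx p))) (np : ∀ p, p ≠ p₀ → ∃ e, e ≠ ε p ∧ PP N (δ p) e) :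
    NO G := by
  classical
  have ht : t ∈ N := ε0 ▸ hε p₀
  have hcm := hSB.cm hcard
  obtain ⟨A, B, k₁, k₂, colh, hA, hB, hk₁, hk₂, hk, hdec, hn, h1, h2, v1, v2, v3, v4, v5, v6,
    n1, n2, n3, n4, n5, n6⟩ := hSB
  obtain ⟨κ₀, hκ₀, κ1, κ2⟩ : ∃ κ₀ ∈ N, κ₀ ≠ k₁ ∧ κ₀ ≠ k₂ := by
    by_contra hh
    push Not at hh
    have : (N : Set G) ⊆ {k₁, k₂} := by
      intro k hk
      by_cases e : k = k₁
      · exact Or.inl e
      · exact Or.inr (hh k hk e)
    have h1 := Set.ncard_le_ncard this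
    have h2 : ({k₁, k₂} : Set G).ncard ≤ 2 := Set.ncard_insert_le _ _ |>.trans (by simp)
    have h3 : (N : Set G).ncard = Nat.card N := rfl
    omega
  -- translated units
  let n := A * (a p₀)⁻¹
  let m := (b p₀)⁻¹ * B
  have hnN : n ∈ N := N.mul_mem hA (N.inv_mem (ha _))
  have hmN : m ∈ N := N.mul_mem (N.inv_mem (hb _)) hB
  let a₁ : P → G := fun p => (r p)⁻¹ * n * r p * a p
  let b₁ : P → G := fun p => b p * (c p * m * (c p)⁻¹)
  have ha₁ : ∀ p, a₁ p ∈ N := fun p =>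
    N.mul_mem (by simpa using hN.conj_mem _ hnN (r p)⁻¹) (ha p)
  have hb₁ : ∀ p, b₁ p ∈ N := fun p => N.mul_mem (hb p) (hN.conj_mem _ hmN _)
  have a₁0 : a₁ p₀ = A := by simp [a₁, n, K.r0]
  have b₁0 : b₁ p₀ = B := by simp [b₁, m, K.c0]
  let a₂ : P → G := fun p => a₁ p * δ p
  let b₂ : P → G := fun p => ε p * b₁ p
  have ha₂ : ∀ p, a₂ p ∈ N := fun p => N.mul_mem (ha₁ p) (hδ p)
  have hb₂ : ∀ p, b₂ p ∈ N := fun p => N.mul_mem (hε p) (hb₁ p)
  have a₂0 : a₂ p₀ = A * δ p₀ := by simp only [a₂, a₁0]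
  have b₂0 : b₂ p₀ = t * B := by simp only [b₂, b₁0, ε0]
  have a12 : ∀ p, a₂ p ≠ a₁ p := fun p e => δ1 p (by simpa [a₂] using e)
  have tr1 : ∀ p q, r p * a₁ p * (b₁ q * c q) = n * (r p * a p * (b q * c q)) * m := by
    intro p q; simp [a₁, b₁, mul_assoc]
  have tr2 : ∀ p q, r p * a₂ p * (b₂ q * c q) =
      n * (r p * (a p * δ p) * (ε q * b q * c q)) * m := by
    intro p q; simp [a₂, b₂, a₁, b₁, mul_assoc]
  have R1 : ∀ p, ν p ≠ p₀ → r p * a₁ p * (b₁ (nx p) * c (nx p)) =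
      r (ν p) * a₁ (ν p) * (b₁ (ν p) * c (ν p)) := fun p h => by rw [tr1, tr1, rel p h]
  have R2 : ∀ p, ν p ≠ p₀ → r p * a₂ p * (b₂ (nx p) * c (nx p)) =
      r (ν p) * a₂ (ν p) * (b₂ (ν p) * c (ν p)) := fun p h => by rw [tr2, tr2, rel' p h]
  have R10 : ∀ p, ν p = p₀ → r p * a₁ p * (b₁ (nx p) * c (nx p)) = a₁ p₀ * b₁ p₀ * t := by
    intro p h
    rw [tr1, rel0 p h, a₁0, b₁0, mul_assoc n, mul_assoc _ t m, comm t ht m hmN]
    simp [n, m, mul_assoc]
  have R20 : ∀ p, ν p = p₀ → r p * a₂ p * (b₂ (nx p) * c (nx p)) = a₂ p₀ * b₂ p₀ * t := by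
    intro p h
    rw [tr2, rel0' p h, a₂0, b₂0, mul_assoc n, mul_assoc _ t m, comm t ht m hmN]
    simp [n, m, mul_assoc]
  -- blocks of the second type
  choose φ' hφ' φ'1 φ'2 using pp
  let O' : P → G → G → G := fun p κ x => φ' p ((a₁ p * κ₀⁻¹ * κ)⁻¹ * x) * b₁ (nx p)
  have hO' : ∀ p, ∀ κ ∈ N, HTin N ∅ ∅ ∅ (O' p κ) := fun p κ h =>
    (hφ' p).shiftN (N.mul_mem (N.mul_mem (ha₁ p) (N.inv_mem hκ₀)) h) (hb₁ _)
  have hO'r : ∀ p, ∀ x ∈ N, ∀ κ ∈ N, ∀ κ' ∈ N, O' p κ x = O' p κ' x → κ = κ' := by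
    intro p x hx κ h κ' h' e
    have mm : ∀ κ ∈ N, (a₁ p * κ₀⁻¹ * κ)⁻¹ * x ∉ ∅ ∪ (N : Set G)ᶜ := fun κ h => by
      simpa only [Set.empty_union, Set.mem_compl_iff, not_not, SetLike.mem_coe] using
        N.mul_mem (N.inv_mem (N.mul_mem (N.mul_mem (ha₁ p) (N.inv_mem hκ₀)) h)) hx
    have := (hφ' p).inj _ (mm κ h) _ (mm κ' h') (mul_right_cancel e)
    simpa using this
  have O'1 : ∀ p, O' p κ₀ (a₁ p) = b₁ (nx p) := fun p => by simp [O', φ'1]
  have O'2 : ∀ p, O' p κ₀ (a₂ p) = b₂ (nx p) := fun p => by simp [O', φ'2, a₂, b₂]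
  -- blocks of the first type
  have exO : ∀ p, ∃ O : G → G → G, DecIn N O ∧ (∀ κ ∈ N, κ ≠ k₁ → κ ≠ k₂ → HTin N ∅ ∅ ∅ (O κ)) ∧
      (p = p₀ → O = colh) ∧ (p ≠ p₀ → (HTin N ∅ ∅ ∅ (O k₁) ∧ O k₁ (a₁ p) = b₁ p) ∧
        (HTin N ∅ ∅ ∅ (O k₂) ∧ O k₂ (a₂ p) = b₂ p)) := by
    intro p
    by_cases hp : p = p₀
    · exact ⟨colh, hdec, hn, fun _ => rfl, fun h => absurd hp h⟩
    obtain ⟨e, he, φ, hφ, φ1, φ2⟩ := np p hp
    obtain ⟨u, hu, hue⟩ : ∃ u ∈ N, φ u = ε p := by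
      let f : N → N := fun x => ⟨φ x, hφ.mem x.2 (by simp)⟩
      have hf : Injective f := fun x y h => Subtype.ext
        (hφ.inj _ (by simp) _ (by simp) (congrArg Subtype.val h))
      obtain ⟨x, hx⟩ := (Finite.injective_iff_surjective.1 hf) ⟨ε p, hε p⟩
      exact ⟨x, x.2, congrArg Subtype.val hx⟩
    let w := δ p * u⁻¹
    have hw : w ∈ N := N.mul_mem (hδ p) (N.inv_mem hu)
    have w1 : w ≠ 1 := by
      intro h
      have : δ p = u := mul_inv_eq_one.1 h
      rw [this, hue] at φ2; exact he φ2.symm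
    let ρ : Equiv.Perm G := Equiv.swap (Equiv.swap k₁ 1 k₂) w * Equiv.swap k₁ 1
    have swN : ∀ x ∈ N, ∀ y ∈ N, ∀ z ∈ N, Equiv.swap x y z ∈ N := by
      intro x hx y hy z hz
      rw [Equiv.swap_apply_def]; split_ifs <;> assumption
    have ρN : ∀ κ ∈ N, ρ κ ∈ N := fun κ h =>
      swN _ (swN _ hk₁ _ N.one_mem _ hk₂) _ hw _ (swN _ hk₁ _ N.one_mem _ h)
    have ρ1 : ρ k₁ = 1 := by
      simp only [ρ, Equiv.Perm.mul_apply, Equiv.swap_apply_left]
      apply Equiv.swap_apply_of_ne_of_ne _ w1.symm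
      intro h
      apply hk
      have := congrArg (Equiv.swap k₁ 1) h
      simpa using this
    have ρ2 : ρ k₂ = w := by simp [ρ]
    have hO : ∀ κ ∈ N, HTin N ∅ ∅ ∅ (fun x => φ ((a₁ p * ρ κ)⁻¹ * x) * b₁ p) := fun κ h =>
      hφ.shiftN (N.mul_mem (ha₁ p) (ρN κ h)) (hb₁ p)
    refine ⟨fun κ x => φ ((a₁ p * ρ κ)⁻¹ * x) * b₁ p, ⟨fun κ h x hx => (hO κ h).mem hx (by simp),
      fun x hx κ h κ' h' e => ?_⟩, fun κ h _ _ => hO κ h, fun h => absurd h hp,
      fun _ => ⟨⟨hO _ hk₁, by simp [ρ1, φ1]⟩, hO _ hk₂, ?_⟩⟩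
    · have mm : ∀ κ ∈ N, (a₁ p * ρ κ)⁻¹ * x ∉ ∅ ∪ (N : Set G)ᶜ := fun κ h => by
        simpa only [Set.empty_union, Set.mem_compl_iff, not_not, SetLike.mem_coe] using
          N.mul_mem (N.inv_mem (N.mul_mem (ha₁ p) (ρN κ h))) hx
      have := hφ.inj _ (mm κ h) _ (mm κ' h') (mul_right_cancel e)
      simpa using this
    · simp [ρ2, w, a₂, b₂, hue, mul_assoc]
  choose O hO1 hO2 hO3 hO4 using exO
  have O0 : O p₀ = colh := hO3 p₀ rfl
  let sw : P → G → Equiv.Perm G := fun p x =>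
    if x = a₁ p then Equiv.swap κ₀ k₁ else if x = a₂ p then Equiv.swap κ₀ k₂ else 1
  have swN : ∀ p x, ∀ κ ∈ N, sw p x κ ∈ N := by
    intro p x κ h
    simp only [sw]
    split_ifs
    · rw [Equiv.swap_apply_def]; split_ifs <;> assumption
    · rw [Equiv.swap_apply_def]; split_ifs <;> assumption
    · exact h
  let Y : G → P → G → G := fun κ p x =>
    (if sw p x κ = κ₀ then O' p κ₀ x else O p (sw p x κ) x) *
      c (if decide (sw p x κ = κ₀) then nx p else p)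
  have YT : ∀ κ p x, sw p x κ ≠ κ₀ → Y κ p x = O p (sw p x κ) x * c p := fun κ p x h => by
    simp [Y, h]
  have YT' : ∀ κ p x, sw p x κ = κ₀ → Y κ p x = O' p κ₀ x * c (nx p) := fun κ p x h => by
    simp [Y, h]
  have sw0 : ∀ p x, x ≠ a₁ p → x ≠ a₂ p → ∀ κ, sw p x κ = κ := fun p x h h' κ => by
    simp [sw, h, h']
  have sw1 : ∀ p, sw p (a₁ p) = Equiv.swap κ₀ k₁ := fun p => by simp [sw]
  have sw2 : ∀ p, sw p (a₂ p) = Equiv.swap κ₀ k₂ := fun p => by simp [sw, a12]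
  have swk1 : ∀ p x, x ≠ a₁ p → sw p x k₁ = k₁ := by
    intro p x h
    by_cases h' : x = a₂ p
    · rw [h', sw2]; exact Equiv.swap_apply_of_ne_of_ne κ1.symm hk
    · exact sw0 p x h h' _
  have swk2 : ∀ p x, x ≠ a₂ p → sw p x k₂ = k₂ := by
    intro p x h
    by_cases h' : x = a₁ p
    · rw [h', sw1]; exact Equiv.swap_apply_of_ne_of_ne κ2.symm hk.symm
    · exact sw0 p x h' h _
  have n1' : ∀ x ∈ ({1, t} : Set G), x ≠ a₁ p₀ := fun x h e => n1 (by rw [← a₁0, ← e]; exact h)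
  have n4' : ∀ x ∈ ({1, t} : Set G), x ≠ a₂ p₀ := fun x h e => n4 (by rw [← a₂0, ← e]; exact h)
  refine region N K hθ hcm (fun κ => κ = κ₀) (fun p κ => if κ = κ₀ then O p κ₀ else O' p κ)
    (fun κ p x => decide (sw p x κ = κ₀))
    (fun κ p x => if sw p x κ = κ₀ then O' p κ₀ x else O p (sw p x κ) x) ?_ ?_ ?_ ?_ ?_ Y
    (fun _ _ _ => rfl) t k₁ k₂ ht hk₁ hk₂ t1 t2 hk ?_ ?_ ?_ ?_ ?_ ?_ ?_
  · intro p κ h
    by_cases e : κ = κ₀
    · simp only [e, if_true]; exact hO2 p _ hκ₀ κ1 κ2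
    · simp only [e, if_false]; exact hO' p κ h
  · intro κ h p x hx
    by_cases e : sw p x κ = κ₀
    · simp only [e, if_true]; exact (hO' p _ hκ₀).mem hx (by simp)
    · simp only [e, if_false]; exact (hO1 p).1 _ (swN p x κ h) _ hx
  · intro p x hx κ h κ' h' e1 e2
    apply (sw p x).injective
    by_cases e : sw p x κ = κ₀ <;> by_cases e' : sw p x κ' = κ₀ <;>
      simp only [e, e', if_true, if_false, decide_true, decide_false] at e1 e2
    · rw [e, e']
    · exact absurd e1 (by simp)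
    · exact absurd e1 (by simp)
    · exact (hO1 p).2 x hx _ (swN p x κ h) _ (swN p x κ' h') e2
  · intro p x hx κ h κ' h' e1 e2
    by_cases e : κ = κ₀
    · rw [e, e1.1 e]
    · have e' : κ' ≠ κ₀ := fun u => e (e1.2 u)
      simp only [e, e', if_false] at e2
      exact hO'r p x hx _ h _ h' e2
  · intro p x hx κ h κ' h' e1 e2
    simp only [decide_eq_true_eq] at e1
    by_cases e : sw p x κ = κ₀
    · have e' := e1.1 e
      simp only [e, e', if_true, if_false] at e2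
      exact e' (hO'r p x hx _ hκ₀ _ h' e2).symm
    · have e' : κ' = κ₀ := by by_contra u; exact e (e1.2 u)
      simp only [e, e', if_true, if_false] at e2
      exact e ((hO1 p).2 x hx _ (swN p x κ h) _ hκ₀ e2)
  · intro κ h u1 u2
    by_cases e : κ = κ₀
    · subst e
      let E := Equiv.ofBijective nx (Finite.injective_iff_bijective.1 K.nxi)
      let F := Equiv.ofBijective ν (Finite.injective_iff_bijective.1 hν)
      have hE : ∀ p, nx (E.symm p) = p := E.apply_symm_apply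
      have hF : ∀ p, ν (F.symm p) = p := F.apply_symm_apply
      have old := Loc.blocks (r := r) (c := fun p => c (nx p)) (fun p => O' p κ)
        (fun p => hO' p κ h) (fun p q e => K.nxi (K.hc _ _ e)) K.hs2
      refine Loc.of_trade (I := Bool × P) (fun i => (i.2, if i.1 then a₂ i.2 else a₁ i.2)) ?_
        (fun i => (if i.2 = p₀ then !i.1 else i.1, E.symm i.2)) (fun i => (i.1, F.symm i.2)) ?_ ?_
        ?_ (fun x => O' x.1 κ x.2 * c (nx x.1)) (fun x => r x.1 * x.2 * (O' x.1 κ x.2 * c (nx x.1)))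
        ?_ ?_ (by simp) ?_ ?_ ?_
      · rintro ⟨j, p⟩ ⟨j', p'⟩ e
        obtain ⟨rfl, e⟩ := Prod.mk.inj e
        cases j <;> cases j' <;> simp only [if_true, if_false, Bool.false_eq_true] at e
        · rfl
        · exact absurd e.symm (a12 p)
        · exact absurd e (a12 p)
        · rfl
      · rintro ⟨j, p⟩ ⟨j', p'⟩ e
        obtain ⟨e1, e2⟩ := Prod.mk.inj e
        obtain rfl := E.symm.injective e2
        by_cases hp : p = p₀ <;> (clear * - e e2 hp; simp_all)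
      · rintro ⟨j, p⟩ ⟨j', p'⟩ e
        obtain ⟨e1, e2⟩ := Prod.mk.inj e
        exact Prod.ext e1 (F.symm.injective e2)
      · rintro ⟨j, p⟩
        cases j <;> simp [ha₁, ha₂]
      · rintro ⟨p, x⟩ ⟨h1, h2⟩ ⟨p', x'⟩ ⟨h1', h2'⟩ e
        obtain ⟨u, v⟩ := old.inj p x h1 h2 p' x' h1' h2' e
        rw [u, v]
      · rintro ⟨p, x⟩ ⟨h1, h2⟩ ⟨p', x'⟩ ⟨h1', h2'⟩ e
        obtain ⟨u, v⟩ := old.injs p x h1 h2 p' x' h1' h2' e
        rw [u, v]
      · rintro ⟨j, p⟩
        cases j <;> simp only [if_true, if_false, Bool.false_eq_true]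
        · rw [YT _ _ _ (by rw [sw1]; simpa using u1.symm), sw1, Equiv.swap_apply_left]
          by_cases hp : p = p₀
          · subst hp
            simp only [if_true, Bool.not_false, O'2, hE, O0, a₁0, v5, b₂0]
          · simp only [hp, if_false, Bool.false_eq_true, O'1, hE, (hO4 p hp).1.2]
        · rw [YT _ _ _ (by rw [sw2]; simpa using u2.symm), sw2, Equiv.swap_apply_left]
          by_cases hp : p = p₀
          · subst hp
            simp only [if_true, Bool.not_true, if_false, Bool.false_eq_true, O'1, hE, O0, a₂0, v6,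
              b₁0]
          · simp only [hp, if_false, if_true, O'2, hE, (hO4 p hp).2.2]
      · rintro ⟨j, p⟩
        cases j <;> simp only [if_true, if_false, Bool.false_eq_true]
        · rw [YT _ _ _ (by rw [sw1]; simpa using u1.symm), sw1, Equiv.swap_apply_left, O'1]
          by_cases hp : p = p₀
          · subst hp
            rw [R10 _ (hF _), O0, a₁0, v5, b₁0, K.r0, K.c0, one_mul, mul_one, comm t ht B hB,
              mul_assoc]
          · rw [R1 _ (by rwa [hF]), hF, (hO4 p hp).1.2]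
        · rw [YT _ _ _ (by rw [sw2]; simpa using u2.symm), sw2, Equiv.swap_apply_left, O'2]
          by_cases hp : p = p₀
          · subst hp
            rw [R20 _ (hF _), O0, a₂0, v6, b₂0, K.r0, K.c0, one_mul, mul_one, comm t ht B hB,
              mul_assoc _ _ t, mul_assoc B, t2, mul_one]
          · rw [R2 _ (by rwa [hF]), hF, (hO4 p hp).2.2]
      · rintro ⟨p, x⟩ hx
        have x1 : x ≠ a₁ p := fun e => hx ⟨(false, p), by simp [e]⟩
        have x2 : x ≠ a₂ p := fun e => hx ⟨(true, p), by simp [e]⟩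
        simp only [YT' _ _ _ (sw0 p x x1 x2 κ), and_self]
    · have : Y κ = fun p x => O p κ x * c p := by
        funext p x
        have : sw p x κ = κ := by
          simp only [sw]
          split_ifs
          · exact Equiv.swap_apply_of_ne_of_ne e u1
          · exact Equiv.swap_apply_of_ne_of_ne e u2
          · rfl
        rw [YT _ _ _ (by rwa [this]), this]
      rw [this]
      exact Loc.blocks (fun p => O p κ) (fun p => hO2 p κ h u1 u2) K.hc K.hs1
  · refine locX K ν hν ht (fun p => O p k₁) a₁ b₁ ha₁ hb₁ (fun p hp => (hO4 p hp).1)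
      (by rw [O0, a₁0, b₁0]; exact h1) (by rwa [a₁0]) (by rwa [b₁0]) (by rwa [a₁0, b₁0]) R1 R10 _
      (fun p => ?_) (fun p x hx => ?_)
    · rw [YT' _ _ _ (by rw [sw1]; simp), O'1]
    · rw [YT _ _ _ (by rw [swk1 p x hx]; exact κ1.symm), swk1 p x hx]
  · refine locX K ν hν ht (fun p => O p k₂) a₂ b₂ ha₂ hb₂ (fun p hp => (hO4 p hp).2)
      (by rw [O0, a₂0, b₂0]; exact h2) (by rwa [a₂0]) (by rwa [b₂0]) (by rwa [a₂0, b₂0]) R2 R20 _
      (fun p => ?_) (fun p x hx => ?_)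
    · rw [YT' _ _ _ (by rw [sw2]; simp), O'2]
    · rw [YT _ _ _ (by rw [swk2 p x hx]; exact κ2.symm), swk2 p x hx]
  · have := swk1 p₀ 1 (n1' _ (by simp))
    rw [YT _ _ _ (by rw [this]; exact κ1.symm), this, O0, v1, K.c0, one_mul]
  · have := swk1 p₀ t (n1' _ (by simp))
    rw [YT _ _ _ (by rw [this]; exact κ1.symm), this, O0, v2, K.c0, mul_one]
  · have := swk2 p₀ 1 (n4' _ (by simp))
    rw [YT _ _ _ (by rw [this]; exact κ2.symm), this, O0, v3, K.c0, mul_one]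
  · have := swk2 p₀ t (n4' _ (by simp))
    rw [YT _ _ _ (by rw [this]; exact κ2.symm), this, O0, v4, K.c0, one_mul]

end Pool.Agent.Work.MP_66fdf3_co
end

-- merged part: Pool.Agent.Work.MP_66fdf3_co.Model
section
namespace Pool.Agent.Work.MP_66fdf3_co

open Function

variable {G : Type*} [Group G]

/-- A numerical model of a subgroup. -/
structure Mdl (K : Subgroup G) (n : ℕ) (mul : ℕ → ℕ → ℕ) (π : ℕ → G) : Prop where
  pos : 0 < n
  zero : π 0 = 1
  lt : ∀ u < n, ∀ v < n, mul u v < n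
  hom : ∀ u < n, ∀ v < n, π (mul u v) = π u * π v
  inj : ∀ u < n, ∀ v < n, π u = π v → u = v
  mem : ∀ u < n, π u ∈ K
  surj : ∀ x ∈ K, ∃ u < n, π u = x

theorem Mdl.card {K : Subgroup G} {n mul π} (M : Mdl K n mul π) : Nat.card K = n := by
  have : Bijective (fun u : Fin n => (⟨π u, M.mem u u.2⟩ : K)) := by
    constructor
    · intro u v e; exact Fin.ext (M.inj _ u.2 _ v.2 (congrArg Subtype.val e))
    · rintro ⟨x, hx⟩
      obtain ⟨u, hu, rfl⟩ := M.surj x hx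
      exact ⟨⟨u, hu⟩, rfl⟩
  rw [← Nat.card_eq_of_bijective _ this]; simp

theorem Mdl.assoc {K : Subgroup G} {n mul π} (M : Mdl K n mul π) {a b c : ℕ} (ha : a < n)
    (hb : b < n) (hc : c < n) : mul (mul a b) c = mul a (mul b c) := by
  apply M.inj _ (M.lt _ (M.lt _ ha _ hb) _ hc) _ (M.lt _ ha _ (M.lt _ hb _ hc))
  rw [M.hom _ (M.lt _ ha _ hb) _ hc, M.hom _ ha _ hb, M.hom _ ha _ (M.lt _ hb _ hc),
    M.hom _ hb _ hc, mul_assoc]

/-- Multiplication of an extension of index two. -/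
def xmul (n : ℕ) (mul : ℕ → ℕ → ℕ) (α : ℕ → ℕ) (s u v : ℕ) : ℕ :=
  bif Nat.ble n u then
    (bif Nat.ble n v then mul s (mul (α (Nat.sub u n)) (Nat.sub v n))
      else Nat.add n (mul (Nat.sub u n) v))
  else (bif Nat.ble n v then Nat.add n (mul (α u) (Nat.sub v n)) else mul u v)

/-- Elements of an extension of index two. -/
def xpi (n : ℕ) (π : ℕ → G) (g : G) (u : ℕ) : G := if n ≤ u then g * π (u - n) else π u

/-- Extension of an endomorphism. -/
def xhom (n : ℕ) (mul : ℕ → ℕ → ℕ) (A : ℕ) (α : ℕ → ℕ) (u : ℕ) : ℕ :=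
  bif Nat.ble n u then mul A (α (Nat.sub u n)) else α u

theorem ble_t {n u : ℕ} (h : n ≤ u) : Nat.ble n u = true := Nat.ble_eq_true_of_le h
theorem ble_f {n u : ℕ} (h : ¬n ≤ u) : Nat.ble n u = false := by
  cases e : Nat.ble n u
  · rfl
  · exact absurd (Nat.le_of_ble_eq_true e) h

theorem xpi_lo {n : ℕ} {π : ℕ → G} {g : G} {u : ℕ} (h : u < n) : xpi n π g u = π u := by
  simp [xpi, not_le.2 h]

theorem xpi_hi {n : ℕ} {π : ℕ → G} {g : G} {u : ℕ} : xpi n π g (n + u) = g * π u := by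
  simp [xpi]

theorem Mdl.ext {K K' : Subgroup G} {n mul π} (M : Mdl K n mul π) {g : G} (hg : g ∉ K)
    (hK' : ∀ x, x ∈ K' ↔ x ∈ K ∨ g⁻¹ * x ∈ K) {α : ℕ → ℕ} {s : ℕ}
    (hα : ∀ u < n, α u < n ∧ π (α u) = g⁻¹ * π u * g) (hs : s < n) (hs' : π s = g * g) :
    Mdl K' (n + n) (xmul n mul α s) (xpi n π g) := by
  have cs : ∀ u < n + n, u < n ∨ ∃ u' < n, u = n + u' := by
    intro u hu
    by_cases h : u < n
    · exact Or.inl h
    · exact Or.inr ⟨u - n, by omega, by omega⟩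
  have m00 : ∀ u < n, ∀ v < n, xmul n mul α s u v = mul u v := fun u hu v hv => by
    simp [xmul, ble_f (not_le.2 hu), ble_f (not_le.2 hv)]
  have m01 : ∀ u < n, ∀ v, xmul n mul α s u (n + v) = n + mul (α u) v := fun u hu v => by
    simp [xmul, ble_f (not_le.2 hu), ble_t (Nat.le_add_right n v)]
  have m10 : ∀ u, ∀ v < n, xmul n mul α s (n + u) v = n + mul u v := fun u v hv => by
    simp [xmul, ble_f (not_le.2 hv), ble_t (Nat.le_add_right n u)]
  have m11 : ∀ u v, xmul n mul α s (n + u) (n + v) = mul s (mul (α u) v) := fun u v => by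
    simp [xmul, ble_t (Nat.le_add_right n v), ble_t (Nat.le_add_right n u)]
  have := M.pos
  refine ⟨by omega, by rw [xpi_lo M.pos, M.zero], ?_, ?_, ?_, ?_, ?_⟩
  · intro u hu v hv
    rcases cs u hu with h | ⟨u, h, rfl⟩ <;> rcases cs v hv with h' | ⟨v, h', rfl⟩
    · rw [m00 u h v h']; have := M.lt u h v h'; omega
    · rw [m01 u h]; have := M.lt _ (hα u h).1 v h'; omega
    · rw [m10 u v h']; have := M.lt u h v h'; omega
    · rw [m11]; have := M.lt s hs _ (M.lt _ (hα u h).1 v h'); omega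
  · intro u hu v hv
    rcases cs u hu with h | ⟨u, h, rfl⟩ <;> rcases cs v hv with h' | ⟨v, h', rfl⟩
    · rw [m00 u h v h', xpi_lo h, xpi_lo h', xpi_lo (M.lt u h v h'), M.hom u h v h']
    · rw [m01 u h, xpi_lo h, xpi_hi, xpi_hi, M.hom _ (hα u h).1 v h', (hα u h).2]; group
    · rw [m10 u v h', xpi_lo h', xpi_hi, xpi_hi, M.hom u h v h', mul_assoc]
    · rw [m11, xpi_hi, xpi_hi, xpi_lo (M.lt s hs _ (M.lt _ (hα u h).1 v h')),
        M.hom s hs _ (M.lt _ (hα u h).1 v h'), M.hom _ (hα u h).1 v h', (hα u h).2, hs']; group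
  · intro u hu v hv e
    rcases cs u hu with h | ⟨u, h, rfl⟩ <;> rcases cs v hv with h' | ⟨v, h', rfl⟩
    · rw [xpi_lo h, xpi_lo h'] at e; exact M.inj u h v h' e
    · rw [xpi_lo h, xpi_hi] at e
      exact absurd ((K.mul_mem_cancel_right (M.mem v h')).1 (e ▸ M.mem u h)) hg
    · rw [xpi_lo h', xpi_hi] at e
      exact absurd ((K.mul_mem_cancel_right (M.mem u h)).1 (e ▸ M.mem v h')) hg
    · rw [xpi_hi, xpi_hi] at e; rw [M.inj u h v h' (mul_left_cancel e)]
  · intro u hu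
    rcases cs u hu with h | ⟨u, h, rfl⟩
    · rw [xpi_lo h]; exact (hK' _).2 (Or.inl (M.mem u h))
    · rw [xpi_hi]; exact (hK' _).2 (Or.inr (by simpa using M.mem u h))
  · intro x hx
    rcases (hK' x).1 hx with h | h
    · obtain ⟨u, hu, rfl⟩ := M.surj x h
      exact ⟨u, by omega, xpi_lo hu⟩
    · obtain ⟨u, hu, e⟩ := M.surj _ h
      exact ⟨n + u, by omega, by rw [xpi_hi, e]; simp⟩

theorem xhom_spec {L : Subgroup G} {n m mul π π'} (M : Mdl L m mul π') {g : G} (ψ : G → G)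
    (hψ : ∀ x y, ψ (x * y) = ψ x * ψ y) {α : ℕ → ℕ} {A : ℕ}
    (hα : ∀ u < n, α u < m ∧ π' (α u) = ψ (π u)) (hA : A < m) (hA' : π' A = ψ g) :
    ∀ u < n + n, xhom n mul A α u < m ∧ π' (xhom n mul A α u) = ψ (xpi n π g u) := by
  intro u hu
  by_cases h : n ≤ u
  · have h' : u - n < n := by omega
    simp only [xhom, ble_t h, cond_true, xpi, h, if_true, Nat.sub_eq]
    exact ⟨M.lt _ hA _ (hα _ h').1, by rw [M.hom _ hA _ (hα _ h').1, hA', (hα _ h').2, hψ]⟩
  · simp only [xhom, ble_f h, cond_false, xpi, h, if_false]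
    exact hα u (not_le.1 h)

/-- Multiplication of an extension of index three. -/
def ymul (n : ℕ) (mul : ℕ → ℕ → ℕ) (α : ℕ → ℕ) (s u v : ℕ) : ℕ :=
  bif Nat.ble 3 (u / n + v / n) then
    n * (u / n + v / n - 3) + mul s (mul (α^[v / n] (u % n)) (v % n))
  else n * (u / n + v / n) + mul (α^[v / n] (u % n)) (v % n)

theorem Mdl.ext3 {K K' : Subgroup G} {n mul π} (M : Mdl K n mul π) {g : G} (hg : g ∉ K)
    (hg2 : g * g ∉ K) (hK' : ∀ x, x ∈ K' ↔ ∃ i < 3, (g ^ i)⁻¹ * x ∈ K) {α : ℕ → ℕ} {s : ℕ}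
    (hα : ∀ u < n, α u < n ∧ π (α u) = g⁻¹ * π u * g) (hs : s < n) (hs' : π s = g ^ 3) :
    Mdl K' (n * 3) (ymul n mul α s) (fun u => g ^ (u / n) * π (u % n)) := by
  have hn := M.pos
  have hit : ∀ j, ∀ u < n, α^[j] u < n ∧ π (α^[j] u) = (g ^ j)⁻¹ * π u * g ^ j := by
    intro j
    induction j with
    | zero => intro u hu; simp [hu]
    | succ j ih =>
      intro u hu
      rw [iterate_succ_apply']
      refine ⟨(hα _ (ih u hu).1).1, ?_⟩
      rw [(hα _ (ih u hu).1).2, (ih u hu).2, pow_succ]; group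
  have dv : ∀ u < n * 3, u / n < 3 := fun u hu => (Nat.div_lt_iff_lt_mul hn).2 (by omega)
  have md : ∀ u, u % n < n := fun u => Nat.mod_lt _ hn
  have d1 : ∀ i, ∀ b < n, (n * i + b) / n = i := fun i b hb => by
    rw [Nat.mul_add_div hn, Nat.div_eq_of_lt hb, add_zero]
  have d2 : ∀ i, ∀ b < n, (n * i + b) % n = b := fun i b hb => by
    rw [Nat.mul_add_mod, Nat.mod_eq_of_lt hb]
  have bl : ∀ u v, mul (α^[v / n] (u % n)) (v % n) < n := fun u v =>
    M.lt _ (hit _ _ (md u)).1 _ (md v)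
  have be : ∀ u v, π (mul (α^[v / n] (u % n)) (v % n)) =
      (g ^ (v / n))⁻¹ * π (u % n) * g ^ (v / n) * π (v % n) := fun u v => by
    rw [M.hom _ (hit _ _ (md u)).1 _ (md v), (hit _ _ (md u)).2]
  refine ⟨by omega, by simp [M.zero], ?_, ?_, ?_, ?_, ?_⟩
  · intro u hu v hv
    have a := dv u hu; have b := dv v hv
    by_cases h : 3 ≤ u / n + v / n
    · simp only [ymul, ble_t h, cond_true]
      have := M.lt s hs _ (bl u v)
      have : n * (u / n + v / n - 3) ≤ n * 1 := Nat.mul_le_mul_left _ (by omega)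
      omega
    · simp only [ymul, ble_f h, cond_false]
      have := bl u v
      have : n * (u / n + v / n) ≤ n * 2 := Nat.mul_le_mul_left _ (by omega)
      omega
  · intro u hu v hv
    by_cases h : 3 ≤ u / n + v / n
    · simp only [ymul, ble_t h, cond_true]
      have h' := M.lt s hs _ (bl u v)
      rw [d1 _ _ h', d2 _ _ h', M.hom s hs _ (bl u v), be, hs', ← mul_assoc, ← pow_add,
        Nat.sub_add_cancel h, pow_add]
      group
    · simp only [ymul, ble_f h, cond_false]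
      rw [d1 _ _ (bl u v), d2 _ _ (bl u v), be, pow_add]
      group
  · intro u hu v hv e
    have a := dv u hu; have b := dv v hv
    have key : ∀ i j x y, x ∈ K → y ∈ K → i < j → j < 3 → g ^ i * x ≠ g ^ j * y := by
      intro i j x y hx hy h1 h2 e
      obtain ⟨k, rfl⟩ := Nat.exists_eq_add_of_lt h1
      rw [add_assoc, pow_add, mul_assoc] at e
      have : g ^ (k + 1) ∈ K := (K.mul_mem_cancel_right hy).1 (mul_left_cancel e ▸ hx)
      have hk : k = 0 ∨ k = 1 := by omega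
      rcases hk with rfl | rfl
      · exact hg (by simpa using this)
      · exact hg2 (by simpa [pow_succ] using this)
    have e1 : u / n = v / n := by
      rcases lt_trichotomy (u / n) (v / n) with h | h | h
      · exact absurd e (key _ _ _ _ (M.mem _ (md u)) (M.mem _ (md v)) h b)
      · exact h
      · exact absurd e.symm (key _ _ _ _ (M.mem _ (md v)) (M.mem _ (md u)) h a)
    simp only [e1] at e
    have e2 := M.inj _ (md u) _ (md v) (mul_left_cancel e)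
    rw [← Nat.div_add_mod u n, ← Nat.div_add_mod v n, e1, e2]
  · intro u hu
    exact (hK' _).2 ⟨_, dv u hu, by simpa using M.mem _ (md u)⟩
  · intro x hx
    obtain ⟨i, hi, h⟩ := (hK' x).1 hx
    obtain ⟨u, hu, e⟩ := M.surj _ h
    refine ⟨n * i + u, ?_, ?_⟩
    · have : n * i ≤ n * 2 := Nat.mul_le_mul_left _ (by omega)
      omega
    · simp only [d1 _ _ hu, d2 _ _ hu, e]; simp

/-- Index of an element. -/
noncomputable def Mdl.idx {K : Subgroup G} {n mul π} (M : Mdl K n mul π) (x : G) : ℕ := by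
  classical exact if h : x ∈ K then (M.surj x h).choose else 0

theorem Mdl.idx_lt {K : Subgroup G} {n mul π} (M : Mdl K n mul π) (x : G) : M.idx x < n := by
  unfold Mdl.idx
  split_ifs with h
  · exact (M.surj x h).choose_spec.1
  · exact M.pos

theorem Mdl.pi_idx {K : Subgroup G} {n mul π} (M : Mdl K n mul π) {x : G} (h : x ∈ K) :
    π (M.idx x) = x := by
  unfold Mdl.idx
  rw [dif_pos h]
  exact (M.surj x h).choose_spec.2

theorem Mdl.idx_pi {K : Subgroup G} {n mul π} (M : Mdl K n mul π) {u : ℕ} (h : u < n) :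
    M.idx (π u) = u := M.inj _ (M.idx_lt _) _ h (M.pi_idx (M.mem u h))

theorem Mdl.idx_one {K : Subgroup G} {n mul π} (M : Mdl K n mul π) : M.idx 1 = 0 := by
  rw [← M.zero, M.idx_pi M.pos]

/-- Duplicate check with a bit mask. -/
def ndm : List ℕ → ℕ → Bool
  | [], _ => true
  | a :: l, m => !(m.testBit a) && ndm l (m ||| 1 <<< a)

theorem ndm_spec : ∀ (l : List ℕ) (m : ℕ), ndm l m = true →
    l.Nodup ∧ ∀ a ∈ l, m.testBit a = false
  | [], _, _ => by simp
  | a :: l, m, h => by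
    simp only [ndm, Bool.and_eq_true, Bool.not_eq_eq_eq_not, Bool.not_true] at h
    obtain ⟨h1, h2⟩ := ndm_spec l _ h.2
    refine ⟨List.nodup_cons.2 ⟨fun hm => ?_, h1⟩, ?_⟩
    · have := h2 a hm
      simp [Nat.testBit_or, Nat.one_shiftLeft] at this
    · intro b hb
      rcases List.mem_cons.1 hb with rfl | hb
      · exact h.1
      · have := h2 b hb
        simp only [Nat.testBit_or, Bool.or_eq_false_iff] at this
        exact this.1

theorem ndm_map {α : Type*} {l : List α} {f : α → ℕ} {e : List ℕ} (h : ndm (l.map f ++ e) 0 = true) :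
    (∀ x ∈ l, ∀ y ∈ l, f x = f y → x = y) ∧ ∀ x ∈ l, f x ∉ e := by
  obtain ⟨h1, -, h3⟩ := List.nodup_append.1 (ndm_spec _ _ h).1
  exact ⟨fun x hx y hy => List.inj_on_of_nodup_map h1 hx hy,
    fun x hx he => h3 _ (List.mem_map_of_mem hx) _ he rfl⟩

/-- All entries are below the bound. -/
def allLt (l : List ℕ) (n : ℕ) : Bool := l.all fun x => Nat.blt x n

theorem allLt_spec {l : List ℕ} {n : ℕ} (h : allLt l n = true) : ∀ x ∈ l, x < n := by
  simpa [allLt] using h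

/-- Rows outside a list. -/
def rowsOut (n : ℕ) (hr : List ℕ) : List ℕ := (List.range n).filter fun x => !(hr.any (Nat.beq x))

theorem mem_rowsOut {n : ℕ} {hr : List ℕ} {x : ℕ} : x ∈ rowsOut n hr ↔ x < n ∧ x ∉ hr := by
  simp only [rowsOut, List.mem_filter, List.mem_range, Bool.not_eq_eq_eq_not, Bool.not_true,
    List.any_eq_false, Nat.beq_eq]
  exact and_congr_right fun _ => ⟨fun h hx => h x hx rfl, fun h y hy e => h (e ▸ hy)⟩

/-- Bit mask of the values of a function. -/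
noncomputable def orm (n : ℕ) (f : ℕ → ℕ) : ℕ :=
  Nat.rec 0 (fun i acc => Nat.lor acc (Nat.shiftLeft 1 (f i))) n

theorem orm_bit (f : ℕ → ℕ) (j : ℕ) : ∀ n, (orm n f).testBit j = true ↔ ∃ i < n, f i = j
  | 0 => by simp [orm]
  | n + 1 => by
    have : orm (n + 1) f = orm n f ||| 1 <<< f n := rfl
    rw [this, Nat.testBit_or, Bool.or_eq_true, orm_bit f j n, Nat.one_shiftLeft,
      Nat.testBit_two_pow]
    constructor
    · rintro (⟨i, hi, e⟩ | e)
      · exact ⟨i, by omega, e⟩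
      · exact ⟨n, by omega, by simpa using e⟩
    · rintro ⟨i, hi, e⟩
      by_cases h : i = n
      · exact Or.inr (by simp [← e, h])
      · exact Or.inl ⟨i, by omega, e⟩

/-- Bounded quantifier. -/
noncomputable def allR (n : ℕ) (f : ℕ → Bool) : Bool :=
  Nat.rec true (fun i acc => and (f i) acc) n

theorem allR_spec {f : ℕ → Bool} : ∀ {n : ℕ}, allR n f = true → ∀ {u : ℕ}, u < n → f u = true
  | 0, _, _, hu => absurd hu (by omega)
  | n + 1, h, u, hu => by
    have h : (f n && allR n f) = true := h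
    rw [Bool.and_eq_true] at h
    by_cases e : u = n
    · rw [e]; exact h.1
    · exact allR_spec h.2 (by omega)

/-- Check of a permutation. -/
noncomputable def permB (n : ℕ) (f : ℕ → ℕ) : Bool :=
  Nat.beq (Nat.succ (orm n f)) (Nat.shiftLeft 1 n)

theorem permB_spec {n : ℕ} {f : ℕ → ℕ} (h : permB n f = true) :
    (∀ u < n, f u < n) ∧ ∀ u < n, ∀ v < n, f u = f v → u = v := by
  have h : orm n f + 1 = 1 <<< n := Nat.eq_of_beq_eq_true h
  rw [Nat.one_shiftLeft] at h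
  have h : orm n f = 2 ^ n - 1 := by omega
  have h1 : ∀ j, (∃ i < n, f i = j) ↔ j < n := fun j => by
    rw [← orm_bit, h, Nat.testBit_two_pow_sub_one]; simp
  have h2 : ∀ u < n, f u < n := fun u hu => (h1 _).1 ⟨u, hu, rfl⟩
  refine ⟨h2, fun u hu v hv e => ?_⟩
  have : Surjective (fun u : Fin n => (⟨f u, h2 u u.2⟩ : Fin n)) := by
    intro j
    obtain ⟨i, hi, e⟩ := (h1 j).2 j.2
    exact ⟨⟨i, hi⟩, Fin.ext e⟩
  exact congrArg Fin.val (Finite.injective_iff_surjective.2 this (a₁ := ⟨u, hu⟩) (a₂ := ⟨v, hv⟩)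
    (Fin.ext e))

/-- Patching finitely many values. -/
def pat : List ℕ → List ℕ → (ℕ → ℕ) → ℕ → ℕ
  | a :: l, b :: m, f, x => bif Nat.beq x a then b else pat l m f x
  | _, _, f, x => f x

theorem pat_of_not_mem {f : ℕ → ℕ} {x : ℕ} : ∀ {l m : List ℕ}, x ∉ l → pat l m f x = f x
  | [], _, _ => by simp [pat]
  | _ :: _, [], _ => by simp [pat]
  | a :: l, b :: m, h => by
    simp only [List.mem_cons, not_or] at h
    have : Nat.beq x a = false := by
      cases e : Nat.beq x a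
      · rfl
      · exact absurd (Nat.eq_of_beq_eq_true e) h.1
    simp only [pat, this, cond_false]
    exact pat_of_not_mem h.2

/-- Check of an injection avoiding holes. -/
noncomputable def injB (n : ℕ) (hr hc : List ℕ) (f : ℕ → ℕ) : Bool :=
  permB n (pat hr hc f) && allLt hr n && hc.all fun y => hr.any fun x => Nat.beq (pat hr hc f x) y

theorem injB_spec {n : ℕ} {hr hc : List ℕ} {f : ℕ → ℕ} (h : injB n hr hc f = true) :
    (∀ x < n, x ∉ hr → f x < n ∧ f x ∉ hc) ∧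
      (∀ x < n, x ∉ hr → ∀ y < n, y ∉ hr → f x = f y → x = y) ∧ ∀ y ∈ hc, y < n := by
  simp only [injB, Bool.and_eq_true, List.all_eq_true, List.any_eq_true, Nat.beq_eq] at h
  obtain ⟨⟨h1, h2⟩, h3⟩ := h
  obtain ⟨p1, p2⟩ := permB_spec h1
  have h2 := allLt_spec h2
  refine ⟨fun x hx hx' => ⟨?_, fun e => ?_⟩, fun x hx hx' y hy hy' e => ?_, fun y hy => ?_⟩
  · rw [← pat_of_not_mem (f := f) (m := hc) hx']; exact p1 x hx
  · obtain ⟨x', a, b⟩ := h3 _ e
    have := p2 x' (h2 _ a) x hx (by rw [b, pat_of_not_mem hx'])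
    exact hx' (this ▸ a)
  · exact p2 x hx y hy (by rw [pat_of_not_mem hx', pat_of_not_mem hy', e])
  · obtain ⟨x', a, b⟩ := h3 _ hy
    exact b ▸ p1 x' (h2 _ a)

/-- Check of a holey transversal. -/
noncomputable def htB (n : ℕ) (mul : ℕ → ℕ → ℕ) (hr hc hs : List ℕ) (θ : ℕ → ℕ) : Bool :=
  injB n hr hc θ && injB n hr hs fun x => mul x (θ x)

theorem Mdl.ht {K : Subgroup G} {n mul π} (M : Mdl K n mul π) {hr hc hs : List ℕ} {θ : ℕ → ℕ}
    (h : htB n mul hr hc hs θ = true) {R C S : Set G} (hR : ∀ u ∈ hr, π u ∈ R)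
    (hC : ∀ y ∈ C, ∃ u ∈ hc, π u = y) (hS : ∀ y ∈ S, ∃ u ∈ hs, π u = y) :
    HTin K R C S (fun x => π (θ (M.idx x))) := by
  simp only [htB, Bool.and_eq_true] at h
  obtain ⟨c1, c2, c3⟩ := injB_spec h.1
  obtain ⟨s1, s2, s3⟩ := injB_spec h.2
  have row : ∀ x, x ∉ R ∪ (K : Set G)ᶜ → x ∈ K ∧ M.idx x ∉ hr := by
    intro x hx
    simp only [Set.mem_union, Set.mem_compl_iff, not_or, not_not, SetLike.mem_coe] at hx
    exact ⟨hx.2, fun e => hx.1 (M.pi_idx hx.2 ▸ hR _ e)⟩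
  have tl : ∀ x, x ∉ R ∪ (K : Set G)ᶜ → θ (M.idx x) < n := fun x hx =>
    (c1 _ (M.idx_lt x) (row x hx).2).1
  have sy : ∀ x, x ∉ R ∪ (K : Set G)ᶜ →
      x * π (θ (M.idx x)) = π (mul (M.idx x) (θ (M.idx x))) := by
    intro x hx
    rw [M.hom _ (M.idx_lt x) _ (tl x hx), M.pi_idx (row x hx).1]
  refine ⟨fun x hx => ?_, fun x hx => ?_, fun x hx x' hx' e => ?_, fun x hx x' hx' e => ?_⟩
  · have := tl x hx
    rintro (e | e)
    · obtain ⟨u, hu, e⟩ := hC _ e
      exact (c1 _ (M.idx_lt x) (row x hx).2).2 (M.inj _ (c3 u hu) _ this e ▸ hu)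
    · exact e (M.mem _ this)
  · have := M.lt _ (M.idx_lt x) _ (tl x hx)
    rw [sy x hx]
    rintro (e | e)
    · obtain ⟨u, hu, e⟩ := hS _ e
      exact (s1 _ (M.idx_lt x) (row x hx).2).2 (M.inj _ (s3 u hu) _ this e ▸ hu)
    · exact e (M.mem _ this)
  · have := c2 _ (M.idx_lt x) (row x hx).2 _ (M.idx_lt x') (row x' hx').2
      (M.inj _ (tl x hx) _ (tl x' hx') e)
    rw [← M.pi_idx (row x hx).1, ← M.pi_idx (row x' hx').1, this]
  · rw [sy x hx, sy x' hx'] at e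
    have := s2 _ (M.idx_lt x) (row x hx).2 _ (M.idx_lt x') (row x' hx').2
      (M.inj _ (M.lt _ (M.idx_lt x) _ (tl x hx)) _ (M.lt _ (M.idx_lt x') _ (tl x' hx')) e)
    rw [← M.pi_idx (row x hx).1, ← M.pi_idx (row x' hx').1, this]

/-- Check of the row-wise latin property. -/
noncomputable def decB (n : ℕ) (T : ℕ → ℕ → ℕ) : Bool := allR n fun x => permB n fun k => T k x

theorem Mdl.dec {K : Subgroup G} {n mul π} (M : Mdl K n mul π) {T : ℕ → ℕ → ℕ}
    (h : decB n T = true) : DecIn K (fun k x => π (T (M.idx k) (M.idx x))) := by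
  have h := fun x => permB_spec (allR_spec h (M.idx_lt x))
  have tl : ∀ k x, T (M.idx k) (M.idx x) < n := fun k x => (h x).1 _ (M.idx_lt k)
  refine ⟨fun k _ x _ => M.mem _ (tl k x), fun x _ k hk k' hk' e => ?_⟩
  have := (h x).2 _ (M.idx_lt k) _ (M.idx_lt k') (M.inj _ (tl k x) _ (tl k' x) e)
  rw [← M.pi_idx hk, ← M.pi_idx hk', this]

/-- Check of all ordinary classes. -/
noncomputable def restB (n : ℕ) (mul : ℕ → ℕ → ℕ) (T : ℕ → ℕ → ℕ) : Bool :=
  allR n fun k => Nat.blt k 2 || htB n mul [] [] [] (T k)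

theorem Mdl.rest {K : Subgroup G} {n mul π} (M : Mdl K n mul π) {T : ℕ → ℕ → ℕ}
    (h : restB n mul T = true) (k : G) (hk : k ∈ K) (h0 : k ≠ π 0) (h1 : k ≠ π 1) :
    HTin K ∅ ∅ ∅ (fun x => π (T (M.idx k) (M.idx x))) := by
  have h := allR_spec h (M.idx_lt k)
  simp only [Bool.or_eq_true, Nat.blt_eq] at h
  rcases h with h | h
  · have : M.idx k = 0 ∨ M.idx k = 1 := by omega
    rcases this with e | e
    · exact absurd (by rw [← e, M.pi_idx hk]) h0
    · exact absurd (by rw [← e, M.pi_idx hk]) h1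
  · exact M.ht h (by simp) (by simp) (by simp)

/-- Check of near-orthogonal data. -/
noncomputable def noB (n : ℕ) (mul : ℕ → ℕ → ℕ) (t : ℕ) (T : ℕ → ℕ → ℕ) : Bool :=
  Nat.blt 0 t && Nat.blt t n && Nat.beq (mul t t) 0 && decB n T && restB n mul T &&
    htB n mul [0, t] [0, t] [0, t] (T 0) && htB n mul [0, t] [0, t] [0, t] (T 1) &&
    Nat.beq (T 0 0) 0 && Nat.beq (T 0 t) t && Nat.beq (T 1 0) t && Nat.beq (T 1 t) 0

theorem Mdl.no {K : Subgroup G} {n mul π} (M : Mdl K n mul π) {t : ℕ} {T : ℕ → ℕ → ℕ}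
    (h : noB n mul t T = true) : NOin K := by
  simp only [noB, Bool.and_eq_true, Nat.blt_eq, Nat.beq_eq] at h
  obtain ⟨⟨⟨⟨⟨⟨⟨⟨⟨⟨t0, tn⟩, tt⟩, hd⟩, hr⟩, h0⟩, h1⟩, v1⟩, v2⟩, v3⟩, v4⟩ := h
  have n1 : 1 < n := by omega
  have i1 := M.idx_pi n1
  have i0 := M.idx_pi M.pos
  have it := M.idx_pi tn
  have a : ∀ u ∈ [0, t], π u ∈ ({1, π t} : Set G) := by simp [M.zero]
  have b : ∀ y ∈ ({1, π t} : Set G), ∃ u ∈ [0, t], π u = y := by simp [M.zero]
  refine ⟨π t, π 0, π 1, fun k x => π (T (M.idx k) (M.idx x)), M.mem _ tn, M.mem _ M.pos,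
    M.mem _ n1, fun e => ?_, by rw [← M.hom _ tn _ tn, tt, M.zero], fun e => ?_, M.dec hd,
    M.rest hr, ?_, ?_, ?_, ?_, ?_, ?_⟩
  · have := M.inj _ tn _ M.pos (e.trans M.zero.symm); omega
  · have := M.inj _ M.pos _ n1 e; omega
  · simp only [i0]; exact M.ht h0 a b b
  · simp only [i1]; exact M.ht h1 a b b
  · simp only [M.idx_one, v1, M.zero]
  · simp only [i0, it, v2]
  · simp only [i1, M.idx_one, v3]
  · simp only [i1, it, v4, M.zero]

/-- Check of a special block. -/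
noncomputable def sbB (n : ℕ) (mul : ℕ → ℕ → ℕ) (t d A B : ℕ) (T : ℕ → ℕ → ℕ) : Bool :=
  allLt [1, t, d, A, B] n && decB n T && restB n mul T &&
    htB n mul [0, t, A] [0, t, B] [0, t, mul (mul A B) t] (T 0) &&
    htB n mul [0, t, mul A d] [0, t, mul t B] [0, t, mul (mul (mul A d) (mul t B)) t] (T 1) &&
    Nat.beq (T 0 0) 0 && Nat.beq (T 0 t) t && Nat.beq (T 1 0) t && Nat.beq (T 1 t) 0 &&
    Nat.beq (T 0 A) (mul t B) && Nat.beq (T 1 (mul A d)) B &&
    [A, B, mul (mul A B) t, mul A d, mul t B, mul (mul (mul A d) (mul t B)) t].all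
      fun u => !(Nat.beq u 0) && !(Nat.beq u t)

theorem Mdl.sb {K : Subgroup G} {n mul π} (M : Mdl K n mul π) {t d A B : ℕ} {T : ℕ → ℕ → ℕ}
    (h : sbB n mul t d A B T = true) : SBin K (π t) (π d) := by
  simp only [sbB, Bool.and_eq_true, Nat.beq_eq] at h
  obtain ⟨⟨⟨⟨⟨⟨⟨⟨⟨⟨⟨hl, hd⟩, hr⟩, h0⟩, h1⟩, v1⟩, v2⟩, v3⟩, v4⟩, v5⟩, v6⟩, w⟩ := h
  have hl := allLt_spec hl
  have n1 : 1 < n := hl _ (by simp)
  have tn : t < n := hl _ (by simp)
  have dn : d < n := hl _ (by simp)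
  have An : A < n := hl _ (by simp)
  have Bn : B < n := hl _ (by simp)
  have i1 := M.idx_pi n1
  have i0 := M.idx_pi M.pos
  have it := M.idx_pi tn
  have l1 := M.lt _ An _ Bn
  have l2 := M.lt _ An _ dn
  have l3 := M.lt _ tn _ Bn
  have l4 := M.lt _ l2 _ l3
  have e1 : π A * π B * π t = π (mul (mul A B) t) := by rw [M.hom _ l1 _ tn, M.hom _ An _ Bn]
  have e2 : π A * π d = π (mul A d) := by rw [M.hom _ An _ dn]
  have e3 : π t * π B = π (mul t B) := by rw [M.hom _ tn _ Bn]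
  have e4 : π (mul A d) * π (mul t B) * π t = π (mul (mul (mul A d) (mul t B)) t) := by
    rw [M.hom _ l4 _ tn, M.hom _ l2 _ l3]
  have a : ∀ v, ∀ u ∈ [0, t, v], π u ∈ ({1, π t, π v} : Set G) := by simp [M.zero]
  have b : ∀ v, ∀ y ∈ ({1, π t, π v} : Set G), ∃ u ∈ [0, t, v], π u = y := by simp [M.zero]
  have w' : ∀ u ∈ [A, B, mul (mul A B) t, mul A d, mul t B, mul (mul (mul A d) (mul t B)) t],
      u < n → π u ∉ ({1, π t} : Set G) := by
    intro u hu un e
    have := List.all_eq_true.1 w u hu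
    simp only [Bool.and_eq_true, Bool.not_eq_eq_eq_not, Bool.not_true] at this
    rcases e with e | e
    · exact Nat.ne_of_beq_eq_false this.1 (M.inj _ un _ M.pos (e.trans M.zero.symm))
    · exact Nat.ne_of_beq_eq_false this.2 (M.inj _ un _ tn e)
  refine ⟨π A, π B, π 0, π 1, fun k x => π (T (M.idx k) (M.idx x)), M.mem _ An, M.mem _ Bn,
    M.mem _ M.pos, M.mem _ n1, fun e => ?_, M.dec hd, M.rest hr, ?_, ?_, ?_, ?_, ?_, ?_, ?_, ?_,
    w' _ (by simp) An, w' _ (by simp) Bn, ?_, ?_, ?_, ?_⟩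
  · have := M.inj _ M.pos _ n1 e; omega
  · simp only [i0, e1]; exact M.ht h0 (a _) (b _) (b _)
  · simp only [i1, e2, e3, e4]; exact M.ht h1 (a _) (b _) (b _)
  · simp only [M.idx_one, v1, M.zero]
  · simp only [i0, it, v2]
  · simp only [i1, M.idx_one, v3]
  · simp only [i1, it, v4, M.zero]
  · simp only [i0, M.idx_pi An, v5, e3]
  · simp only [i1, e2, M.idx_pi l2, v6]
  · rw [e1]; exact w' _ (by simp) (M.lt _ l1 _ tn)
  · rw [e2]; exact w' _ (by simp) l2
  · rw [e3]; exact w' _ (by simp) l3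
  · rw [e2, e3, e4]; exact w' _ (by simp) (M.lt _ l4 _ tn)

theorem Mdl.pp {K : Subgroup G} {n mul π} (M : Mdl K n mul π) {d : ℕ} (hd : d < n) {φ : ℕ → ℕ}
    (h : htB n mul [] [] [] φ = true) (h0 : φ 0 = 0) : PP K (π d) (π (φ d)) :=
  ⟨_, M.ht h (by simp) (by simp) (by simp), by simp only [M.idx_one, h0, M.zero],
    by simp only [M.idx_pi hd]⟩

/-- Check of a holey split 2-plex. -/
def hp2B (n : ℕ) (mul : ℕ → ℕ → ℕ) (hr hc hs : List ℕ) (φ σ : ℕ → ℕ → ℕ) : Bool :=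
  allLt ((rowsOut n hr).map (φ 0) ++ (rowsOut n hr).map (φ 1) ++ hc ++ hs) n &&
    allLt ((rowsOut n hr).map (σ 0) ++ (rowsOut n hr).map (σ 1)) 2 &&
    ndm ((rowsOut n hr).map (φ 0) ++ hc) 0 && ndm ((rowsOut n hr).map (φ 1) ++ hc) 0 &&
    ndm (([0, 1] ×ˢ rowsOut n hr).map (fun p => 2 * mul p.2 (φ p.1 p.2) + σ p.1 p.2) ++
      (hs.map (fun s => 2 * s) ++ hs.map (fun s => 2 * s + 1))) 0

theorem Mdl.hp2 {n mul π} (M : Mdl (⊤ : Subgroup G) n mul π) {hr hc hs : List ℕ}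
    {φ σ : ℕ → ℕ → ℕ} (h : hp2B n mul hr hc hs φ σ = true) {R C S : Set G}
    (hR : ∀ u ∈ hr, π u ∈ R) (hC : ∀ y ∈ C, ∃ u ∈ hc, π u = y) (hS : ∀ y ∈ S, ∃ u ∈ hs, π u = y) :
    ∃ φ' σ', HP2 R C S φ' σ' := by
  simp only [hp2B, Bool.and_eq_true] at h
  obtain ⟨⟨⟨⟨h1, h1'⟩, h2⟩, h2'⟩, h3⟩ := h
  have h1 := allLt_spec h1
  have h1' := allLt_spec h1'
  have c0 := ndm_map h2
  have c1 := ndm_map h2'
  obtain ⟨s1, s2⟩ := ndm_map h3
  have pi : ∀ x, π (M.idx x) = x := fun x => M.pi_idx trivial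
  have row : ∀ x, x ∉ R → M.idx x ∈ rowsOut n hr := fun x hx =>
    mem_rowsOut.2 ⟨M.idx_lt x, fun e => hx (pi x ▸ hR _ e)⟩
  have h2 : ∀ i : ZMod 2, i.val = 0 ∨ i.val = 1 := by decide
  have tl : ∀ i : ZMod 2, ∀ u ∈ rowsOut n hr, φ i.val u < n := by
    intro i u hu
    apply h1
    rcases h2 i with e | e <;> simp only [e, List.mem_append, List.mem_map]
    · exact Or.inl (Or.inl (Or.inl ⟨u, hu, rfl⟩))
    · exact Or.inl (Or.inl (Or.inr ⟨u, hu, rfl⟩))
  have sl : ∀ i : ZMod 2, ∀ u ∈ rowsOut n hr, σ i.val u < 2 := by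
    intro i u hu
    apply h1'
    rcases h2 i with e | e <;> simp only [e, List.mem_append, List.mem_map]
    · exact Or.inl ⟨u, hu, rfl⟩
    · exact Or.inr ⟨u, hu, rfl⟩
  have cc : ∀ i : ZMod 2, (∀ x ∈ rowsOut n hr, ∀ y ∈ rowsOut n hr, φ i.val x = φ i.val y → x = y) ∧
      ∀ x ∈ rowsOut n hr, φ i.val x ∉ hc := by
    intro i; rcases h2 i with e | e <;> rw [e] <;> assumption
  have mp : ∀ i : ZMod 2, ∀ u ∈ rowsOut n hr, (i.val, u) ∈ [0, 1] ×ˢ rowsOut n hr := by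
    intro i u hu
    rw [List.mem_product]
    exact ⟨by simpa using h2 i, hu⟩
  have sy : ∀ (i : ZMod 2) x, x ∉ R →
      x * π (φ i.val (M.idx x)) = π (mul (M.idx x) (φ i.val (M.idx x))) := by
    intro i x hx
    rw [M.hom _ (M.idx_lt x) _ (tl i _ (row x hx)), pi]
  refine ⟨fun i x => π (φ i.val (M.idx x)), fun i x => (σ i.val (M.idx x) : ZMod 2),
    fun i x hx e => ?_, fun i x hx e => ?_, fun i x hx x' hx' e => ?_,
    fun i x hx i' x' hx' e e' => ?_⟩
  · obtain ⟨u, hu, e⟩ := hC _ e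
    exact (cc i).2 _ (row x hx) (M.inj _ (h1 u (by simp [hu])) _ (tl i _ (row x hx)) e ▸ hu)
  · rw [sy i x hx] at e
    obtain ⟨u, hu, e⟩ := hS _ e
    have e := M.inj _ (h1 u (by simp [hu])) _ (M.lt _ (M.idx_lt x) _ (tl i _ (row x hx))) e
    apply s2 _ (mp i _ (row x hx))
    have := sl i _ (row x hx)
    simp only [List.mem_append, List.mem_map, ← e]
    by_cases z : σ i.val (M.idx x) = 0
    · exact Or.inl ⟨u, hu, by omega⟩
    · exact Or.inr ⟨u, hu, by omega⟩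
  · have := (cc i).1 _ (row x hx) _ (row x' hx')
      (M.inj _ (tl i _ (row x hx)) _ (tl i _ (row x' hx')) e)
    rw [← pi x, ← pi x', this]
  · rw [sy i x hx, sy i' x' hx'] at e
    have e := M.inj _ (M.lt _ (M.idx_lt x) _ (tl i _ (row x hx))) _
      (M.lt _ (M.idx_lt x') _ (tl i' _ (row x' hx'))) e
    have e' : σ i.val (M.idx x) = σ i'.val (M.idx x') := by
      have := (ZMod.natCast_eq_natCast_iff' _ _ 2).1 e'
      rwa [Nat.mod_eq_of_lt (sl i _ (row x hx)), Nat.mod_eq_of_lt (sl i' _ (row x' hx'))] at this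
    obtain ⟨u, v⟩ := Prod.mk.inj (s1 _ (mp i _ (row x hx)) _ (mp i' _ (row x' hx'))
      (by simp only [e, e']))
    exact ⟨ZMod.val_injective 2 u, by rw [← pi x, ← pi x', v]⟩

end Pool.Agent.Work.MP_66fdf3_co
end

-- merged part: Pool.Agent.Work.MP_66fdf3_co.Ext
section
namespace Pool.Agent.Work.MP_66fdf3_co

open Function

variable {G : Type*} [Group G]

/-- An element giving an extension of index two. -/
structure Stp (H : Subgroup G) (y : G) : Prop where
  nm : y ∉ H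
  sq : y * y ∈ H
  cj : ∀ h ∈ H, y⁻¹ * h * y ∈ H

/-- The extension of index two. -/
def Stp.ext {H : Subgroup G} {y : G} (s : Stp H y) : Subgroup G where
  carrier := {x | x ∈ H ∨ y⁻¹ * x ∈ H}
  one_mem' := Or.inl H.one_mem
  mul_mem' := by
    rintro a b (ha | ha) (hb | hb)
    · exact Or.inl (H.mul_mem ha hb)
    · refine Or.inr ?_
      have := H.mul_mem (s.cj a ha) hb
      simpa [mul_assoc] using this
    · exact Or.inr (by simpa [mul_assoc] using H.mul_mem ha hb)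
    · refine Or.inl ?_
      have := H.mul_mem (H.mul_mem s.sq (s.cj _ ha)) hb
      simpa [mul_assoc] using this
  inv_mem' := by
    rintro a (ha | ha)
    · exact Or.inl (H.inv_mem ha)
    · refine Or.inr ?_
      have := H.mul_mem (s.cj _ (H.inv_mem ha)) (H.inv_mem s.sq)
      simpa [mul_assoc] using this

namespace Stp

variable {H : Subgroup G} {y : G} (s : Stp H y)

theorem mem {x : G} : x ∈ s.ext ↔ x ∈ H ∨ y⁻¹ * x ∈ H := Iff.rfl

theorem le : H ≤ s.ext := fun _ h => Or.inl h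

theorem self : y ∈ s.ext := Or.inr (by simp)

theorem ext_le {L : Subgroup G} (h : H ≤ L) (hy : y ∈ L) : s.ext ≤ L := by
  rintro x (hx | hx)
  · exact h hx
  · simpa using L.mul_mem hy (h hx)

theorem cases {x : G} (hx : x ∈ s.ext) : x ∈ H ∨ ∃ h ∈ H, x = y * h := by
  rcases hx with hx | hx
  · exact Or.inl hx
  · exact Or.inr ⟨_, hx, by simp⟩

include s in
theorem cj' (h : G) (hh : h ∈ H) : y * h * y⁻¹ ∈ H := by
  have := H.mul_mem (H.mul_mem s.sq (s.cj h hh)) (H.inv_mem s.sq)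
  simpa [mul_assoc] using this

theorem ne : H ≠ s.ext := fun e => s.nm (e ▸ s.self)

theorem lt : H < s.ext := lt_of_le_of_ne s.le s.ne

theorem par {a b : G} (ha : a ∈ s.ext) (hb : b ∈ s.ext) : a * b ∈ H ↔ (a ∈ H ↔ b ∈ H) := by
  have n1 : ∀ h ∈ H, y * h ∉ H := fun h hh e => s.nm ((H.mul_mem_cancel_right hh).1 e)
  rcases s.cases ha with ha' | ⟨a, ha', rfl⟩
  · simp [H.mul_mem_cancel_left ha', ha']
  · rcases s.cases hb with hb' | ⟨b, hb', rfl⟩
    · simp [H.mul_mem_cancel_right hb', hb']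
    · have := H.mul_mem (H.mul_mem s.sq (s.cj _ ha')) hb'
      have e : y * a * (y * b) ∈ H := by simpa [mul_assoc] using this
      simp [e, n1 a ha', n1 b hb']

theorem cjm {g h : G} (hg : g ∈ s.ext) (hh : h ∈ H) : g⁻¹ * h * g ∈ H := by
  rcases s.cases hg with hg | ⟨a, ha, rfl⟩
  · exact H.mul_mem (H.mul_mem (H.inv_mem hg) hh) hg
  · have := H.mul_mem (H.mul_mem (H.inv_mem ha) (s.cj h hh)) ha
    simpa [mul_assoc] using this

theorem card [Finite G] : Nat.card s.ext = 2 * Nat.card H := by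
  have h1 : (s.ext : Set G) = (H : Set G) ∪ (fun h => y * h) '' H := by
    ext x
    constructor
    · intro hx
      rcases s.cases hx with hx | ⟨a, ha, rfl⟩
      · exact Or.inl hx
      · exact Or.inr ⟨a, ha, rfl⟩
    · rintro (hx | ⟨a, ha, rfl⟩)
      · exact Or.inl hx
      · exact Or.inr (by simpa using ha)
  have h2 : Disjoint (H : Set G) ((fun h => y * h) '' H) := by
    rw [Set.disjoint_left]
    rintro _ hx ⟨a, ha, rfl⟩
    exact s.nm ((H.mul_mem_cancel_right ha).1 hx)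
  have h3 : ((fun h => y * h) '' (H : Set G)).ncard = (H : Set G).ncard :=
    Set.ncard_image_of_injective _ (mul_right_injective y)
  have h4 := Set.ncard_union_eq h2
  change (s.ext : Set G).ncard = 2 * (H : Set G).ncard
  rw [h1, h4, h3]; ring

theorem normal [hH : H.Normal] (h : ∀ g, y⁻¹ * (g⁻¹ * y * g) ∈ H) : s.ext.Normal := by
  constructor
  rintro x (hx | hx) g
  · exact Or.inl (hH.conj_mem x hx g)
  · refine Or.inr ?_
    have := H.mul_mem (h g⁻¹) (hH.conj_mem _ hx g)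
    simpa [mul_assoc] using this

end Stp

theorem Stp.of_normal {H : Subgroup G} [hH : H.Normal] {y : G} (h1 : y ∉ H) (h2 : y * y ∈ H) :
    Stp H y := ⟨h1, h2, fun h hh => by simpa using hH.conj_mem h hh y⁻¹⟩

theorem exists_central_in [Finite G] (hG : IsPGroup 2 G) (L : Subgroup G) [L.Normal] (hL : L ≠ ⊥) :
    ∃ c ∈ L, c ≠ 1 ∧ c * c = 1 ∧ ∀ g, g * c = c * g := by
  have hQ : IsPGroup 2 (ConjAct G) := hG.of_equiv ConjAct.toConjAct
  have hd : 2 ∣ Nat.card L := by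
    have : Nontrivial L := (Subgroup.nontrivial_iff_ne_bot L).2 hL
    obtain ⟨n, hn, e⟩ := ((hG.to_subgroup L).nontrivial_iff_card).1 this
    rw [e]; exact dvd_pow_self 2 hn.ne'
  obtain ⟨b, hb, hb1⟩ := hQ.exists_fixed_point_of_prime_dvd_card_of_fixed_point L hd
    (a := 1) (fun g => smul_one g)
  have hc : ∀ g, g * (b : G) = b * g := by
    intro g
    have := congrArg Subtype.val (hb (ConjAct.toConjAct g))
    rw [ConjAct.Subgroup.val_conj_smul, ConjAct.toConjAct_smul] at this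
    exact mul_inv_eq_iff_eq_mul.1 this
  obtain ⟨k, hk⟩ := IsPGroup.iff_orderOf.1 hG (b : G)
  have k0 : k ≠ 0 := by
    rintro rfl
    rw [pow_zero, orderOf_eq_one_iff] at hk
    exact hb1 (Subtype.ext hk).symm
  obtain ⟨k, rfl⟩ := Nat.exists_eq_succ_of_ne_zero k0
  refine ⟨(b : G) ^ 2 ^ k, L.pow_mem b.2 _, ?_, ?_, fun g => (Commute.pow_right (hc g) _)⟩
  · apply pow_ne_one_of_lt_orderOf (by positivity)
    rw [hk]; exact Nat.pow_lt_pow_right (by norm_num) (by omega)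
  · rw [← pow_add, ← mul_two, ← pow_succ, ← hk, pow_orderOf_eq_one]

/-- One step of a chief series. -/
theorem step [Finite G] (hG : IsPGroup 2 G) {H L : Subgroup G} [hH : H.Normal] [hL : L.Normal]
    (h : ¬L ≤ H) : ∃ y ∈ L, y ∉ H ∧ y * y ∈ H ∧ ∀ g, y⁻¹ * (g⁻¹ * y * g) ∈ H := by
  let π := QuotientGroup.mk' H
  have hπ : ∀ x, π x = 1 ↔ x ∈ H := fun x => QuotientGroup.eq_one_iff x
  have : (L.map π).Normal := hL.map π (QuotientGroup.mk'_surjective H)
  obtain ⟨_, ⟨y, hy, rfl⟩, c1, c2, c3⟩ := exists_central_in (hG.to_quotient H) (L.map π) (by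
    intro e
    apply h
    intro x hx
    have : π x ∈ L.map π := ⟨x, hx, rfl⟩
    rw [e] at this
    exact (hπ x).1 this)
  refine ⟨y, hy, fun e => c1 ((hπ y).2 e), (hπ _).1 (by rw [map_mul, c2]), fun g => (hπ _).1 ?_⟩
  simp only [map_mul, map_inv]
  rw [mul_assoc, ← c3]; simp

/-- The last step of a chief series. -/
theorem topstep [Finite G] (hG : IsPGroup 2 G) {B A : Subgroup G} [hB : B.Normal] [hA : A.Normal]
    (hBA : B ≤ A) (hne : ¬A ≤ B) :
    ∃ (A₀ : Subgroup G) (y : G) (s : Stp A₀ y), A₀.Normal ∧ B ≤ A₀ ∧ s.ext = A := by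
  obtain ⟨A₀, ⟨h1, h2, h3, h4⟩, hm⟩ := Set.Finite.exists_maximal
    (s := {X : Subgroup G | X.Normal ∧ B ≤ X ∧ X ≤ A ∧ ¬A ≤ X}) (Set.toFinite _)
    ⟨B, hB, le_rfl, hBA, hne⟩
  obtain ⟨y, hy, y1, y2, y3⟩ := step hG h4
  have s : Stp A₀ y := Stp.of_normal y1 y2
  refine ⟨A₀, y, s, h1, h2, le_antisymm (s.ext_le h3 hy) ?_⟩
  by_contra hh
  exact y1 (hm ⟨s.normal y3, h2.trans s.le, s.ext_le h3 hy, hh⟩ s.le s.self)

theorem not_top_le {H : Subgroup G} [Finite G] (h : Nat.card H < Nat.card G) : ¬⊤ ≤ H := by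
  intro e
  rw [top_le_iff.1 e, Subgroup.card_top] at h
  exact lt_irrefl _ h

theorem eq_top_of_card {H : Subgroup G} [Finite G] (h : Nat.card H = Nat.card G) : H = ⊤ :=
  (Subgroup.card_eq_iff_eq_top H).1 h

end Pool.Agent.Work.MP_66fdf3_co
end

-- merged part: Pool.Agent.Work.MP_66fdf3_co.PC
section
namespace Pool.Agent.Work.MP_66fdf3_co

open Function

variable {G : Type*} [Group G]

/-- The map `α` describes conjugation by `g`. -/
def Cj (π : ℕ → G) (n : ℕ) (α : ℕ → ℕ) (g : G) : Prop :=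
  ∀ u < n, α u < n ∧ π (α u) = g⁻¹ * π u * g

theorem Cj.of_comm {K : Subgroup G} {n mul π} (M : Mdl K n mul π) {g : G}
    (h : ∀ x ∈ K, x * g = g * x) : Cj π n (fun u => u) g := fun u hu =>
  ⟨hu, by rw [mul_assoc, h _ (M.mem u hu)]; simp⟩

theorem Mdl.step {K : Subgroup G} {n mul π} (M : Mdl K n mul π) {y : G} (s : Stp K y)
    {α : ℕ → ℕ} (hα : Cj π n α y) :
    ∃ s₀ < n, π s₀ = y * y ∧ Mdl s.ext (n + n) (xmul n mul α s₀) (xpi n π y) := by
  obtain ⟨s₀, h1, h2⟩ := M.surj _ s.sq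
  exact ⟨s₀, h1, h2, M.ext s.nm (fun _ => s.mem) hα h1 h2⟩

theorem Cj.step {K L : Subgroup G} {n mul mul' π} (M : Mdl K n mul π) {y g : G}
    (M' : Mdl L (n + n) mul' (xpi n π y)) {α : ℕ → ℕ} (hα : Cj π n α g)
    (h : y⁻¹ * (g⁻¹ * y * g) ∈ K) : ∃ e < n, π e = y⁻¹ * (g⁻¹ * y * g) ∧
      Cj (xpi n π y) (n + n) (xhom n mul' (n + e) α) g := by
  obtain ⟨e, h1, h2⟩ := M.surj _ h
  refine ⟨e, h1, h2, ?_⟩
  exact xhom_spec (π := π) M' (fun x => g⁻¹ * x * g) (fun x y => by simp [mul_assoc])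
    (fun u hu => ⟨by have := (hα u hu).1; omega, by rw [xpi_lo (hα u hu).1, (hα u hu).2]⟩)
    (by omega) (by rw [xpi_hi, h2]; simp)

/-- Cyclic group of order two. -/
def m1 (u v : ℕ) : ℕ := Nat.mod (Nat.add u v) 2
/-- Groups of order four. -/
def m2 (s : ℕ) : ℕ → ℕ → ℕ := xmul 2 m1 (fun u => u) s
/-- Automorphisms of groups of order four. -/
def a2 (s e : ℕ) : ℕ → ℕ := xhom 2 (m2 s) (2 + e) (fun u => u)
/-- Groups of order eight. -/
def m3 (s2 s3 e : ℕ) : ℕ → ℕ → ℕ := xmul 4 (m2 s2) (a2 s2 e) s3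
/-- Automorphisms of groups of order eight. -/
def a3 (s2 s3 e e2 e3 : ℕ) : ℕ → ℕ := xhom 4 (m3 s2 s3 e) (4 + e3) (a2 s2 e2)
/-- Groups of order sixteen. -/
def m4 (s2 s3 e s4 e2 e3 : ℕ) : ℕ → ℕ → ℕ := xmul 8 (m3 s2 s3 e) (a3 s2 s3 e e2 e3) s4
/-- Abelian groups of order eight. -/
def c3 (s2 s3 : ℕ) : ℕ → ℕ → ℕ := xmul 4 (m2 s2) (fun u => u) s3
/-- Abelian groups of order sixteen. -/
def c4 (s2 s3 s4 : ℕ) : ℕ → ℕ → ℕ := xmul 8 (c3 s2 s3) (fun u => u) s4

theorem stp_bot {z : G} (z1 : z ≠ 1) (z2 : z * z = 1) : Stp ⊥ z :=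
  Stp.of_normal (by simpa using z1) (by simpa using z2)

theorem mdl1 {z : G} (s : Stp ⊥ z) : Mdl s.ext 2 m1 (fun u => z ^ u) := by
  have z1 : z ≠ 1 := by simpa using s.nm
  have z2 : z * z = 1 := by simpa using s.sq
  refine ⟨by omega, by simp, fun u _ v _ => Nat.mod_lt _ (by omega), ?_, ?_, ?_, ?_⟩
  · intro u hu v hv
    have : m1 u v = (u + v) % 2 := rfl
    rw [this]
    interval_cases u <;> interval_cases v <;> simp [z2]
  · intro u hu v hv e
    interval_cases u <;> interval_cases v <;> simp_all [eq_comm]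
  · intro u _; exact s.ext.pow_mem s.self u
  · intro x hx
    rcases s.cases hx with h | ⟨a, h, rfl⟩
    · exact ⟨0, by omega, by simpa [eq_comm] using h⟩
    · exact ⟨1, by omega, by simpa [eq_comm] using h⟩

theorem comm_of_stp {z : G} (s : Stp ⊥ z) {g : G} (h : g * z = z * g) :
    ∀ x ∈ s.ext, x * g = g * x := by
  intro x hx
  rcases s.cases hx with a | ⟨a, ha, rfl⟩
  · rw [Subgroup.mem_bot.1 a]; simp
  · rw [Subgroup.mem_bot.1 ha]; simp [h]

/-- The parametrisation of a group of order four. -/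
def p2 (z v : G) : ℕ → G := xpi 2 (fun u => z ^ u) v

theorem p2_0 (z v : G) : p2 z v 0 = 1 := by simp [p2, xpi]
theorem p2_1 (z v : G) : p2 z v 1 = z := by simp [p2, xpi]
theorem p2_2 (z v : G) : p2 z v 2 = v := by simp [p2, xpi]
theorem p2_3 (z v : G) : p2 z v 3 = v * z := by simp [p2, xpi]

/-- A normal subgroup of order four with a chief series. -/
def Tw2 (H : Subgroup G) (s : ℕ) (π : ℕ → G) : Prop :=
  Mdl H 4 (m2 s) π ∧ ∀ g, ∃ e < 2, Cj π 4 (a2 s e) g

/-- A normal subgroup of order eight with a chief series. -/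
def Tw3 (H : Subgroup G) (s2 s3 e : ℕ) (π : ℕ → G) : Prop :=
  Mdl H 8 (m3 s2 s3 e) π ∧ ∀ g, ∃ e2 < 2, ∃ e3 < 4, Cj π 8 (a3 s2 s3 e e2 e3) g

theorem tw2_of {z v : G} (s : Stp ⊥ z) (zc : ∀ g, g * z = z * g) (s' : Stp s.ext v)
    (h : ∀ g, v⁻¹ * (g⁻¹ * v * g) ∈ s.ext) : ∃ s2 < 2, z ^ s2 = v * v ∧ Tw2 s'.ext s2 (p2 z v) := by
  have c : ∀ g, Cj (fun u => z ^ u) 2 (fun u => u) g := fun g =>
    Cj.of_comm (mdl1 s) (comm_of_stp s (zc g))
  obtain ⟨s2, h1, h2, M⟩ := (mdl1 s).step s' (c v)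
  refine ⟨s2, h1, h2, M, fun g => ?_⟩
  obtain ⟨e, h3, -, h4⟩ := Cj.step (mdl1 s) M (c g) (h g)
  exact ⟨e, h3, h4⟩

theorem Tw2.next {H : Subgroup G} {s2 π} (T : Tw2 H s2 π) {y : G} (s : Stp H y)
    (h : ∀ g, y⁻¹ * (g⁻¹ * y * g) ∈ H) :
    ∃ s3 < 4, ∃ e < 2, Tw3 s.ext s2 s3 e (xpi 4 π y) := by
  obtain ⟨e, he, c⟩ := T.2 y
  obtain ⟨s3, h1, -, M⟩ := T.1.step s c
  refine ⟨s3, h1, e, he, M, fun g => ?_⟩
  obtain ⟨e2, he2, c2⟩ := T.2 g
  obtain ⟨e3, h3, -, h4⟩ := Cj.step T.1 M c2 (h g)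
  exact ⟨e2, he2, e3, h3, h4⟩

theorem Tw3.next {H : Subgroup G} {s2 s3 e π} (T : Tw3 H s2 s3 e π) {y : G} (s : Stp H y) :
    ∃ s4 < 8, ∃ e2 < 2, ∃ e3 < 4, Mdl s.ext 16 (m4 s2 s3 e s4 e2 e3) (xpi 8 π y) := by
  obtain ⟨e2, he2, e3, he3, c⟩ := T.2 y
  obtain ⟨s4, h1, -, M⟩ := T.1.step s c
  exact ⟨s4, h1, e2, he2, e3, he3, M⟩

theorem exists_tw2 [Finite G] (hG : IsPGroup 2 G) (hc : 2 < Nat.card G) :
    ∃ (H : Subgroup G) (s2 : ℕ) (π : ℕ → G), H.Normal ∧ s2 < 2 ∧ Tw2 H s2 π := by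
  obtain ⟨z, -, z1, z2, z3⟩ := step hG (H := ⊥) (L := ⊤) (not_top_le (by simp; omega))
  have s : Stp ⊥ z := Stp.of_normal z1 z2
  have := s.normal z3
  obtain ⟨v, -, v1, v2, v3⟩ := step hG (H := s.ext) (L := ⊤)
    (not_top_le (by rw [(mdl1 s).card]; omega))
  have s' : Stp s.ext v := Stp.of_normal v1 v2
  obtain ⟨s2, h1, -, T⟩ := tw2_of s (fun g => by
    have := Subgroup.mem_bot.1 (z3 g)
    rw [inv_mul_eq_one, mul_assoc, eq_inv_mul_iff_mul_eq] at this
    exact this) s' v3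
  exact ⟨_, s2, _, s'.normal v3, h1, T⟩

theorem exists_tw3 [Finite G] (hG : IsPGroup 2 G) (hc : 4 < Nat.card G) :
    ∃ (H : Subgroup G) (s2 s3 e : ℕ) (π : ℕ → G), H.Normal ∧ s2 < 2 ∧ s3 < 4 ∧ e < 2 ∧
      Tw3 H s2 s3 e π := by
  obtain ⟨H, s2, π, hH, h1, T⟩ := exists_tw2 hG (by omega)
  obtain ⟨v, -, v1, v2, v3⟩ := step hG (H := H) (L := ⊤) (not_top_le (by rw [T.1.card]; omega))
  have s' : Stp H v := Stp.of_normal v1 v2
  obtain ⟨s3, h2, e, h3, T'⟩ := T.next s' v3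
  exact ⟨_, s2, s3, e, _, s'.normal v3, h1, h2, h3, T'⟩

theorem mdl_4 [Finite G] (hG : IsPGroup 2 G) (hc : Nat.card G = 4) :
    ∃ s2 < 2, ∃ π : ℕ → G, Mdl ⊤ 4 (m2 s2) π := by
  obtain ⟨H, s2, π, -, h1, T⟩ := exists_tw2 hG (by omega)
  obtain rfl : H = ⊤ := eq_top_of_card (by rw [T.1.card, hc])
  exact ⟨s2, h1, π, T.1⟩

theorem mdl_8 [Finite G] (hG : IsPGroup 2 G) (hc : Nat.card G = 8) :
    ∃ s2 < 2, ∃ s3 < 4, ∃ e < 2, ∃ π : ℕ → G, Mdl ⊤ 8 (m3 s2 s3 e) π := by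
  obtain ⟨H, s2, s3, e, π, -, h1, h2, h3, T⟩ := exists_tw3 hG (by omega)
  obtain rfl : H = ⊤ := eq_top_of_card (by rw [T.1.card, hc])
  exact ⟨s2, h1, s3, h2, e, h3, π, T.1⟩

theorem mdl_16 [Finite G] (hG : IsPGroup 2 G) (hc : Nat.card G = 16) :
    ∃ s2 < 2, ∃ s3 < 4, ∃ e < 2, ∃ s4 < 8, ∃ e2 < 2, ∃ e3 < 4, ∃ π : ℕ → G,
      Mdl ⊤ 16 (m4 s2 s3 e s4 e2 e3) π := by
  obtain ⟨H, s2, s3, e, π, hH, h1, h2, h3, T⟩ := exists_tw3 hG (by omega)
  obtain ⟨v, -, v1, v2, -⟩ := step hG (H := H) (L := ⊤) (not_top_le (by rw [T.1.card]; omega))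
  have s' : Stp H v := Stp.of_normal v1 v2
  obtain ⟨s4, h4, e2, h5, e3, h6, M⟩ := T.next s'
  have : s'.ext = ⊤ := eq_top_of_card (by rw [M.card, hc])
  exact ⟨s2, h1, s3, h2, e, h3, s4, h4, e2, h5, e3, h6, _, this ▸ M⟩

theorem mdl_cyc {x : G} {n : ℕ} (hn : 0 < n) (h : orderOf x = n) :
    Mdl (Subgroup.zpowers x) n (fun u v => (u + v) % n) (fun u => x ^ u) := by
  refine ⟨hn, by simp, fun u _ v _ => Nat.mod_lt _ hn, fun u _ v _ => ?_, fun u hu v hv e => ?_,
    fun u _ => Subgroup.npow_mem_zpowers x u, fun y hy => ?_⟩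
  · rw [← h, pow_mod_orderOf, pow_add]
  · exact pow_injOn_Iio_orderOf (by simpa [h]) (by simpa [h]) e
  · classical
    have := (isOfFinOrder_iff_pow_eq_one.2
      ⟨n, hn, by rw [← h, pow_orderOf_eq_one]⟩).mem_zpowers_iff_mem_range_orderOf.1 hy
    obtain ⟨u, hu, e⟩ := Finset.mem_image.1 this
    exact ⟨u, by simpa [h] using hu, e⟩

/-- Table lookup. -/
def tb (b n x k u : ℕ) : ℕ :=
  Nat.mod (Nat.shiftRight x (Nat.mul b (Nat.add (Nat.mul n k) u))) (Nat.shiftLeft 1 b)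

/-- Certificate: not associative, or commutative, or near-orthogonal data. -/
noncomputable def certB (n : ℕ) (mul : ℕ → ℕ → ℕ) (x : ℕ) : Bool :=
  bif Nat.beq (x % 4) 0 then
    allLt [x / 4 % 16, x / 64 % 16, x / 1024 % 16] n &&
      !(Nat.beq (mul (mul (x / 4 % 16) (x / 64 % 16)) (x / 1024 % 16))
        (mul (x / 4 % 16) (mul (x / 64 % 16) (x / 1024 % 16))))
  else bif Nat.beq (x % 4) 1 then allR n fun u => allR n fun v => Nat.beq (mul u v) (mul v u)
  else noB n mul (x / 4 % 16) (tb 4 n (x / 64))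

theorem Mdl.cert {n mul π} (M : Mdl (⊤ : Subgroup G) n mul π) {x : ℕ} (h : certB n mul x = true)
    (hn : ∃ a b : G, a * b ≠ b * a) : NO G := by
  unfold certB at h
  cases e0 : Nat.beq (x % 4) 0
  · cases e1 : Nat.beq (x % 4) 1
    · rw [e0, e1] at h
      exact (M.no h).top
    · rw [e0, e1] at h
      obtain ⟨a, b, hab⟩ := hn
      obtain ⟨u, hu, rfl⟩ := M.surj a trivial
      obtain ⟨v, hv, rfl⟩ := M.surj b trivial
      have := Nat.eq_of_beq_eq_true (allR_spec (allR_spec h hu) hv)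
      rw [← M.hom u hu v hv, ← M.hom v hv u hu, this] at hab
      exact absurd rfl hab
  · rw [e0] at h
    simp only [cond_true, Bool.and_eq_true, Bool.not_eq_eq_eq_not, Bool.not_true] at h
    have l := allLt_spec h.1
    exact absurd (M.assoc (l _ (by simp)) (l _ (by simp)) (l _ (by simp)))
      (Nat.ne_of_beq_eq_false h.2)

end Pool.Agent.Work.MP_66fdf3_co
end

-- merged part: Pool.Agent.Work.MP_66fdf3_co.Hex
section
namespace Pool.Agent.Work.MP_66fdf3_co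

open Function

variable {G : Type*} [Group G]

/-- Rows of the hexagon. -/
def hr (D F : G) : Fin 3 → G := ![1, D, D * F]
/-- Columns of the hexagon. -/
def hc (D F : G) : Fin 3 → G := ![1, D⁻¹ * F⁻¹, F⁻¹]

theorem inj3 {N : Subgroup G} (u : Fin 3 → G) (h1 : (u 0)⁻¹ * u 1 ∉ N) (h2 : (u 0)⁻¹ * u 2 ∉ N)
    (h3 : (u 1)⁻¹ * u 2 ∉ N) : ∀ p q, (u p)⁻¹ * u q ∈ N → p = q := by
  have sy : ∀ x y : G, x⁻¹ * y ∈ N → y⁻¹ * x ∈ N := fun x y h => by simpa using N.inv_mem h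
  intro p q h
  fin_cases p <;> fin_cases q
  · rfl
  · exact absurd h h1
  · exact absurd h h2
  · exact absurd (sy _ _ h) h1
  · rfl
  · exact absurd h h3
  · exact absurd (sy _ _ h) h2
  · exact absurd (sy _ _ h) h3
  · rfl

theorem hexConfig {N : Subgroup G} [hN : N.Normal] {D F : G} (hD : D ∉ N) (hF : F ∉ N)
    (hDF : D * F ∉ N) (hw : D * F * D⁻¹ * F⁻¹ ∈ N) :
    Config N (hr D F) (hc D F) (fun p => p + 2) 0 := by
  have hD' : D⁻¹ ∉ N := fun h => hD (by simpa using N.inv_mem h)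
  have hF' : F⁻¹ ∉ N := fun h => hF (by simpa using N.inv_mem h)
  have hFD : F * D ∉ N := fun h => hDF (hN.mem_comm h)
  have hFD' : D⁻¹ * F⁻¹ ∉ N := fun h => hFD (by simpa using N.inv_mem h)
  refine ⟨add_left_injective 2, by decide, rfl, rfl, inj3 _ ?_ ?_ ?_, inj3 _ ?_ ?_ ?_,
    inj3 _ ?_ ?_ ?_, inj3 _ ?_ ?_ ?_, fun p => ?_⟩
  · simpa [hr] using hD
  · simpa [hr] using hDF
  · simpa [hr] using hF
  · simpa [hc] using hFD'
  · simpa [hc] using hF'
  · intro h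
    exact hD (by simpa [hc, mul_assoc] using hN.conj_mem _ h F⁻¹)
  · simpa [hr, hc] using hF'
  · simpa [hr, hc] using hD
  · simpa [hr, hc] using hFD
  · simpa [hr, hc] using hFD
  · intro h
    have h : (1 * F⁻¹)⁻¹ * (D * F * (D⁻¹ * F⁻¹)) ∈ N := h
    exact hF (by simpa [mul_assoc] using N.mul_mem h (N.inv_mem hw))
  · intro h
    have h : (D * 1)⁻¹ * (D * F * (D⁻¹ * F⁻¹)) ∈ N := h
    exact hD' (by simpa [mul_assoc] using N.mul_mem h (N.inv_mem hw))
  · fin_cases p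
    · exact ⟨1, by simp [hr, hc]⟩
    · exact ⟨2, by simp [hr, hc]⟩
    · exact ⟨0, by simpa [hr, hc, mul_assoc] using hw⟩

/-- Column code. -/
def hcol (n e c : ℕ) : ℕ :=
  bif Nat.ble n c then Nat.add (Nat.mul n (Nat.mod (Nat.add (Nat.div e n) 2) 3)) (Nat.mod c n)
  else Nat.add (Nat.mul n (Nat.div e n)) (Nat.mod c n)

/-- Symbol code. -/
def hsym (n : ℕ) (mul : ℕ → ℕ → ℕ) (α β : ℕ → ℕ) (w i x : ℕ) (b : Bool) : ℕ :=
  bif b then (bif Nat.beq i 2 then mul (α (β x)) w else Nat.add (Nat.mul n (Nat.succ i)) x)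
  else (bif Nat.beq i 0 then x else bif Nat.beq i 1 then Nat.add n (α x)
    else Nat.add (Nat.mul n 2) (β x))

/-- Check of one class. -/
noncomputable def hlocB (n : ℕ) (mul : ℕ → ℕ → ℕ) (α β : ℕ → ℕ) (w : ℕ) (h : List ℕ)
    (θ : ℕ → ℕ) : Bool :=
  injB (n * 3) h h (fun e => hcol n e (θ e)) &&
    injB (n * 3) h h fun e =>
      hsym n mul α β w (Nat.div e n) (mul (Nat.mod e n) (Nat.mod (θ e) n)) (Nat.ble n (θ e))

theorem hex_loc {N : Subgroup G} [hN : N.Normal] {n mul π} (M : Mdl N n mul π) {D F : G}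
    (K : Config N (hr D F) (hc D F) (fun p => p + 2) 0) {α β : ℕ → ℕ} {w : ℕ}
    (hα : Cj π n α D⁻¹) (hβ : Cj π n β F⁻¹) (hw : w < n) (hw' : π w = D * F * D⁻¹ * F⁻¹)
    {h : List ℕ} {θ : ℕ → ℕ} (hh : hlocB n mul α β w h θ = true) {H : Set G}
    (hl : ∀ u ∈ h, u < n) (h1 : ∀ u ∈ h, π u ∈ H) (h2 : ∀ y ∈ H, ∃ u ∈ h, π u = y) :
    Loc N (hr D F) H fun p a => π (θ (n * p + M.idx a) % n) *
      hc D F (if Nat.ble n (θ (n * p + M.idx a)) then p + 2 else p) := by
  simp only [hlocB, Bool.and_eq_true] at hh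
  obtain ⟨c1, c2, -⟩ := injB_spec hh.1
  obtain ⟨s1, s2, -⟩ := injB_spec hh.2
  have hn := M.pos
  have d1 : ∀ i, ∀ b < n, (n * i + b) / n = i := fun i b hb => by
    rw [Nat.mul_add_div hn, Nat.div_eq_of_lt hb, add_zero]
  have d2 : ∀ i, ∀ b < n, (n * i + b) % n = b := fun i b hb => by
    rw [Nat.mul_add_mod, Nat.mod_eq_of_lt hb]
  have md : ∀ u, u % n < n := fun u => Nat.mod_lt _ hn
  have hH : ∀ y ∈ H, y ∈ N := fun y hy => by
    obtain ⟨u, hu, rfl⟩ := h2 y hy; exact M.mem _ (hl u hu)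
  have el : ∀ (p : Fin 3) a, n * p + M.idx a < n * 3 := fun p a => by
    have := M.idx_lt a
    have : n * p ≤ n * 2 := Nat.mul_le_mul_left _ (by omega)
    omega
  have en : ∀ (p : Fin 3), ∀ a ∈ N, hr D F p * a ∉ H → n * p + M.idx a ∉ h := by
    intro p a ha hp e
    have := d1 p _ (M.idx_lt a)
    rw [Nat.div_eq_of_lt (hl _ e)] at this
    have : p = 0 := Fin.ext this.symm
    subst this
    apply hp
    have := h1 _ e
    simpa [hr, M.pi_idx ha] using this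
  have ee : ∀ (p p' : Fin 3), ∀ a ∈ N, ∀ a' ∈ N, n * p + M.idx a = n * p' + M.idx a' →
      p = p' ∧ a = a' := by
    intro p p' a ha a' ha' e
    have e1 := congrArg (· / n) e
    have e2 := congrArg (· % n) e
    simp only [d1 _ _ (M.idx_lt _), d2 _ _ (M.idx_lt _)] at e1 e2
    exact ⟨Fin.ext e1, by rw [← M.pi_idx ha, e2, M.pi_idx ha']⟩
  have cc : ∀ (p : Fin 3) a, hcol n (n * p + M.idx a) (θ (n * p + M.idx a)) =
      n * ((if Nat.ble n (θ (n * p + M.idx a)) then p + 2 else p : Fin 3) : ℕ) +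
        θ (n * p + M.idx a) % n := by
    intro p a
    have e : Nat.div (n * p + M.idx a) n = p := d1 _ _ (M.idx_lt a)
    cases b : Nat.ble n (θ (n * p + M.idx a))
    · simp only [hcol, b, e, cond_false]; rfl
    · simp only [hcol, b, e, cond_true]; rfl
  let S : Fin 3 → G → G := ![fun x => x, fun x => x * F⁻¹, fun x => D * x]
  have hS : ∀ j j' x x', x ∈ N → x' ∈ N → S j x = S j' x' → j = j' ∧ x = x' := by
    intro j j' x x' hx hx' e
    have q : ∀ j x, x ∈ N → (hr D F j * hc D F j)⁻¹ * S j x ∈ N := by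
      intro j x hx
      fin_cases j
      · simpa [hr, hc, S] using hx
      · simpa [hr, hc, S, mul_assoc] using hN.conj_mem _ hx F
      · simpa [hr, hc, S] using hx
    have : j = j' := K.hs1 _ _ (by
      have := N.mul_mem (q j x hx) (N.inv_mem (q j' x' hx'))
      rw [e] at this
      simpa [mul_assoc] using this)
    subst this
    refine ⟨rfl, ?_⟩
    fin_cases j <;> simpa [S] using e
  have ss : ∀ (p : Fin 3) (b : Bool), ∀ x < n, ∃ j : Fin 3, ∃ y < n,
      hsym n mul α β w p x b = n * j + y ∧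
        hr D F p * π x * hc D F (if b then p + 2 else p) = S j (π y) := by
    intro p b x hx
    fin_cases p <;> cases b
    · exact ⟨0, x, hx, by simp [hsym, Nat.beq], by simp [hr, hc, S]⟩
    · exact ⟨1, x, hx, by simp [hsym, Nat.beq], by simp [hr, hc, S]⟩
    · exact ⟨1, α x, (hα x hx).1, by simp [hsym, Nat.beq], by simp [hr, hc, S, (hα x hx).2, mul_assoc]⟩
    · exact ⟨2, x, hx, by simp [hsym, Nat.beq], by simp [hr, hc, S]⟩
    · exact ⟨2, β x, (hβ x hx).1, by simp [hsym, Nat.beq], by simp [hr, hc, S, (hβ x hx).2, mul_assoc]⟩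
    · have a1 := hβ x hx
      have a2 := hα _ a1.1
      refine ⟨0, mul (α (β x)) w, M.lt _ a2.1 _ hw, by simp [hsym, Nat.beq], ?_⟩
      rw [M.hom _ a2.1 _ hw, a2.2, a1.2, hw']
      simp [hr, hc, S, mul_assoc]
  have ss' : ∀ (p : Fin 3), ∀ a ∈ N, ∃ j : Fin 3, ∃ y < n,
      hsym n mul α β w (Nat.div (n * p + M.idx a) n) (mul (Nat.mod (n * p + M.idx a) n)
        (Nat.mod (θ (n * p + M.idx a)) n)) (Nat.ble n (θ (n * p + M.idx a))) = n * j + y ∧
      hr D F p * a * (π (θ (n * p + M.idx a) % n) *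
        hc D F (if Nat.ble n (θ (n * p + M.idx a)) then p + 2 else p)) = S j (π y) := by
    intro p a ha
    have e : Nat.div (n * p + M.idx a) n = p := d1 _ _ (M.idx_lt a)
    have e' : Nat.mod (n * p + M.idx a) n = M.idx a := d2 _ _ (M.idx_lt a)
    obtain ⟨j, y, hy, u, v⟩ := ss p (Nat.ble n (θ (n * p + M.idx a))) _
      (M.lt _ (M.idx_lt a) _ (md (θ (n * p + M.idx a))))
    refine ⟨j, y, hy, by rw [e, e']; exact u, ?_⟩
    rw [← v, M.hom _ (M.idx_lt a) _ (md _), M.pi_idx ha]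
    simp only [mul_assoc]
  refine ⟨fun p a ha hp e => ?_, fun p a ha hp e => ?_, fun p a ha hp p' a' ha' hp' e => ?_,
    fun p a ha hp p' a' ha' hp' e => ?_⟩
  · apply (c1 _ (el p a) (en p a ha hp)).2
    have := K.hc (if Nat.ble n (θ (n * p + M.idx a)) then p + 2 else p) 0
      (col_idx (M.mem _ (md (θ (n * p + M.idx a)))) (hH _ e) (by rw [K.c0, mul_one]))
    rw [cc, this]
    rw [this, K.c0, mul_one] at e
    obtain ⟨u, hu, e⟩ := h2 _ e
    simpa [← M.inj _ (hl u hu) _ (md _) e] using hu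
  · apply (s1 _ (el p a) (en p a ha hp)).2
    obtain ⟨j, y, hy, u, v⟩ := ss' p a ha
    rw [u]
    rw [v] at e
    obtain ⟨u', hu, e'⟩ := h2 _ e
    obtain ⟨rfl, e''⟩ := hS 0 j _ _ (M.mem _ (hl _ hu)) (M.mem _ hy) e'
    simpa [← M.inj _ (hl _ hu) _ hy e''] using hu
  · apply ee p p' a ha a' ha'
    apply c2 _ (el p a) (en p a ha hp) _ (el p' a') (en p' a' ha' hp')
    have := K.hc _ _ (col_idx (M.mem _ (md _)) (M.mem _ (md _)) e)
    rw [this] at e
    rw [cc, cc, this, M.inj _ (md _) _ (md _) (mul_right_cancel e)]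
  · apply ee p p' a ha a' ha'
    apply s2 _ (el p a) (en p a ha hp) _ (el p' a') (en p' a' ha' hp')
    obtain ⟨j, y, hy, u, v⟩ := ss' p a ha
    obtain ⟨j', y', hy', u', v'⟩ := ss' p' a' ha'
    rw [v, v'] at e
    obtain ⟨rfl, e'⟩ := hS _ _ _ _ (M.mem _ hy) (M.mem _ hy') e
    rw [u, u', M.inj _ hy _ hy' e']

/-- Check of a hexagon certificate. -/
noncomputable def hexB (n : ℕ) (mul : ℕ → ℕ → ℕ) (α β : ℕ → ℕ) (w t kk : ℕ)
    (T : ℕ → ℕ → ℕ) : Bool :=
  Nat.blt 0 t && Nat.blt t n && Nat.beq (mul t t) 0 &&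
    (allR (n * 3) fun e => permB (n + n) fun k => T k e) &&
    (allR 3 fun i => allR n fun k =>
      (allR n fun a => Nat.ble n (T (Nat.add n k) (Nat.add (Nat.mul n i) a)) == Nat.ble kk k) &&
        htB n mul [] [] [] fun a => Nat.mod (T (Nat.add n k) (Nat.add (Nat.mul n i) a)) n) &&
    (allR n fun k => Nat.blt k 2 || hlocB n mul α β w [] (T k)) &&
    hlocB n mul α β w [0, t] (T 0) && hlocB n mul α β w [0, t] (T 1) &&
    Nat.beq (T 0 0) 0 && Nat.beq (T 0 t) t && Nat.beq (T 1 0) t && Nat.beq (T 1 t) 0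

theorem hex_no {N : Subgroup G} [hN : N.Normal] {n mul π} (M : Mdl N n mul π) {D F : G}
    (K : Config N (hr D F) (hc D F) (fun p => p + 2) 0) {α β : ℕ → ℕ} {w t kk : ℕ}
    (hα : Cj π n α D⁻¹) (hβ : Cj π n β F⁻¹) (hw : w < n) (hw' : π w = D * F * D⁻¹ * F⁻¹)
    {T : ℕ → ℕ → ℕ} (h : hexB n mul α β w t kk T = true) {θ : G → G}
    (hθ : HT (cos N (hr D F)) (cos N (hc D F)) (cos N fun p => hr D F p * hc D F p) θ) :
    NO G := by
  simp only [hexB, Bool.and_eq_true, Nat.blt_eq, Nat.beq_eq] at h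
  obtain ⟨⟨⟨⟨⟨⟨⟨⟨⟨⟨⟨t0, tn⟩, tt⟩, hd⟩, hp⟩, hl⟩, l0⟩, l1⟩, v1⟩, v2⟩, v3⟩, v4⟩ := h
  have hn := M.pos
  have n1 : 1 < n := by omega
  have md : ∀ u, u % n < n := fun u => Nat.mod_lt _ hn
  have el : ∀ (p : Fin 3) a, n * p + M.idx a < n * 3 := fun p a => by
    have := M.idx_lt a
    have : n * p ≤ n * 2 := Nat.mul_le_mul_left _ (by omega)
    omega
  have hd := fun (p : Fin 3) a => permB_spec (allR_spec hd (el p a))
  have hp := fun (p : Fin 3) κ => Bool.and_eq_true_iff.1 (allR_spec (allR_spec hp p.2) (M.idx_lt κ))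
  have hp1 : ∀ (p : Fin 3) κ a, n ≤ T (n + M.idx κ) (n * p + M.idx a) ↔ ¬M.idx κ < kk := by
    intro p κ a
    have := allR_spec (hp p κ).1 (M.idx_lt a)
    rw [beq_iff_eq] at this
    rw [not_lt, ← Nat.ble_eq, ← Nat.ble_eq, ← this]; rfl
  have code : ∀ c c', c < n + n → c' < n + n → (n ≤ c ↔ n ≤ c') → π (c % n) = π (c' % n) →
      c = c' := by
    intro c c' h1 h2 h3 h4
    have := M.inj _ (md _) _ (md _) h4
    by_cases a : n ≤ c
    · have a' := h3.1 a
      rw [Nat.mod_eq_sub_mod a, Nat.mod_eq_sub_mod a', Nat.mod_eq_of_lt (by omega),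
        Nat.mod_eq_of_lt (by omega)] at this
      omega
    · have a' : ¬n ≤ c' := fun b => a (h3.2 b)
      rwa [Nat.mod_eq_of_lt (by omega), Nat.mod_eq_of_lt (by omega)] at this
  have hpt : ∀ (p : Fin 3) κ, HTin N ∅ ∅ ∅
      (fun a => π (T (n + M.idx κ) (n * p + M.idx a) % n)) := fun p κ =>
    M.ht (hp p κ).2 (by simp) (by simp) (by simp)
  have i1 := M.idx_pi n1
  have i0 := M.idx_pi M.pos
  have it := M.idx_pi tn
  have a : ∀ u ∈ [0, t], π u ∈ ({1, π t} : Set G) := by simp [M.zero]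
  have b : ∀ y ∈ ({1, π t} : Set G), ∃ u ∈ [0, t], π u = y := by simp [M.zero]
  have c : ∀ u ∈ [0, t], u < n := by simp [hn, tn]
  have lo : ∀ κ, M.idx κ < n + n := fun κ => by have := M.idx_lt κ; omega
  have hi : ∀ κ, n + M.idx κ < n + n := fun κ => by have := M.idx_lt κ; omega
  have f0 : Nat.ble n 0 = false := ble_f (by omega)
  have ft : Nat.ble n t = false := ble_f (by omega)
  refine region N K hθ ⟨_, hpt 0 1⟩ (fun κ => M.idx κ < kk)
    (fun p κ a => π (T (n + M.idx κ) (n * p + M.idx a) % n))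
    (fun κ p a => Nat.ble n (T (M.idx κ) (n * p + M.idx a)))
    (fun κ p a => π (T (M.idx κ) (n * p + M.idx a) % n)) (fun p κ _ => hpt p κ)
    (fun _ _ _ _ _ => M.mem _ (md _)) ?_ ?_ ?_ _ (fun _ _ _ => rfl) (π t) (π 0) (π 1)
    (M.mem _ tn) (M.mem _ hn) (M.mem _ n1) (fun e => ?_) (by rw [← M.hom _ tn _ tn, tt, M.zero])
    (fun e => ?_) (fun κ hκ k0 k1 => ?_) ?_ ?_ ?_ ?_ ?_ ?_
  · intro p a _ κ hκ κ' hκ' e1 e2
    have := (hd p a).2 _ (lo κ) _ (lo κ') (code _ _ ((hd p a).1 _ (lo κ)) ((hd p a).1 _ (lo κ'))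
      (by rw [← Nat.ble_eq, ← Nat.ble_eq, e1]) e2)
    rw [← M.pi_idx hκ, this, M.pi_idx hκ']
  · intro p a _ κ hκ κ' hκ' e1 e2
    have := (hd p a).2 _ (hi κ) _ (hi κ') (code _ _ ((hd p a).1 _ (hi κ)) ((hd p a).1 _ (hi κ'))
      (by rw [hp1, hp1, e1]) e2)
    rw [← M.pi_idx hκ, Nat.add_left_cancel this, M.pi_idx hκ']
  · intro p a _ κ hκ κ' hκ' e1 e2
    have := (hd p a).2 _ (lo κ) _ (hi κ') (code _ _ ((hd p a).1 _ (lo κ)) ((hd p a).1 _ (hi κ'))
      (by rw [hp1, ← e1, Nat.ble_eq]) e2)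
    have := M.idx_lt κ
    omega
  · have := M.inj _ tn _ hn (e.trans M.zero.symm); omega
  · have := M.inj _ hn _ n1 e; omega
  · have h := allR_spec hl (M.idx_lt κ)
    simp only [Bool.or_eq_true, Nat.blt_eq] at h
    rcases h with h | h
    · have : M.idx κ = 0 ∨ M.idx κ = 1 := by omega
      rcases this with e | e
      · exact absurd (by rw [← e, M.pi_idx hκ]) k0
      · exact absurd (by rw [← e, M.pi_idx hκ]) k1
    · exact hex_loc M K hα hβ hw hw' h (by simp) (by simp) (by simp)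
  · simp only [i0]; exact hex_loc M K hα hβ hw hw' l0 c a b
  · simp only [i1]; exact hex_loc M K hα hβ hw hw' l1 c a b
  · simp [M.idx_one, v1, f0, M.zero, K.c0]
  · simp [i0, it, v2, ft, K.c0, Nat.mod_eq_of_lt tn]
  · simp [i1, M.idx_one, v3, ft, K.c0, Nat.mod_eq_of_lt tn]
  · simp [i1, it, v4, f0, M.zero, K.c0]

end Pool.Agent.Work.MP_66fdf3_co
end

-- merged part: Pool.Agent.Work.MP_66fdf3_co.HexC
section
namespace Pool.Agent.Work.MP_66fdf3_co

/-- Hexagon certificate over a normal subgroup of order eight. -/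
noncomputable def hexC (s p1 p2 e1 e2 w x : ℕ) : Bool :=
  hexB 8 (m3 0 s 0) (a3 0 s 0 p1 e1) (a3 0 s 0 p2 e2) w (Nat.mod x 8) (Nat.mod (Nat.div x 8) 4)
    (tb 4 24 (Nat.div x 32))

/-- All hexagon certificates with given action on the four-group. -/
noncomputable def hexAll (s p1 p2 b : ℕ) (d : List ℕ) : Bool :=
  allR b fun e1 => allR b fun e2 => allR 4 fun w =>
    hexC s p1 p2 e1 e2 (Nat.succ w) (d.getD ((e1 * b + e2) * 4 + w) 0)

end Pool.Agent.Work.MP_66fdf3_co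
end
end
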